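import Pool.Agent.K3h35.FlipGeo

set_option autoImplicit false

namespace Pool.Agent.K3h35.Flip

open Set

/-- piecewise linear interpolation on `[0, J]` of the sequence `s` -/
noncomputable def pl (s : ℕ → ℝ) (J : ℕ) (x : ℝ) : ℝ :=
  ∑ j ∈ Finset.range (J + 1), s j * max 0 (1 - |x - j|)

theorem pl_continuous (s : ℕ → ℝ) (J : ℕ) : Continuous (pl s J) := by
  unfold pl
  fun_prop

theorem pl_eq {s : ℕ → ℝ} {J j : ℕ} {x : ℝ} (hj : j < J) (h1 : (j : ℝ) ≤ x) (h2 : x ≤ j + 1) :
    pl s J x = (j + 1 - x) * s j + (x - j) * s (j + 1) := by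
  unfold pl
  rw [Finset.sum_eq_add j (j + 1) (by omega)]
  · rw [abs_of_nonneg (by linarith), abs_of_nonpos (by push_cast; linarith),
      max_eq_right (by linarith), max_eq_right (by push_cast; linarith)]
    push_cast; ring
  · intro i _ hi
    have : (1 : ℝ) ≤ |x - i| := by
      rcases lt_or_gt_of_ne hi.1 with h | h
      · have h' : (i : ℝ) + 1 ≤ j := by exact_mod_cast h
        rw [abs_of_nonneg (by linarith)]; linarith
      · have h' : (j : ℝ) + 2 ≤ i := by
          have : j + 2 ≤ i := by omega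
          exact_mod_cast this
        rw [abs_of_nonpos (by linarith)]; linarith
    rw [max_eq_left (by linarith), mul_zero]
  · intro h; exact absurd (Finset.mem_range.2 (by omega)) h
  · intro h; exact absurd (Finset.mem_range.2 (by omega)) h

theorem pl_nat {s : ℕ → ℝ} {J j : ℕ} (hJ : 0 < J) (hj : j ≤ J) : pl s J j = s j := by
  rcases eq_or_lt_of_le hj with h | h
  · obtain ⟨i, rfl⟩ : ∃ i, j = i + 1 := ⟨j - 1, by omega⟩
    rw [pl_eq (j := i) (by omega) (by push_cast; linarith) (by push_cast; linarith)]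
    push_cast; ring
  · rw [pl_eq h le_rfl (by linarith)]
    ring

theorem exists_slab {c d : ℕ} {x : ℝ} (h : c < d) (h1 : (c : ℝ) ≤ x) (h2 : x ≤ d) :
    ∃ j : ℕ, c ≤ j ∧ j < d ∧ (j : ℝ) ≤ x ∧ x ≤ j + 1 := by
  have hx : (0 : ℝ) ≤ x := le_trans (Nat.cast_nonneg c) h1
  by_cases hxd : x < d
  · refine ⟨⌊x⌋₊, Nat.le_floor h1, ?_, Nat.floor_le hx, (Nat.lt_floor_add_one x).le⟩
    exact (Nat.floor_lt hx).2 hxd
  · have : x = d := le_antisymm h2 (not_lt.1 hxd)
    have e : ((d - 1 : ℕ) : ℝ) = d - 1 := by rw [Nat.cast_sub (by omega)]; simp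
    refine ⟨d - 1, by omega, by omega, ?_, ?_⟩
    · rw [e]; linarith
    · rw [e]; linarith

/-- the point of height `s j` in column `j` -/
def pt (s : ℕ → ℝ) (j : ℕ) : Pt := ((j : ℝ), s j)

@[simp] theorem pt_fst (s : ℕ → ℝ) (j : ℕ) : (pt s j).1 = j := rfl
@[simp] theorem pt_snd (s : ℕ → ℝ) (j : ℕ) : (pt s j).2 = s j := rfl

/-- the side of the line through the upper vertex in column `a` and the lower vertex in column `b`:
positive on the right -/
def sd (G F : ℕ → ℝ) (a b : ℕ) (p : Pt) : ℝ := (G a - F b) * (p.1 - b) - ((a : ℝ) - b) * (p.2 - F b)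

theorem sd_upper (G F : ℕ → ℝ) (a b : ℕ) : sd G F a b (pt G a) = 0 := by
  simp only [sd, pt_fst, pt_snd]; ring

theorem sd_lower (G F : ℕ → ℝ) (a b : ℕ) : sd G F a b (pt F b) = 0 := by
  simp only [sd, pt_fst, pt_snd]; ring

theorem sd_lin (G F s : ℕ → ℝ) (a b j : ℕ) (x : ℝ) :
    sd G F a b (x, (j + 1 - x) * s j + (x - j) * s (j + 1)) =
      (j + 1 - x) * sd G F a b (pt s j) + (x - j) * sd G F a b (pt s (j + 1)) := by
  simp only [sd, pt_fst, pt_snd]; push_cast; ring

theorem lin_pos {G F s : ℕ → ℝ} {J a b d e : ℕ} {x : ℝ} (hd : d ≤ J)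
    (h0 : 0 ≤ sd G F a b (pt s e)) (h : ∀ j, e < j → j ≤ d → 0 < sd G F a b (pt s j))
    (hx1 : (e : ℝ) < x) (hx2 : x ≤ d) : 0 < sd G F a b (x, pl s J x) := by
  have hed : e < d := by
    have : (e : ℝ) < d := lt_of_lt_of_le hx1 hx2
    exact_mod_cast this
  obtain ⟨j, hj1, hj2, hj3, hj4⟩ := exists_slab hed hx1.le hx2
  rw [pl_eq (by omega) hj3 hj4, sd_lin]
  have h1 := h (j + 1) (by omega) (by omega)
  have h2 : 0 ≤ sd G F a b (pt s j) := by
    rcases eq_or_lt_of_le hj1 with h' | h'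
    · rw [← h']; exact h0
    · exact (h j h' (by omega)).le
  rcases eq_or_lt_of_le hj3 with h' | h'
  · have h3 : e < j := by
      have : (e : ℝ) < j := by rw [h']; exact hx1
      exact_mod_cast this
    have h4 := h j h3 (by omega)
    rw [← h']; ring_nf; exact h4
  · have := mul_pos (sub_pos.2 h') h1
    have := mul_nonneg (sub_nonneg.2 hj4) h2
    linarith

theorem lin_neg {G F s : ℕ → ℝ} {J a b c e : ℕ} {x : ℝ} (he : e ≤ J)
    (h0 : sd G F a b (pt s e) ≤ 0) (h : ∀ j, c ≤ j → j < e → sd G F a b (pt s j) < 0)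
    (hx1 : x < e) (hx2 : (c : ℝ) ≤ x) : sd G F a b (x, pl s J x) < 0 := by
  have hed : c < e := by
    have : (c : ℝ) < e := lt_of_le_of_lt hx2 hx1
    exact_mod_cast this
  obtain ⟨j, hj1, hj2, hj3, hj4⟩ := exists_slab hed hx2 hx1.le
  rw [pl_eq (by omega) hj3 hj4, sd_lin]
  have h1 := h j hj1 hj2
  have h2 : sd G F a b (pt s (j + 1)) ≤ 0 := by
    rcases eq_or_lt_of_le (Nat.succ_le_of_lt hj2) with h' | h'
    · rw [← Nat.succ_eq_add_one, h']; exact h0
    · exact (h (j + 1) (by omega) h').le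
  rcases eq_or_lt_of_le hj4 with h' | h'
  · have h3 : j + 1 < e := by
      have : ((j + 1 : ℕ) : ℝ) < e := by push_cast; rw [← h']; exact hx1
      exact_mod_cast this
    have h4 := h (j + 1) (by omega) h3
    rw [h']; ring_nf; rw [add_comm 1 j]; exact h4
  · have := mul_neg_of_pos_of_neg (sub_pos.2 h') h1
    have := mul_nonpos_of_nonneg_of_nonpos (sub_nonneg.2 hj3) h2
    linarith

/-- between two heights where it is positive, `sd` is positive -/
theorem sd_between_pos {G F : ℕ → ℝ} {a b : ℕ} {x y1 y2 y : ℝ} (h1 : 0 < sd G F a b (x, y1))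
    (h2 : 0 < sd G F a b (x, y2)) (hy : y1 ≤ y ∧ y ≤ y2 ∨ y2 ≤ y ∧ y ≤ y1) : 0 < sd G F a b (x, y) := by
  simp only [sd] at *
  rcases le_total (a : ℝ) b with hab | hab
  · have : 0 ≤ (b : ℝ) - a := by linarith
    rcases hy with hy | hy
    · nlinarith [mul_nonneg this (sub_nonneg.2 hy.1)]
    · nlinarith [mul_nonneg this (sub_nonneg.2 hy.1)]
  · have : 0 ≤ (a : ℝ) - b := by linarith
    rcases hy with hy | hy
    · nlinarith [mul_nonneg this (sub_nonneg.2 hy.2)]
    · nlinarith [mul_nonneg this (sub_nonneg.2 hy.2)]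

theorem sd_between_neg {G F : ℕ → ℝ} {a b : ℕ} {x y1 y2 y : ℝ} (h1 : sd G F a b (x, y1) < 0)
    (h2 : sd G F a b (x, y2) < 0) (hy : y1 ≤ y ∧ y ≤ y2 ∨ y2 ≤ y ∧ y ≤ y1) : sd G F a b (x, y) < 0 := by
  simp only [sd] at *
  rcases le_total (a : ℝ) b with hab | hab
  · have : 0 ≤ (b : ℝ) - a := by linarith
    rcases hy with hy | hy
    · nlinarith [mul_nonneg this (sub_nonneg.2 hy.2)]
    · nlinarith [mul_nonneg this (sub_nonneg.2 hy.2)]
  · have : 0 ≤ (a : ℝ) - b := by linarith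
    rcases hy with hy | hy
    · nlinarith [mul_nonneg this (sub_nonneg.2 hy.1)]
    · nlinarith [mul_nonneg this (sub_nonneg.2 hy.1)]

/-- A block of columns `c, …, c + w` with a monotone lattice path of diagonals. -/
structure Block (G F : ℕ → ℝ) (c w : ℕ) (a b : ℕ → ℕ) : Prop where
  a0 : a 0 = c
  b0 : b 0 = c
  a1 : a (2 * w) = c + w
  b1 : b (2 * w) = c + w
  step : ∀ k < 2 * w, (a (k + 1) = a k + 1 ∧ b (k + 1) = b k) ∨
    (a (k + 1) = a k ∧ b (k + 1) = b k + 1)
  ra : ∀ k ≤ 2 * w, c ≤ a k ∧ a k ≤ c + w ∧ c ≤ b k ∧ b k ≤ c + w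
  gap : ∀ k ≤ 2 * w, F (b k) < G (a k)
  Upos : ∀ k ≤ 2 * w, ∀ j, a k < j → j ≤ c + w → 0 < sd G F (a k) (b k) (pt G j)
  Uneg : ∀ k ≤ 2 * w, ∀ j, c ≤ j → j < a k → sd G F (a k) (b k) (pt G j) < 0
  Lpos : ∀ k ≤ 2 * w, ∀ j, b k < j → j ≤ c + w → 0 < sd G F (a k) (b k) (pt F j)
  Lneg : ∀ k ≤ 2 * w, ∀ j, c ≤ j → j < b k → sd G F (a k) (b k) (pt F j) < 0

/-- the triangle between two successive diagonals -/
noncomputable def tri (G F : ℕ → ℝ) (a b : ℕ → ℕ) (k : ℕ) : Finset Pt :=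
  {pt G (a k), pt F (b k), pt G (a (k + 1)), pt F (b (k + 1))}

section
variable {G F : ℕ → ℝ} {c w : ℕ} {a b : ℕ → ℕ}

theorem Block.sd_zero_U (k : ℕ) : sd G F (a k) (b k) (pt G (a k)) = 0 := sd_upper _ _ _ _
theorem Block.sd_zero_L (k : ℕ) : sd G F (a k) (b k) (pt F (b k)) = 0 := sd_lower _ _ _ _

theorem Block.U_nonneg (B : Block G F c w a b) {k j : ℕ} (hk : k ≤ 2 * w) (h1 : a k ≤ j)
    (h2 : j ≤ c + w) : 0 ≤ sd G F (a k) (b k) (pt G j) := by
  rcases eq_or_lt_of_le h1 with h | h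
  · rw [← h, sd_upper]
  · exact (B.Upos k hk j h h2).le

theorem Block.U_nonpos (B : Block G F c w a b) {k j : ℕ} (hk : k ≤ 2 * w) (h1 : c ≤ j)
    (h2 : j ≤ a k) : sd G F (a k) (b k) (pt G j) ≤ 0 := by
  rcases eq_or_lt_of_le h2 with h | h
  · rw [h, sd_upper]
  · exact (B.Uneg k hk j h1 h).le

theorem Block.L_nonneg (B : Block G F c w a b) {k j : ℕ} (hk : k ≤ 2 * w) (h1 : b k ≤ j)
    (h2 : j ≤ c + w) : 0 ≤ sd G F (a k) (b k) (pt F j) := by
  rcases eq_or_lt_of_le h1 with h | h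
  · rw [← h, sd_lower]
  · exact (B.Lpos k hk j h h2).le

theorem Block.L_nonpos (B : Block G F c w a b) {k j : ℕ} (hk : k ≤ 2 * w) (h1 : c ≤ j)
    (h2 : j ≤ b k) : sd G F (a k) (b k) (pt F j) ≤ 0 := by
  rcases eq_or_lt_of_le h2 with h | h
  · rw [h, sd_lower]
  · exact (B.Lneg k hk j h1 h).le

theorem Block.mono (B : Block G F c w a b) {k l : ℕ} (h : k ≤ l) (hl : l ≤ 2 * w) :
    a k ≤ a l ∧ b k ≤ b l := by
  induction l with
  | zero => obtain rfl : k = 0 := by omega
            exact ⟨le_rfl, le_rfl⟩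
  | succ l ih =>
    rcases Nat.lt_or_ge l k with h' | h'
    · obtain rfl : k = l + 1 := by omega
      exact ⟨le_rfl, le_rfl⟩
    · have := ih h' (by omega)
      rcases B.step l (by omega) with h'' | h''
      · omega
      · omega

/-- the two sides of a triangle of the block -/
theorem sd_le_of_mem {G F : ℕ → ℝ} {a b : ℕ} {x y z p : Pt} (hx : sd G F a b x ≤ 0)
    (hy : sd G F a b y ≤ 0) (hz : sd G F a b z ≤ 0)
    (hp : p ∈ convexHull ℝ ({x, y, z} : Set Pt)) : sd G F a b p ≤ 0 := by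
  have := hull3_le (u := G a - F b) (w := -((a : ℝ) - b)) (d := (G a - F b) * b - ((a : ℝ) - b) * F b)
    (a := x) (b := y) (c := z) (p := p)
    (by simp only [sd] at hx; linarith) (by simp only [sd] at hy; linarith)
    (by simp only [sd] at hz; linarith) hp
  simp only [sd]; linarith

theorem sd_ge_of_mem {G F : ℕ → ℝ} {a b : ℕ} {x y z p : Pt} (hx : 0 ≤ sd G F a b x)
    (hy : 0 ≤ sd G F a b y) (hz : 0 ≤ sd G F a b z)
    (hp : p ∈ convexHull ℝ ({x, y, z} : Set Pt)) : 0 ≤ sd G F a b p := by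
  have := hull3_le (u := -(G a - F b)) (w := ((a : ℝ) - b)) (d := -((G a - F b) * b - ((a : ℝ) - b) * F b))
    (a := x) (b := y) (c := z) (p := p)
    (by simp only [sd] at hx; linarith) (by simp only [sd] at hy; linarith)
    (by simp only [sd] at hz; linarith) hp
  simp only [sd]; linarith

/-- the shape of the triangles -/
theorem Block.tri_cases (B : Block G F c w a b) {k : ℕ} (hk : k < 2 * w) :
    (a (k + 1) = a k + 1 ∧ b (k + 1) = b k ∧
      tri G F a b k = {pt F (b k), pt G (a k + 1), pt G (a k)}) ∨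
    (a (k + 1) = a k ∧ b (k + 1) = b k + 1 ∧
      tri G F a b k = {pt G (a k), pt F (b k), pt F (b k + 1)}) := by
  rcases B.step k hk with ⟨h1, h2⟩ | ⟨h1, h2⟩
  · refine Or.inl ⟨h1, h2, ?_⟩
    unfold tri
    rw [h1, h2]
    ext x
    simp only [Finset.mem_insert, Finset.mem_singleton]
    tauto
  · refine Or.inr ⟨h1, h2, ?_⟩
    unfold tri
    rw [h1, h2]
    ext x
    simp only [Finset.mem_insert, Finset.mem_singleton]
    tauto

/-- the upper side: for a point between the two diagonals of a `U`-step -/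
theorem Block.upper_iff (B : Block G F c w a b) {J k : ℕ} (hJ : c + w ≤ J) (hk : k < 2 * w)
    (h1 : a (k + 1) = a k + 1) {p : Pt} (hp1 : (c : ℝ) ≤ p.1) (hp2 : p.1 ≤ c + w)
    (hs0 : 0 ≤ sd G F (a k) (b k) p) (hs1 : sd G F (a (k + 1)) (b (k + 1)) p ≤ 0) :
    p.2 ≤ pl G J p.1 ↔ p.2 ≤ (a k + 1 - p.1) * G (a k) + (p.1 - a k) * G (a k + 1) := by
  have hr := B.ra k hk.le
  have hr' := B.ra (k + 1) hk
  have e0 := sd_lin G F G (a k) (b k) (a k) p.1
  have e1 := sd_lin G F G (a (k + 1)) (b (k + 1)) (a k) p.1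
  rw [sd_upper, mul_zero, zero_add] at e0
  rw [← h1, sd_upper, mul_zero, add_zero] at e1
  rw [h1] at e1
  rcases lt_trichotomy p.1 (a k) with hlt | heq | hgt
  · -- left of the edge
    have g1 : sd G F (a k) (b k) (p.1, pl G J p.1) < 0 :=
      lin_neg (by omega) (sd_upper _ _ _ _).le (B.Uneg k hk.le) hlt hp1
    have g2 : sd G F (a k) (b k) (p.1, (a k + 1 - p.1) * G (a k) + (p.1 - a k) * G (a k + 1)) < 0 := by
      rw [e0]
      exact mul_neg_of_neg_of_pos (by linarith) (B.Upos k hk.le _ (by omega) (by omega))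
    constructor
    · intro hy
      by_contra hcon
      have := sd_between_neg g2 g1 (y := p.2) (Or.inl ⟨(not_le.1 hcon).le, hy⟩)
      exact absurd hs0 (not_le.2 this)
    · intro hy
      by_contra hcon
      have := sd_between_neg g1 g2 (y := p.2) (Or.inl ⟨(not_le.1 hcon).le, hy⟩)
      exact absurd hs0 (not_le.2 this)
  · rw [pl_eq (j := a k) (by omega) heq.ge (by linarith)]
  · rcases le_or_gt p.1 (a k + 1) with h | h
    · rw [pl_eq (j := a k) (by omega) hgt.le h]
    · have g1 : 0 < sd G F (a (k + 1)) (b (k + 1)) (p.1, pl G J p.1) :=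
        lin_pos (d := c + w) hJ (sd_upper _ _ _ _).ge (B.Upos (k + 1) hk)
          (by rw [h1]; push_cast; exact h) (by push_cast; exact hp2)
      have g2 : 0 < sd G F (a (k + 1)) (b (k + 1))
          (p.1, (a k + 1 - p.1) * G (a k) + (p.1 - a k) * G (a k + 1)) := by
        rw [h1, e1]
        refine mul_pos_of_neg_of_neg (by linarith) ?_
        have := B.Uneg (k + 1) hk (a k) (by omega) (by omega)
        rwa [h1] at this
      constructor
      · intro hy
        by_contra hcon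
        have := sd_between_pos g2 g1 (y := p.2) (Or.inl ⟨(not_le.1 hcon).le, hy⟩)
        exact absurd hs1 (not_le.2 this)
      · intro hy
        by_contra hcon
        have := sd_between_pos g1 g2 (y := p.2) (Or.inl ⟨(not_le.1 hcon).le, hy⟩)
        exact absurd hs1 (not_le.2 this)

/-- the lower side: for a point between the two diagonals of an `L`-step -/
theorem Block.lower_iff (B : Block G F c w a b) {J k : ℕ} (hJ : c + w ≤ J) (hk : k < 2 * w)
    (h1 : b (k + 1) = b k + 1) {p : Pt} (hp1 : (c : ℝ) ≤ p.1) (hp2 : p.1 ≤ c + w)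
    (hs0 : 0 ≤ sd G F (a k) (b k) p) (hs1 : sd G F (a (k + 1)) (b (k + 1)) p ≤ 0) :
    pl F J p.1 ≤ p.2 ↔ (b k + 1 - p.1) * F (b k) + (p.1 - b k) * F (b k + 1) ≤ p.2 := by
  have hr := B.ra k hk.le
  have hr' := B.ra (k + 1) hk
  have e0 := sd_lin G F F (a k) (b k) (b k) p.1
  have e1 := sd_lin G F F (a (k + 1)) (b (k + 1)) (b k) p.1
  rw [sd_lower, mul_zero, zero_add] at e0
  rw [← h1, sd_lower, mul_zero, add_zero] at e1
  rw [h1] at e1
  rcases lt_trichotomy p.1 (b k) with hlt | heq | hgt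
  · have g1 : sd G F (a k) (b k) (p.1, pl F J p.1) < 0 :=
      lin_neg (by omega) (sd_lower _ _ _ _).le (B.Lneg k hk.le) hlt hp1
    have g2 : sd G F (a k) (b k) (p.1, (b k + 1 - p.1) * F (b k) + (p.1 - b k) * F (b k + 1)) < 0 := by
      rw [e0]
      exact mul_neg_of_neg_of_pos (by linarith) (B.Lpos k hk.le _ (by omega) (by omega))
    constructor
    · intro hy
      by_contra hcon
      have := sd_between_neg g1 g2 (y := p.2) (Or.inl ⟨hy, (not_le.1 hcon).le⟩)
      exact absurd hs0 (not_le.2 this)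
    · intro hy
      by_contra hcon
      have := sd_between_neg g2 g1 (y := p.2) (Or.inl ⟨hy, (not_le.1 hcon).le⟩)
      exact absurd hs0 (not_le.2 this)
  · rw [pl_eq (j := b k) (by omega) heq.ge (by linarith)]
  · rcases le_or_gt p.1 (b k + 1) with h | h
    · rw [pl_eq (j := b k) (by omega) hgt.le h]
    · have g1 : 0 < sd G F (a (k + 1)) (b (k + 1)) (p.1, pl F J p.1) :=
        lin_pos (d := c + w) hJ (sd_lower _ _ _ _).ge (B.Lpos (k + 1) hk)
          (by rw [h1]; push_cast; exact h) (by push_cast; exact hp2)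
      have g2 : 0 < sd G F (a (k + 1)) (b (k + 1))
          (p.1, (b k + 1 - p.1) * F (b k) + (p.1 - b k) * F (b k + 1)) := by
        rw [h1, e1]
        refine mul_pos_of_neg_of_neg (by linarith) ?_
        have := B.Lneg (k + 1) hk (b k) (by omega) (by omega)
        rwa [h1] at this
      constructor
      · intro hy
        by_contra hcon
        have := sd_between_pos g1 g2 (y := p.2) (Or.inl ⟨hy, (not_le.1 hcon).le⟩)
        exact absurd hs1 (not_le.2 this)
      · intro hy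
        by_contra hcon
        have := sd_between_pos g2 g1 (y := p.2) (Or.inl ⟨hy, (not_le.1 hcon).le⟩)
        exact absurd hs1 (not_le.2 this)

/-- the cross product of a `U`-triangle -/
theorem Block.cr_U (B : Block G F c w a b) {k : ℕ} (hk : k < 2 * w) (h1 : a (k + 1) = a k + 1) :
    0 < cr (pt F (b k)) (pt G (a k + 1)) (pt G (a k)) := by
  have hr' := B.ra (k + 1) hk
  have := B.Upos k hk.le (a k + 1) (by omega) (by omega)
  simp only [sd, cr, pt_fst, pt_snd] at this ⊢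
  linarith

theorem Block.cr_L (B : Block G F c w a b) {k : ℕ} (hk : k < 2 * w) (h1 : b (k + 1) = b k + 1) :
    0 < cr (pt G (a k)) (pt F (b k)) (pt F (b k + 1)) := by
  have hr' := B.ra (k + 1) hk
  have := B.Lpos k hk.le (b k + 1) (by omega) (by omega)
  simp only [sd, cr, pt_fst, pt_snd] at this ⊢
  linarith

theorem coe3 (x y z : Pt) : ((({x, y, z} : Finset Pt)) : Set Pt) = {x, y, z} := by
  simp

theorem Block.side (B : Block G F c w a b) {k : ℕ} (hk : k < 2 * w) {p : Pt}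
    (hp : p ∈ hull (tri G F a b k)) {l : ℕ} (hl : l ≤ 2 * w) :
    (l ≤ k → 0 ≤ sd G F (a l) (b l) p) ∧ (k < l → sd G F (a l) (b l) p ≤ 0) := by
  have hr := B.ra k hk.le
  have hr' := B.ra (k + 1) hk
  rcases B.tri_cases hk with ⟨h1, h2, h3⟩ | ⟨h1, h2, h3⟩
  · rw [hull, h3, coe3] at hp
    constructor
    · intro hlk
      have hm := B.mono hlk hk.le
      exact sd_ge_of_mem (B.L_nonneg hl hm.2 (by omega)) (B.U_nonneg hl (by omega) (by omega))
        (B.U_nonneg hl (by omega) (by omega)) hp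
    · intro hlk
      have hm := B.mono (Nat.succ_le_of_lt hlk) hl
      simp only [Nat.succ_eq_add_one] at hm
      exact sd_le_of_mem (B.L_nonpos hl (by omega) (by omega)) (B.U_nonpos hl (by omega) (by omega))
        (B.U_nonpos hl (by omega) (by omega)) hp
  · rw [hull, h3, coe3] at hp
    constructor
    · intro hlk
      have hm := B.mono hlk hk.le
      exact sd_ge_of_mem (B.U_nonneg hl (by omega) (by omega)) (B.L_nonneg hl (by omega) (by omega))
        (B.L_nonneg hl (by omega) (by omega)) hp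
    · intro hlk
      have hm := B.mono (Nat.succ_le_of_lt hlk) hl
      simp only [Nat.succ_eq_add_one] at hm
      exact sd_le_of_mem (B.U_nonpos hl (by omega) (by omega)) (B.L_nonpos hl (by omega) (by omega))
        (B.L_nonpos hl (by omega) (by omega)) hp

/-- the part of the region in the block -/
def slabRegion (G F : ℕ → ℝ) (J c w : ℕ) : Set Pt :=
  {p | (c : ℝ) ≤ p.1 ∧ p.1 ≤ c + w ∧ pl F J p.1 ≤ p.2 ∧ p.2 ≤ pl G J p.1}

theorem Block.cover (B : Block G F c w a b) {J : ℕ} (hJ : c + w ≤ J) (hw : 0 < w) {p : Pt}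
    (hp : p ∈ slabRegion G F J c w) : ∃ k < 2 * w, p ∈ hull (tri G F a b k) := by
  obtain ⟨hp1, hp2, hp3, hp4⟩ := hp
  have hS0 : 0 ≤ sd G F (a 0) (b 0) p := by
    have := B.gap 0 (by omega)
    rw [B.a0, B.b0] at *
    simp only [sd]
    have := mul_nonneg (sub_pos.2 this).le (sub_nonneg.2 hp1)
    linarith
  have hS1 : sd G F (a (2 * w)) (b (2 * w)) p ≤ 0 := by
    have := B.gap (2 * w) le_rfl
    rw [B.a1, B.b1] at *
    simp only [sd]
    have := mul_nonneg (sub_pos.2 this).le (sub_nonneg.2 hp2)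
    push_cast
    linarith
  -- sign change
  obtain ⟨k, hk, hk0, hk1⟩ : ∃ k < 2 * w, 0 ≤ sd G F (a k) (b k) p ∧
      sd G F (a (k + 1)) (b (k + 1)) p ≤ 0 := by
    by_contra hcon
    push Not at hcon
    have : ∀ l ≤ 2 * w, 0 ≤ sd G F (a l) (b l) p := by
      intro l
      induction l with
      | zero => intro _; exact hS0
      | succ l ih => intro hl; exact (hcon l (by omega) (ih (by omega))).le
    have h1 := hcon (2 * w - 1) (by omega) (this _ (by omega))
    rw [show 2 * w - 1 + 1 = 2 * w by omega] at h1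
    exact absurd hS1 (not_le.2 h1)
  refine ⟨k, hk, ?_⟩
  rcases B.tri_cases hk with ⟨h1, h2, h3⟩ | ⟨h1, h2, h3⟩
  · have hy := (B.upper_iff hJ hk h1 hp1 hp2 hk0 hk1).1 hp4
    rw [hull, h3, coe3]
    rw [h1, h2] at hk1
    refine mem_hull3_of_cr (B.cr_U hk h1) ?_ ?_ ?_
    · simp only [cr, pt_fst, pt_snd]; push_cast; linarith
    · simp only [sd, cr, pt_fst, pt_snd] at *; linarith
    · simp only [sd, cr, pt_fst, pt_snd] at *; linarith
  · have hy := (B.lower_iff hJ hk h2 hp1 hp2 hk0 hk1).1 hp3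
    rw [hull, h3, coe3]
    rw [h1, h2] at hk1
    refine mem_hull3_of_cr (B.cr_L hk h2) ?_ ?_ ?_
    · simp only [cr, pt_fst, pt_snd]; push_cast; linarith
    · simp only [sd, cr, pt_fst, pt_snd] at *; push_cast at *; linarith
    · simp only [sd, cr, pt_fst, pt_snd] at *; linarith

end

end Pool.Agent.K3h35.Flip
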