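import Pool.Agent.K3h35.FlipBlock

set_option autoImplicit false

namespace Pool.Agent.K3h35.Flip

open Set

section
variable {G F : ℕ → ℝ} {c w : ℕ} {a b : ℕ → ℕ}

theorem hull3_fst_le {x y z p : Pt} {d : ℝ} (hx : x.1 ≤ d) (hy : y.1 ≤ d) (hz : z.1 ≤ d)
    (hp : p ∈ convexHull ℝ ({x, y, z} : Set Pt)) : p.1 ≤ d := by
  have := hull3_le (u := 1) (w := 0) (d := d) (by linarith) (by linarith) (by linarith) hp
  linarith

theorem hull3_le_fst {x y z p : Pt} {d : ℝ} (hx : d ≤ x.1) (hy : d ≤ y.1) (hz : d ≤ z.1)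
    (hp : p ∈ convexHull ℝ ({x, y, z} : Set Pt)) : d ≤ p.1 := by
  have := hull3_le (u := -1) (w := 0) (d := -d) (by linarith) (by linarith) (by linarith) hp
  linarith

theorem Block.sub (B : Block G F c w a b) {J k : ℕ} (hJ : c + w ≤ J) (hw : 0 < w) (hk : k < 2 * w) :
    hull (tri G F a b k) ⊆ slabRegion G F J c w := by
  intro p hp
  have hr := B.ra k hk.le
  have hr' := B.ra (k + 1) hk
  have hs0 := (B.side hk hp hk.le).1 le_rfl
  have hs1 := (B.side hk hp (l := k + 1) hk).2 (Nat.lt_succ_self k)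
  have c1 : (c : ℝ) ≤ a k := by exact_mod_cast hr.1
  have c2 : (c : ℝ) ≤ b k := by exact_mod_cast hr.2.2.1
  have c3 : (a (k + 1) : ℝ) ≤ c + w := by exact_mod_cast hr'.2.1
  have c4 : (b (k + 1) : ℝ) ≤ c + w := by exact_mod_cast hr'.2.2.2
  rcases B.tri_cases hk with ⟨h1, h2, h3⟩ | ⟨h1, h2, h3⟩
  · rw [hull, h3, coe3] at hp
    have r1 : (a (k + 1) : ℝ) = a k + 1 := by rw [h1]; push_cast; ring
    have r2 : (b (k + 1) : ℝ) = b k := by rw [h2]
    have hx1 : (c : ℝ) ≤ p.1 := hull3_le_fst (by simpa using c2)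
      (by simp only [pt_fst]; push_cast; linarith) (by simpa using c1) hp
    have hx2 : p.1 ≤ c + w := hull3_fst_le (by simp only [pt_fst]; linarith)
      (by simp only [pt_fst]; push_cast; linarith) (by simp only [pt_fst]; linarith) hp
    have hcr := B.cr_U hk h1
    have hy : p.2 ≤ (a k + 1 - p.1) * G (a k) + (p.1 - a k) * G (a k + 1) := by
      have := hull3_le (u := G (a k) - G (a k + 1)) (w := 1)
        (d := (a k + 1) * G (a k) - a k * G (a k + 1)) ?_ ?_ ?_ hp
      · linarith
      · simp only [cr, pt_fst, pt_snd] at hcr ⊢; push_cast at hcr; linarith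
      · simp only [pt_fst, pt_snd]; push_cast; linarith
      · simp only [pt_fst, pt_snd]; linarith
    refine ⟨hx1, hx2, ?_, (B.upper_iff hJ hk h1 hx1 hx2 hs0 hs1).2 hy⟩
    by_contra hcon
    rw [not_le] at hcon
    rcases lt_trichotomy p.1 (b k) with hlt | heq | hgt
    · have hab : (a k : ℝ) < b k := by
        by_contra h
        rw [not_lt] at h
        have := hull3_le_fst (d := b k) (by simp only [pt_fst]; linarith)
          (by simp only [pt_fst]; push_cast; linarith) (by simp only [pt_fst]; linarith) hp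
        linarith
      have g := lin_neg (J := J) (by omega) (sd_lower G F (a k) (b k)).le (B.Lneg k hk.le) hlt hx1
      simp only [sd] at g hs0
      have := mul_pos (sub_pos.2 hab) (sub_pos.2 hcon)
      linarith
    · rw [heq, pl_nat (by omega) (by omega)] at hcon
      simp only [sd, r1, r2, heq, sub_self, mul_zero, zero_sub] at hs0 hs1
      rcases Nat.lt_or_ge (a k) (b k) with h | h
      · have h' : (a k : ℝ) < b k := by exact_mod_cast h
        have := mul_pos (sub_pos.2 h') (sub_pos.2 hcon)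
        linarith
      · have h' : (b k : ℝ) ≤ a k := by exact_mod_cast h
        have : 0 < ((a k : ℝ) + 1 - b k) := by linarith
        rw [h2] at hs1
        have := mul_pos this (sub_pos.2 hcon)
        linarith
    · have hab : (b k : ℝ) < a k + 1 := by
        by_contra h
        rw [not_lt] at h
        have := hull3_fst_le (d := b k) (by simp only [pt_fst]; linarith)
          (by simp only [pt_fst]; push_cast; linarith) (by simp only [pt_fst]; linarith) hp
        linarith
      have g := lin_pos (J := J) (d := c + w) (by omega)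
        (sd_lower G F (a (k + 1)) (b (k + 1))).ge (B.Lpos (k + 1) hk) (by rw [r2]; exact hgt)
        (by push_cast; exact hx2)
      simp only [sd] at g hs1
      have := mul_pos (sub_pos.2 hab) (sub_pos.2 hcon)
      rw [r1, r2, h2] at g hs1
      linarith
  · rw [hull, h3, coe3] at hp
    have r1 : (a (k + 1) : ℝ) = a k := by rw [h1]
    have r2 : (b (k + 1) : ℝ) = b k + 1 := by rw [h2]; push_cast; ring
    have hx1 : (c : ℝ) ≤ p.1 := hull3_le_fst (by simpa using c1) (by simpa using c2)
      (by simp only [pt_fst]; push_cast; linarith) hp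
    have hx2 : p.1 ≤ c + w := hull3_fst_le (by simp only [pt_fst]; linarith)
      (by simp only [pt_fst]; linarith) (by simp only [pt_fst]; push_cast; linarith) hp
    have hcr := B.cr_L hk h2
    have hy : (b k + 1 - p.1) * F (b k) + (p.1 - b k) * F (b k + 1) ≤ p.2 := by
      have := hull3_le (u := -(F (b k) - F (b k + 1))) (w := -1)
        (d := -((b k + 1) * F (b k) - b k * F (b k + 1))) ?_ ?_ ?_ hp
      · linarith
      · simp only [cr, pt_fst, pt_snd] at hcr ⊢; push_cast at hcr; linarith
      · simp only [pt_fst, pt_snd]; linarith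
      · simp only [pt_fst, pt_snd]; push_cast; linarith
    refine ⟨hx1, hx2, (B.lower_iff hJ hk h2 hx1 hx2 hs0 hs1).2 hy, ?_⟩
    by_contra hcon
    rw [not_le] at hcon
    rcases lt_trichotomy p.1 (a k) with hlt | heq | hgt
    · have hab : (b k : ℝ) < a k := by
        by_contra h
        rw [not_lt] at h
        have := hull3_le_fst (d := a k) (by simp only [pt_fst]; linarith)
          (by simp only [pt_fst]; linarith) (by simp only [pt_fst]; push_cast; linarith) hp
        linarith
      have g := lin_neg (J := J) (by omega) (sd_upper G F (a k) (b k)).le (B.Uneg k hk.le) hlt hx1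
      simp only [sd] at g hs0
      have := mul_pos (sub_pos.2 hab) (sub_pos.2 hcon)
      linarith
    · rw [heq, pl_nat (by omega) (by omega)] at hcon
      simp only [sd, r1, r2, heq] at hs0 hs1
      rw [h1] at hs1
      rw [h2] at hs1
      rcases Nat.lt_or_ge (b k) (a k) with h | h
      · have h' : (b k : ℝ) < a k := by exact_mod_cast h
        have := mul_pos (sub_pos.2 h') (sub_pos.2 hcon)
        linarith
      · have h' : (a k : ℝ) ≤ b k := by exact_mod_cast h
        have : 0 < ((b k : ℝ) + 1 - a k) := by linarith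
        have := mul_pos this (sub_pos.2 hcon)
        linarith
    · have hab : (a k : ℝ) < b k + 1 := by
        by_contra h
        rw [not_lt] at h
        have := hull3_fst_le (d := a k) (by simp only [pt_fst]; linarith)
          (by simp only [pt_fst]; linarith) (by simp only [pt_fst]; push_cast; linarith) hp
        linarith
      have g := lin_pos (J := J) (d := c + w) (by omega)
        (sd_upper G F (a (k + 1)) (b (k + 1))).ge (B.Upos (k + 1) hk) (by rw [r1]; exact hgt)
        (by push_cast; exact hx2)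
      simp only [sd] at g hs1
      have := mul_pos (sub_pos.2 hab) (sub_pos.2 hcon)
      rw [r1, r2, h1] at g hs1
      linarith

theorem Block.disj (B : Block G F c w a b) {k l : ℕ} (hkl : k < l) (hl : l < 2 * w) :
    Disjoint (interior (hull (tri G F a b k))) (interior (hull (tri G F a b l))) := by
  have hg := B.gap (k + 1) (by omega)
  refine sep_disjoint (G (a (k + 1)) - F (b (k + 1))) (-((a (k + 1) : ℝ) - b (k + 1)))
    ((G (a (k + 1)) - F (b (k + 1))) * b (k + 1) - ((a (k + 1) : ℝ) - b (k + 1)) * F (b (k + 1)))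
    (Or.inl (by linarith)) ?_ ?_
  · intro x hx
    have := (B.side (by omega) hx (l := k + 1) (by omega)).2 (Nat.lt_succ_self k)
    simp only [sd] at this
    linarith
  · intro x hx
    have := (B.side hl hx (l := k + 1) (by omega)).1 (by omega)
    simp only [sd] at this
    linarith

theorem Block.e2e_U (B : Block G F c w a b) {k j : ℕ} (hk : k < 2 * w) (h1 : c ≤ j) (h2 : j ≤ c + w)
    (h : pt G j ∈ hull (tri G F a b k)) : pt G j ∈ tri G F a b k := by
  have hs0 := (B.side hk h hk.le).1 le_rfl
  have hs1 := (B.side hk h (l := k + 1) hk).2 (Nat.lt_succ_self k)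
  have e1 : a k ≤ j := by
    by_contra hcon
    have := B.Uneg k hk.le j h1 (by omega)
    linarith
  have e2 : j ≤ a (k + 1) := by
    by_contra hcon
    have := B.Upos (k + 1) hk j (by omega) h2
    linarith
  have e3 : j = a k ∨ j = a (k + 1) := by
    rcases B.step k hk with h' | h' <;> omega
  unfold tri
  rcases e3 with rfl | rfl <;> simp

theorem Block.e2e_L (B : Block G F c w a b) {k j : ℕ} (hk : k < 2 * w) (h1 : c ≤ j) (h2 : j ≤ c + w)
    (h : pt F j ∈ hull (tri G F a b k)) : pt F j ∈ tri G F a b k := by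
  have hs0 := (B.side hk h hk.le).1 le_rfl
  have hs1 := (B.side hk h (l := k + 1) hk).2 (Nat.lt_succ_self k)
  have e1 : b k ≤ j := by
    by_contra hcon
    have := B.Lneg k hk.le j h1 (by omega)
    linarith
  have e2 : j ≤ b (k + 1) := by
    by_contra hcon
    have := B.Lpos (k + 1) hk j (by omega) h2
    linarith
  have e3 : j = b k ∨ j = b (k + 1) := by
    rcases B.step k hk with h' | h' <;> omega
  unfold tri
  rcases e3 with rfl | rfl <;> simp

/-- the vertices in columns `c, …, d` -/
def cols (G F : ℕ → ℝ) (c d : ℕ) : Set Pt := {p | ∃ j, c ≤ j ∧ j ≤ d ∧ (p = pt G j ∨ p = pt F j)}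

/-- the part of the region in columns `c, …, d` -/
def reg (G F : ℕ → ℝ) (J c d : ℕ) : Set Pt :=
  {p | (c : ℝ) ≤ p.1 ∧ p.1 ≤ d ∧ pl F J p.1 ≤ p.2 ∧ p.2 ≤ pl G J p.1}

/-- `T` triangulates the part of the region in the columns `c, …, d` -/
structure Tri (G F : ℕ → ℝ) (J c d : ℕ) (T : Finset (Finset Pt)) : Prop where
  nondeg : ∀ t ∈ T, t.card = 3 ∧ ¬ Collinear ℝ (t : Set Pt) ∧ (t : Set Pt) ⊆ cols G F c d
  disj : ∀ t ∈ T, ∀ t' ∈ T, t ≠ t' → Disjoint (interior (hull t)) (interior (hull t'))
  cover : ⋃ t ∈ T, hull t = reg G F J c d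
  e2e : ∀ t ∈ T, ∀ s ∈ cols G F c d, s ∈ hull t → s ∈ t

theorem card3_of_cr {x y z : Pt} (h : cr x y z ≠ 0) : ({x, y, z} : Finset Pt).card = 3 := by
  rw [Finset.card_eq_three]
  refine ⟨x, y, z, ?_, ?_, ?_, rfl⟩
  · rintro rfl; exact h (by simp [cr])
  · rintro rfl; exact h (by simp [cr])
  · rintro rfl; exact h (by unfold cr; ring)

theorem Block.interior_ne (B : Block G F c w a b) {k : ℕ} (hk : k < 2 * w) :
    (interior (hull (tri G F a b k))).Nonempty := by
  rcases B.tri_cases hk with ⟨h1, h2, h3⟩ | ⟨h1, h2, h3⟩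
  · rw [hull, h3, coe3]; exact interior_nonempty (B.cr_U hk h1).ne'
  · rw [hull, h3, coe3]; exact interior_nonempty (B.cr_L hk h2).ne'

theorem Block.injOn (B : Block G F c w a b) :
    Set.InjOn (tri G F a b) (Finset.range (2 * w) : Set ℕ) := by
  intro k hk l hl hkl
  simp only [Finset.coe_range, mem_Iio] at hk hl
  by_contra hne
  rcases lt_or_gt_of_ne hne with h | h
  · have := B.disj h hl
    rw [hkl, disjoint_self, Set.bot_eq_empty] at this
    exact (B.interior_ne hl).ne_empty this
  · have := B.disj h hk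
    rw [hkl, disjoint_self, Set.bot_eq_empty] at this
    exact (B.interior_ne hl).ne_empty this

theorem Block.tri_of (B : Block G F c w a b) {J : ℕ} (hJ : c + w ≤ J) (hw : 0 < w) :
    Tri G F J c (c + w) ((Finset.range (2 * w)).image (tri G F a b)) := by
  refine ⟨?_, ?_, ?_, ?_⟩
  · intro t ht
    rw [Finset.mem_image] at ht
    obtain ⟨k, hk, rfl⟩ := ht
    rw [Finset.mem_range] at hk
    have hr := B.ra k hk.le
    have hr' := B.ra (k + 1) hk
    have hsub : (tri G F a b k : Set Pt) ⊆ cols G F c (c + w) := by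
      intro x hx
      unfold tri at hx
      simp only [Finset.coe_insert, Finset.coe_singleton, mem_insert_iff, mem_singleton_iff] at hx
      rcases hx with rfl | rfl | rfl | rfl
      · exact ⟨a k, hr.1, hr.2.1, Or.inl rfl⟩
      · exact ⟨b k, hr.2.2.1, hr.2.2.2, Or.inr rfl⟩
      · exact ⟨a (k + 1), hr'.1, hr'.2.1, Or.inl rfl⟩
      · exact ⟨b (k + 1), hr'.2.2.1, hr'.2.2.2, Or.inr rfl⟩
    rcases B.tri_cases hk with ⟨h1, h2, h3⟩ | ⟨h1, h2, h3⟩
    · refine ⟨?_, ?_, hsub⟩
      · rw [h3]; exact card3_of_cr (B.cr_U hk h1).ne'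
      · rw [h3, coe3, collinear_iff_cr]; exact (B.cr_U hk h1).ne'
    · refine ⟨?_, ?_, hsub⟩
      · rw [h3]; exact card3_of_cr (B.cr_L hk h2).ne'
      · rw [h3, coe3, collinear_iff_cr]; exact (B.cr_L hk h2).ne'
  · intro t ht t' ht' hne
    rw [Finset.mem_image] at ht ht'
    obtain ⟨k, hk, rfl⟩ := ht
    obtain ⟨l, hl, rfl⟩ := ht'
    rw [Finset.mem_range] at hk hl
    rcases lt_trichotomy k l with h | h | h
    · exact B.disj h hl
    · exact absurd (by rw [h]) hne
    · exact (B.disj h hk).symm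
  · ext p
    simp only [mem_iUnion, exists_prop, Finset.mem_image, Finset.mem_range]
    constructor
    · rintro ⟨t, ⟨k, hk, rfl⟩, hp⟩
      obtain ⟨h1, h2, h3, h4⟩ := B.sub hJ hw hk hp
      exact ⟨h1, by push_cast; exact h2, h3, h4⟩
    · rintro ⟨h1, h2, h3, h4⟩
      obtain ⟨k, hk, hp⟩ := B.cover hJ hw (p := p) ⟨h1, by push_cast at h2; exact h2, h3, h4⟩
      exact ⟨_, ⟨k, hk, rfl⟩, hp⟩
  · intro t ht s hs hst
    rw [Finset.mem_image] at ht
    obtain ⟨k, hk, rfl⟩ := ht
    rw [Finset.mem_range] at hk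
    obtain ⟨j, h1, h2, rfl | rfl⟩ := hs
    · exact B.e2e_U hk h1 h2 hst
    · exact B.e2e_L hk h1 h2 hst

theorem Tri.sub {J d : ℕ} {T : Finset (Finset Pt)} (h : Tri G F J c d T) {t : Finset Pt}
    (ht : t ∈ T) : hull t ⊆ reg G F J c d := by
  rw [← h.cover]
  exact subset_biUnion_of_mem (u := fun t => hull t) ht

theorem Tri.interior_ne {J d : ℕ} {T : Finset (Finset Pt)} (h : Tri G F J c d T) {t : Finset Pt}
    (ht : t ∈ T) : (interior (hull t)).Nonempty := by
  obtain ⟨h1, h2, -⟩ := h.nondeg t ht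
  obtain ⟨x, y, z, -, -, -, rfl⟩ := Finset.card_eq_three.1 h1
  rw [coe3, collinear_iff_cr] at h2
  rw [hull, coe3]
  exact interior_nonempty h2

theorem Tri.sep {J d e : ℕ} {T T' : Finset (Finset Pt)} (h : Tri G F J c d T) (h' : Tri G F J d e T')
    {t t' : Finset Pt} (ht : t ∈ T) (ht' : t' ∈ T') :
    Disjoint (interior (hull t)) (interior (hull t')) := by
  refine sep_disjoint 1 0 d (Or.inl one_ne_zero) ?_ ?_
  · intro x hx
    have := (h.sub ht hx).2.1
    linarith
  · intro x hx
    have := (h'.sub ht' hx).1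
    linarith

theorem Tri.glue {J d e : ℕ} {T T' : Finset (Finset Pt)} (hcd : c ≤ d) (hde : d ≤ e)
    (h : Tri G F J c d T) (h' : Tri G F J d e T') :
    Tri G F J c e (T ∪ T') ∧ Disjoint T T' := by
  constructor
  · refine ⟨?_, ?_, ?_, ?_⟩
    · intro t ht
      rcases Finset.mem_union.1 ht with ht | ht
      · obtain ⟨h1, h2, h3⟩ := h.nondeg t ht
        refine ⟨h1, h2, fun x hx => ?_⟩
        obtain ⟨j, hj1, hj2, hj3⟩ := h3 hx
        exact ⟨j, hj1, by omega, hj3⟩
      · obtain ⟨h1, h2, h3⟩ := h'.nondeg t ht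
        refine ⟨h1, h2, fun x hx => ?_⟩
        obtain ⟨j, hj1, hj2, hj3⟩ := h3 hx
        exact ⟨j, by omega, hj2, hj3⟩
    · intro t ht t' ht' hne
      rcases Finset.mem_union.1 ht with ht | ht <;> rcases Finset.mem_union.1 ht' with ht' | ht'
      · exact h.disj t ht t' ht' hne
      · exact h.sep h' ht ht'
      · exact (h.sep h' ht' ht).symm
      · exact h'.disj t ht t' ht' hne
    · rw [Finset.set_biUnion_union, h.cover, h'.cover]
      have r1 : (c : ℝ) ≤ d := by exact_mod_cast hcd
      have r2 : (d : ℝ) ≤ e := by exact_mod_cast hde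
      ext p
      constructor
      · rintro (⟨p1, p2, p3⟩ | ⟨p1, p2, p3⟩)
        · exact ⟨p1, by linarith, p3⟩
        · exact ⟨by linarith, p2, p3⟩
      · rintro ⟨p1, p2, p3⟩
        rcases le_total p.1 d with hp | hp
        · exact Or.inl ⟨p1, hp, p3⟩
        · exact Or.inr ⟨hp, p2, p3⟩
    · intro t ht s hs hst
      obtain ⟨j, hj1, hj2, hj3⟩ := hs
      have hs1 : s.1 = j := by rcases hj3 with rfl | rfl <;> rfl
      rcases Finset.mem_union.1 ht with ht | ht
      · refine h.e2e t ht s ⟨j, hj1, ?_, hj3⟩ hst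
        have := (h.sub ht hst).2.1
        rw [hs1] at this
        exact_mod_cast this
      · refine h'.e2e t ht s ⟨j, ?_, hj2, hj3⟩ hst
        have := (h'.sub ht hst).1
        rw [hs1] at this
        exact_mod_cast this
  · rw [Finset.disjoint_left]
    intro t ht ht'
    have := h.sep h' ht ht'
    rw [disjoint_self, Set.bot_eq_empty] at this
    exact (h.interior_ne ht).ne_empty this

end

end Pool.Agent.K3h35.Flip
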