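import Mathlib

/-!
# Flips in triangulations of simple polygons: definitions

Points of the plane, simple polygons, the closed region bounded by a simple polygon, triangulations,
insertion of Steiner points and flips.
-/

set_option autoImplicit false

namespace Pool.Agent.K3h35.Flip

/-- the plane -/
abbrev Pt := ℝ × ℝ

/-- the next index in the cyclic order of `Fin n` -/
def nxt {n : ℕ} (i : Fin n) : Fin n := ⟨(i.val + 1) % n, Nat.mod_lt _ i.pos⟩

/-- `v 0, …, v (n-1)` are the successive vertices of a simple polygon: `n ≥ 3`, no straight angle,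
consecutive edges meet only in their common vertex, and other pairs of edges are disjoint -/
structure IsSimplePolygon {n : ℕ} (v : Fin n → Pt) : Prop where
  three_le : 3 ≤ n
  corner : ∀ i, ¬ Collinear ℝ ({v i, v (nxt i), v (nxt (nxt i))} : Set Pt)
  adjacent : ∀ i, segment ℝ (v i) (v (nxt i)) ∩ segment ℝ (v (nxt i)) (v (nxt (nxt i))) =
    {v (nxt i)}
  disjoint : ∀ i j, i ≠ j → j ≠ nxt i → i ≠ nxt j →
    Disjoint (segment ℝ (v i) (v (nxt i))) (segment ℝ (v j) (v (nxt j)))

/-- the closed polygonal curve through the points `v 0, …, v (n-1)` -/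
def boundary {n : ℕ} (v : Fin n → Pt) : Set Pt := ⋃ i, segment ℝ (v i) (v (nxt i))

/-- the closed region bounded by the polygonal curve: the points of the curve and the points
whose connected component in the complement of the curve is bounded -/
def region {n : ℕ} (v : Fin n → Pt) : Set Pt :=
  boundary v ∪
    {x | x ∉ boundary v ∧ Bornology.IsBounded (connectedComponentIn (boundary v)ᶜ x)}

/-- the triangle with vertex set `t` -/
abbrev hull (t : Finset Pt) : Set Pt := convexHull ℝ (t : Set Pt)

/-- `T` is a triangulation of `(R, S)`: a set of nondegenerate triangles (given by their vertex sets)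
with vertices in `S`, with pairwise disjoint interiors, whose union is `R`, and such that no point of
`S` lies in the interior of a triangle -/
structure IsTriangulation (R S : Set Pt) (T : Finset (Finset Pt)) : Prop where
  triangle : ∀ t ∈ T, t.card = 3 ∧ ¬ Collinear ℝ (t : Set Pt) ∧ (t : Set Pt) ⊆ S
  disjoint : ∀ t ∈ T, ∀ t' ∈ T, t ≠ t' → Disjoint (interior (hull t)) (interior (hull t'))
  cover : ⋃ t ∈ T, hull t = R
  empty : ∀ t ∈ T, ∀ s ∈ S, s ∉ interior (hull t)

/-- the triangulation `T` is edge-to-edge: a point of `S` lies in a triangle only if it is one of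
its vertices -/
def EdgeToEdge (S : Set Pt) (T : Finset (Finset Pt)) : Prop :=
  ∀ t ∈ T, ∀ s ∈ S, s ∈ hull t → s ∈ t

/-- `T'` arises from `T` by inserting the point `p`: `p` lies in the interior of a triangle `t` of
`T`, and `t` is replaced by the three triangles spanned by `p` and two vertices of `t` -/
def InsertPoint (T : Finset (Finset Pt)) (p : Pt) (T' : Finset (Finset Pt)) : Prop :=
  ∃ t ∈ T, p ∈ interior (hull t) ∧ T' = T.erase t ∪ t.image fun a => insert p (t.erase a)

/-- `T'` arises from `T` by inserting the points of a list one at a time -/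
inductive InsertPoints : Finset (Finset Pt) → List Pt → Finset (Finset Pt) → Prop
  | nil (T : Finset (Finset Pt)) : InsertPoints T [] T
  | cons {T T' T'' : Finset (Finset Pt)} {p : Pt} {l : List Pt} :
      InsertPoint T p T' → InsertPoints T' l T'' → InsertPoints T (p :: l) T''

/-- The triangulation `T'` of `(R, S)` arises from the triangulation `T` of `(R, S)` by a flip: two
triangles `pqr` and `pqs` of `T` form a convex quadrilateral (its diagonals `pq` and `rs` cross), and
they are replaced by the triangles `prs` and `qrs` -/
def FlipStep (R S : Set Pt) (T T' : Finset (Finset Pt)) : Prop :=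
  IsTriangulation R S T ∧ IsTriangulation R S T' ∧ ∃ p q r s : Pt,
    {p, q, r} ∈ T ∧ {p, q, s} ∈ T ∧ (openSegment ℝ p q ∩ openSegment ℝ r s).Nonempty ∧
    T' = (T \ {{p, q, r}, {p, q, s}}) ∪ {{p, r, s}, {q, r, s}}

/-- `T''` arises from `T` by a sequence of `L` flips between triangulations of `(R, S)` -/
inductive FlipPath (R S : Set Pt) : ℕ → Finset (Finset Pt) → Finset (Finset Pt) → Prop
  | refl (T : Finset (Finset Pt)) : FlipPath R S 0 T T
  | step {L : ℕ} {T T' T'' : Finset (Finset Pt)} :
      FlipStep R S T T' → FlipPath R S L T' T'' → FlipPath R S (L + 1) T T''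

end Pool.Agent.K3h35.Flip
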