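import Pool.Agent.K3h35.FlipDefs

set_option autoImplicit false

namespace Pool.Agent.K3h35.Flip

open Set

theorem mem_hull3 {a b c x : Pt} : x ∈ convexHull ℝ ({a, b, c} : Set Pt) ↔
    ∃ α β γ : ℝ, 0 ≤ α ∧ 0 ≤ β ∧ 0 ≤ γ ∧ α + β + γ = 1 ∧
      x.1 = α * a.1 + β * b.1 + γ * c.1 ∧ x.2 = α * a.2 + β * b.2 + γ * c.2 := by
  constructor
  · intro hx
    have hsub : convexHull ℝ ({a, b, c} : Set Pt) ⊆ {x : Pt | ∃ α β γ : ℝ, 0 ≤ α ∧ 0 ≤ β ∧ 0 ≤ γ ∧
        α + β + γ = 1 ∧ x.1 = α * a.1 + β * b.1 + γ * c.1 ∧ x.2 = α * a.2 + β * b.2 + γ * c.2} := by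
      apply convexHull_min
      · intro y hy
        simp only [mem_insert_iff, mem_singleton_iff] at hy
        rcases hy with rfl | rfl | rfl
        · exact ⟨1, 0, 0, by norm_num, by norm_num, by norm_num, by norm_num, by ring, by ring⟩
        · exact ⟨0, 1, 0, by norm_num, by norm_num, by norm_num, by norm_num, by ring, by ring⟩
        · exact ⟨0, 0, 1, by norm_num, by norm_num, by norm_num, by norm_num, by ring, by ring⟩
      · rintro x ⟨α, β, γ, h1, h2, h3, h4, h5, h6⟩ y ⟨α', β', γ', h1', h2', h3', h4', h5', h6'⟩ s t hs ht hst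
        refine ⟨s * α + t * α', s * β + t * β', s * γ + t * γ', by positivity, by positivity,
          by positivity, ?_, ?_, ?_⟩
        · linear_combination s * h4 + t * h4' + hst
        · simp only [Prod.fst_add, Prod.smul_fst, smul_eq_mul, h5, h5']; ring
        · simp only [Prod.snd_add, Prod.smul_snd, smul_eq_mul, h6, h6']; ring
    exact hsub hx
  · rintro ⟨α, β, γ, h1, h2, h3, h4, h5, h6⟩
    have hconv := convex_convexHull ℝ ({a, b, c} : Set Pt)
    have ha : a ∈ convexHull ℝ ({a, b, c} : Set Pt) := subset_convexHull ℝ _ (by simp)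
    have hb : b ∈ convexHull ℝ ({a, b, c} : Set Pt) := subset_convexHull ℝ _ (by simp)
    have hc : c ∈ convexHull ℝ ({a, b, c} : Set Pt) := subset_convexHull ℝ _ (by simp)
    have hx : x = α • a + β • b + γ • c := by
      apply Prod.ext
      · simp [h5]
      · simp [h6]
    rcases eq_or_lt_of_le (add_nonneg h1 h2) with h | h
    · have hα : α = 0 := by linarith
      have hβ : β = 0 := by linarith
      have hγ : γ = 1 := by linarith
      rw [hx, hα, hβ, hγ]
      simpa using hc
    · have hd : (α / (α + β)) • a + (β / (α + β)) • b ∈ convexHull ℝ ({a, b, c} : Set Pt) :=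
        hconv ha hb (by positivity) (by positivity) (by field_simp)
      have hx' : x = (α + β) • ((α / (α + β)) • a + (β / (α + β)) • b) + γ • c := by
        rw [hx, smul_add, smul_smul, smul_smul, mul_div_cancel₀ _ h.ne', mul_div_cancel₀ _ h.ne']
      rw [hx']
      exact hconv hd hc h.le h3 h4

theorem mem_seg {a b x : Pt} : x ∈ segment ℝ a b ↔ ∃ t : ℝ, 0 ≤ t ∧ t ≤ 1 ∧
    x.1 = (1 - t) * a.1 + t * b.1 ∧ x.2 = (1 - t) * a.2 + t * b.2 := by
  constructor
  · rintro ⟨s, t, hs, ht, hst, rfl⟩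
    refine ⟨t, ht, by linarith, ?_, ?_⟩
    · simp only [Prod.fst_add, Prod.smul_fst, smul_eq_mul]; rw [show s = 1 - t by linarith]
    · simp only [Prod.snd_add, Prod.smul_snd, smul_eq_mul]; rw [show s = 1 - t by linarith]
  · rintro ⟨t, h0, h1, h2, h3⟩
    refine ⟨1 - t, t, by linarith, h0, by ring, ?_⟩
    apply Prod.ext
    · simp [h2]
    · simp [h3]

theorem mem_oseg {a b x : Pt} : x ∈ openSegment ℝ a b ↔ ∃ t : ℝ, 0 < t ∧ t < 1 ∧
    x.1 = (1 - t) * a.1 + t * b.1 ∧ x.2 = (1 - t) * a.2 + t * b.2 := by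
  constructor
  · rintro ⟨s, t, hs, ht, hst, rfl⟩
    refine ⟨t, ht, by linarith, ?_, ?_⟩
    · simp only [Prod.fst_add, Prod.smul_fst, smul_eq_mul]; rw [show s = 1 - t by linarith]
    · simp only [Prod.snd_add, Prod.smul_snd, smul_eq_mul]; rw [show s = 1 - t by linarith]
  · rintro ⟨t, h0, h1, h2, h3⟩
    refine ⟨1 - t, t, by linarith, h0, by ring, ?_⟩
    apply Prod.ext
    · simp [h2]
    · simp [h3]

/-- twice the signed area of the triangle `abc` -/
def cr (a b c : Pt) : ℝ := (b.1 - a.1) * (c.2 - a.2) - (b.2 - a.2) * (c.1 - a.1)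

theorem collinear_iff_cr {a b c : Pt} : Collinear ℝ ({a, b, c} : Set Pt) ↔ cr a b c = 0 := by
  rw [collinear_iff_of_mem (p₀ := a) (by simp)]
  constructor
  · rintro ⟨w, h⟩
    obtain ⟨s, hs⟩ := h b (by simp)
    obtain ⟨t, ht⟩ := h c (by simp)
    have e1 : b.1 = s * w.1 + a.1 := by rw [hs]; simp
    have e2 : b.2 = s * w.2 + a.2 := by rw [hs]; simp
    have e3 : c.1 = t * w.1 + a.1 := by rw [ht]; simp
    have e4 : c.2 = t * w.2 + a.2 := by rw [ht]; simp
    unfold cr
    rw [e1, e2, e3, e4]; ring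
  · intro h
    unfold cr at h
    by_cases hab : b = a
    · refine ⟨c - a, ?_⟩
      intro p hp
      simp only [mem_insert_iff, mem_singleton_iff] at hp
      rcases hp with rfl | rfl | rfl
      · exact ⟨0, by simp⟩
      · exact ⟨0, by simp [hab]⟩
      · exact ⟨1, by simp⟩
    · refine ⟨b - a, ?_⟩
      intro p hp
      simp only [mem_insert_iff, mem_singleton_iff] at hp
      rcases hp with rfl | rfl | rfl
      · exact ⟨0, by simp⟩
      · exact ⟨1, by simp⟩
      · by_cases h1 : b.1 - a.1 = 0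
        · have h2 : b.2 - a.2 ≠ 0 := by
            intro h2
            exact hab (Prod.ext (by linarith) (by linarith))
          refine ⟨(p.2 - a.2) / (b.2 - a.2), ?_⟩
          have h3 : p.1 - a.1 = 0 := by
            rw [h1, zero_mul, zero_sub, neg_eq_zero] at h
            exact (mul_eq_zero.1 h).resolve_left h2
          apply Prod.ext
          · simp only [vadd_eq_add, Prod.fst_add, Prod.smul_fst, Prod.fst_sub, smul_eq_mul, h1]
            linarith
          · simp only [vadd_eq_add, Prod.snd_add, Prod.smul_snd, Prod.snd_sub, smul_eq_mul]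
            field_simp
            ring
        · refine ⟨(p.1 - a.1) / (b.1 - a.1), ?_⟩
          apply Prod.ext
          · simp only [vadd_eq_add, Prod.fst_add, Prod.smul_fst, Prod.fst_sub, smul_eq_mul]
            field_simp
            ring
          · simp only [vadd_eq_add, Prod.snd_add, Prod.smul_snd, Prod.snd_sub, smul_eq_mul]
            field_simp
            linear_combination h

theorem interior_nonempty {a b c : Pt} (h : cr a b c ≠ 0) :
    (interior (convexHull ℝ ({a, b, c} : Set Pt))).Nonempty := by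
  have h1 : ¬ Collinear ℝ ({a, b, c} : Set Pt) := fun h' => h (collinear_iff_cr.1 h')
  rw [interior_convexHull_nonempty_iff_affineSpan_eq_top]
  have h2 := affineIndependent_iff_not_collinear_set.2 h1
  have h3 : affineSpan ℝ (Set.range ![a, b, c]) = ⊤ := by
    rw [h2.affineSpan_eq_top_iff_card_eq_finrank_add_one]
    simp
  have h4 : Set.range ![a, b, c] = ({a, b, c} : Set Pt) := by
    ext x
    simp only [Set.mem_range, Fin.exists_fin_succ, Matrix.cons_val_zero, Matrix.cons_val_succ,
      Set.mem_insert_iff, Set.mem_singleton_iff, or_false, IsEmpty.exists_iff]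
    constructor
    · rintro (h | h | h)
      · exact Or.inl h.symm
      · exact Or.inr (Or.inl h.symm)
      · exact Or.inr (Or.inr h.symm)
    · rintro (h | h | h)
      · exact Or.inl h.symm
      · exact Or.inr (Or.inl h.symm)
      · exact Or.inr (Or.inr h.symm)
  rw [← h4]; exact h3

/-- Two sets on different sides of a line have disjoint interiors. -/
theorem sep_disjoint {A B : Set Pt} (u w c : ℝ) (hne : u ≠ 0 ∨ w ≠ 0)
    (hA : ∀ x ∈ A, u * x.1 + w * x.2 ≤ c) (hB : ∀ x ∈ B, c ≤ u * x.1 + w * x.2) :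
    Disjoint (interior A) (interior B) := by
  rw [Set.disjoint_left]
  intro x hxA hxB
  have hO : IsOpen (interior A ∩ interior B) := isOpen_interior.inter isOpen_interior
  have hcont : Continuous fun t : ℝ => (x.1 + t * u, x.2 + t * w) := by fun_prop
  have h0 : (fun t : ℝ => ((x.1 + t * u, x.2 + t * w) : Pt)) 0 ∈ interior A ∩ interior B := by
    simpa using ⟨hxA, hxB⟩
  have hev := (hO.preimage hcont).mem_nhds h0
  rw [Metric.mem_nhds_iff] at hev
  obtain ⟨ε, hε, hball⟩ := hev
  have h1 : (ε / 2) ∈ Metric.ball (0 : ℝ) ε := by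
    rw [Metric.mem_ball, Real.dist_eq, sub_zero, abs_of_pos (by linarith)]; linarith
  have h2 : -(ε / 2) ∈ Metric.ball (0 : ℝ) ε := by
    rw [Metric.mem_ball, Real.dist_eq, sub_zero, abs_neg, abs_of_pos (by linarith)]; linarith
  have h3 := hA _ (interior_subset (hball h1).1)
  have h4 := hB _ (interior_subset (hball h2).2)
  simp only at h3 h4
  have h5 : 0 < u * u + w * w := by
    rcases hne with h | h
    · have := mul_self_pos.2 h; nlinarith [mul_self_nonneg w]
    · have := mul_self_pos.2 h; nlinarith [mul_self_nonneg u]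
  nlinarith

/-- barycentric coordinates -/
theorem mem_hull3_of_cr {a b c p : Pt} (hD : 0 < cr a b c) (h1 : 0 ≤ cr p b c)
    (h2 : 0 ≤ cr a p c) (h3 : 0 ≤ cr a b p) : p ∈ convexHull ℝ ({a, b, c} : Set Pt) := by
  rw [mem_hull3]
  refine ⟨cr p b c / cr a b c, cr a p c / cr a b c, cr a b p / cr a b c, by positivity,
    by positivity, by positivity, ?_, ?_, ?_⟩
  · rw [← add_div, ← add_div, div_eq_one_iff_eq hD.ne']
    unfold cr; ring
  · have : p.1 * cr a b c = cr p b c * a.1 + cr a p c * b.1 + cr a b p * c.1 := by unfold cr; ring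
    field_simp
    linarith
  · have : p.2 * cr a b c = cr p b c * a.2 + cr a p c * b.2 + cr a b p * c.2 := by unfold cr; ring
    field_simp
    linarith

/-- An affine function that is `≤ c` at the vertices is `≤ c` on the triangle. -/
theorem hull3_le {a b c : Pt} {u w d : ℝ} (ha : u * a.1 + w * a.2 ≤ d) (hb : u * b.1 + w * b.2 ≤ d)
    (hc : u * c.1 + w * c.2 ≤ d) {p : Pt} (hp : p ∈ convexHull ℝ ({a, b, c} : Set Pt)) :
    u * p.1 + w * p.2 ≤ d := by
  obtain ⟨α, β, γ, h1, h2, h3, h4, h5, h6⟩ := mem_hull3.1 hp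
  rw [h5, h6]
  have e : d = α * d + β * d + γ * d := by rw [← add_mul, ← add_mul, h4, one_mul]
  have e1 := mul_le_mul_of_nonneg_left ha h1
  have e2 := mul_le_mul_of_nonneg_left hb h2
  have e3 := mul_le_mul_of_nonneg_left hc h3
  linarith

/-- two sides of a nondegenerate triangle meet only in their common vertex -/
theorem seg_inter_seg {a b c : Pt} (h : cr a b c ≠ 0) :
    segment ℝ a b ∩ segment ℝ b c = {b} := by
  ext x
  constructor
  · rintro ⟨h1, h2⟩
    obtain ⟨s, hs0, hs1, hs2, hs3⟩ := mem_seg.1 h1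
    obtain ⟨t, ht0, ht1, ht2, ht3⟩ := mem_seg.1 h2
    have e1 : (1 - s) * (a.1 - b.1) = t * (c.1 - b.1) := by linarith
    have e2 : (1 - s) * (a.2 - b.2) = t * (c.2 - b.2) := by linarith
    have e3 : t * cr a b c = 0 := by
      unfold cr
      have : t * ((b.1 - a.1) * (c.2 - a.2) - (b.2 - a.2) * (c.1 - a.1)) =
        (b.1 - a.1) * (t * (c.2 - b.2)) - (b.2 - a.2) * (t * (c.1 - b.1)) := by ring
      rw [this, ← e1, ← e2]; ring
    have e4 : t = 0 := (mul_eq_zero.1 e3).resolve_right h
    rw [mem_singleton_iff]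
    apply Prod.ext
    · rw [ht2, e4]; ring
    · rw [ht3, e4]; ring
  · rintro rfl
    exact ⟨right_mem_segment ℝ a x, left_mem_segment ℝ x c⟩

end Pool.Agent.K3h35.Flip
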