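import Pool.Agent.K3h35.FlipStepLem

set_option autoImplicit false

namespace Pool.Agent.K3h35.Flip

open Set

/-- a point of the interior of a set in a half plane is in the open half plane -/
theorem interior_pos {A : Set Pt} {u w c : ℝ} (hne : u ≠ 0 ∨ w ≠ 0)
    (hA : ∀ x ∈ A, c ≤ u * x.1 + w * x.2) {x : Pt} (hx : x ∈ interior A) :
    c < u * x.1 + w * x.2 := by
  have hcont : Continuous fun t : ℝ => (x.1 + t * u, x.2 + t * w) := by fun_prop
  have h0 : (fun t : ℝ => ((x.1 + t * u, x.2 + t * w) : Pt)) 0 ∈ interior A := by simpa using hx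
  have hev := (isOpen_interior.preimage hcont).mem_nhds h0
  rw [Metric.mem_nhds_iff] at hev
  obtain ⟨ε, hε, hball⟩ := hev
  have h2 : -(ε / 2) ∈ Metric.ball (0 : ℝ) ε := by
    rw [Metric.mem_ball, Real.dist_eq, sub_zero, abs_neg, abs_of_pos (by linarith)]; linarith
  have h4 := hA _ (interior_subset (hball h2))
  simp only at h4
  have h5 : 0 < u * u + w * w := by
    rcases hne with h | h
    · have := mul_self_pos.2 h; nlinarith [mul_self_nonneg w]
    · have := mul_self_pos.2 h; nlinarith [mul_self_nonneg u]
  nlinarith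

/-- an interior point has positive barycentric coordinates -/
theorem interior_bary {x y z p : Pt} (hD : cr x y z ≠ 0)
    (hp : p ∈ interior (convexHull ℝ ({x, y, z} : Set Pt))) : 0 < cr x y z * cr p y z := by
  have key : ∀ q ∈ convexHull ℝ ({x, y, z} : Set Pt),
      -(cr x y z * (y.1 * z.2 - y.2 * z.1)) ≤
        (cr x y z * (y.2 - z.2)) * q.1 + (cr x y z * (z.1 - y.1)) * q.2 := by
    intro q hq
    obtain ⟨α, β, γ, h1, h2, h3, h4, h5, h6⟩ := mem_hull3.1 hq
    have e1 : (cr x y z * (y.2 - z.2)) * q.1 + (cr x y z * (z.1 - y.1)) * q.2 +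
        (cr x y z * (y.1 * z.2 - y.2 * z.1)) = α * (cr x y z) ^ 2 := by
      rw [h5, h6]
      have hα : α = 1 - β - γ := by linarith
      rw [hα]; unfold cr; ring
    have : 0 ≤ α * (cr x y z) ^ 2 := by positivity
    linarith
  have hne : cr x y z * (y.2 - z.2) ≠ 0 ∨ cr x y z * (z.1 - y.1) ≠ 0 := by
    by_contra hcon
    push Not at hcon
    obtain ⟨h1, h2⟩ := hcon
    have h1' := (mul_eq_zero.1 h1).resolve_left hD
    have h2' := (mul_eq_zero.1 h2).resolve_left hD
    apply hD
    have e1 : z.2 = y.2 := by linarith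
    have e2 : z.1 = y.1 := by linarith
    unfold cr
    rw [e1, e2]; ring
  have := interior_pos hne key hp
  have e : cr x y z * cr p y z = (cr x y z * (y.2 - z.2)) * p.1 + (cr x y z * (z.1 - y.1)) * p.2 +
      (cr x y z * (y.1 * z.2 - y.2 * z.1)) := by unfold cr; ring
  linarith

theorem cr_rot (x y z : Pt) : cr y z x = cr x y z := by unfold cr; ring
theorem cr_swap (x y z : Pt) : cr x z y = -cr x y z := by unfold cr; ring

theorem interior_bary3 {x y z p : Pt} (hD : cr x y z ≠ 0)
    (hp : p ∈ interior (convexHull ℝ ({x, y, z} : Set Pt))) :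
    0 < cr x y z * cr p y z ∧ 0 < cr x y z * cr x p z ∧ 0 < cr x y z * cr x y p := by
  refine ⟨interior_bary hD hp, ?_, ?_⟩
  · have h := interior_bary (x := y) (y := z) (z := x) (p := p) (by rw [cr_rot]; exact hD)
      (by
        have : ({y, z, x} : Set Pt) = {x, y, z} := by
          ext w; simp only [mem_insert_iff, mem_singleton_iff]; tauto
        rw [this]; exact hp)
    rw [cr_rot x y z] at h
    have e : cr p z x = cr x p z := by unfold cr; ring
    rwa [e] at h
  · have h := interior_bary (x := z) (y := x) (z := y) (p := p)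
      (by rw [← cr_rot]; exact hD)
      (by
        have : ({z, x, y} : Set Pt) = {x, y, z} := by
          ext w; simp only [mem_insert_iff, mem_singleton_iff]; tauto
        rw [this]; exact hp)
    rw [← cr_rot z x y] at h
    have e : cr p x y = cr x y p := by unfold cr; ring
    rwa [e] at h

/-- nondegenerate triangles with pairwise disjoint interiors -/
def Good (T : Finset (Finset Pt)) : Prop :=
  (∀ t ∈ T, t.card = 3 ∧ ¬ Collinear ℝ (t : Set Pt)) ∧
  ∀ t ∈ T, ∀ t' ∈ T, t ≠ t' → Disjoint (interior (hull t)) (interior (hull t'))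

theorem Good.vertex {T : Finset (Finset Pt)} (h : Good T) {t : Finset Pt} (ht : t ∈ T) {p : Pt}
    (hp : p ∈ interior (hull t)) : ∀ t' ∈ T, p ∉ t' := by
  intro t' ht' hpt'
  obtain ⟨c, n⟩ := h.1 t' ht'
  obtain ⟨x, y, z, hxy, hxz, hyz, rfl⟩ := Finset.card_eq_three.1 c
  rw [coe3, collinear_iff_cr] at n
  by_cases htt : t = {x, y, z}
  · subst htt
    rw [hull, coe3] at hp
    obtain ⟨h1, h2, h3⟩ := interior_bary3 n hp
    simp only [Finset.mem_insert, Finset.mem_singleton] at hpt'
    rcases hpt' with rfl | rfl | rfl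
    · rw [show cr p p z = 0 by unfold cr; ring, mul_zero] at h2
      exact lt_irrefl _ h2
    · rw [show cr p p z = 0 by unfold cr; ring, mul_zero] at h1
      exact lt_irrefl _ h1
    · rw [show cr p y p = 0 by unfold cr; ring, mul_zero] at h1
      exact lt_irrefl _ h1
  · have hd := h.2 t ht _ ht' htt
    have hne : (interior (hull ({x, y, z} : Finset Pt))).Nonempty := by
      rw [hull, coe3]; exact interior_nonempty n
    have hcl := (convex_convexHull ℝ (({x, y, z} : Finset Pt) : Set Pt)).closure_interior_eq_closure_of_nonempty_interior hne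
    have hpcl : p ∈ closure (interior (hull ({x, y, z} : Finset Pt))) := by
      rw [hcl]
      exact subset_closure (vert_mem_hull hpt')
    obtain ⟨w, hw1, hw2⟩ := mem_closure_iff.1 hpcl _ isOpen_interior hp
    exact Set.disjoint_left.1 hd hw1 hw2

/-- two of the three small triangles are separated -/
theorem small_disjoint {x y z p : Pt} (hD : cr x y z ≠ 0)
    (h1 : 0 < cr x y z * cr p y z) (h2 : 0 < cr x y z * cr x p z) :
    Disjoint (interior (hull ({p, y, z} : Finset Pt))) (interior (hull ({p, x, z} : Finset Pt))) := by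
  -- the functional `q ↦ D * cr p z q`
  have e : ∀ q : Pt, cr x y z * cr p z q = (-(cr x y z * (z.2 - p.2))) * q.1 +
      (cr x y z * (z.1 - p.1)) * q.2 - (-(cr x y z * (z.2 - p.2)) * p.1 +
      (cr x y z * (z.1 - p.1)) * p.2) := by
    intro q; unfold cr; ring
  have fx : 0 < cr x y z * cr p z x := by
    rwa [show cr p z x = cr x p z by unfold cr; ring]
  have fy : cr x y z * cr p z y < 0 := by
    rw [cr_swap p y z]; linarith
  have fp : cr x y z * cr p z p = 0 := by unfold cr; ring
  have fz : cr x y z * cr p z z = 0 := by unfold cr; ring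
  refine sep_disjoint (-(cr x y z * (z.2 - p.2))) (cr x y z * (z.1 - p.1))
    (-(cr x y z * (z.2 - p.2)) * p.1 + (cr x y z * (z.1 - p.1)) * p.2) ?_ ?_ ?_
  · by_contra hcon
    push Not at hcon
    obtain ⟨g1, g2⟩ := hcon
    have := e x
    rw [g1, g2] at this
    linarith
  · intro q hq
    rw [hull, coe3] at hq
    refine hull3_le ?_ ?_ ?_ hq
    · have := e p; linarith
    · have := e y; linarith
    · have := e z; linarith
  · intro q hq
    rw [hull, coe3] at hq
    have := hull3_le (u := -(-(cr x y z * (z.2 - p.2)))) (w := -(cr x y z * (z.1 - p.1)))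
      (d := -(-(cr x y z * (z.2 - p.2)) * p.1 + (cr x y z * (z.1 - p.1)) * p.2)) ?_ ?_ ?_ hq
    · linarith
    · have := e p; linarith
    · have := e x; linarith
    · have := e z; linarith

theorem insert_erase {x y z p : Pt} (hxy : x ≠ y) (hxz : x ≠ z) (hyz : y ≠ z) :
    (({x, y, z} : Finset Pt).image fun a => insert p (({x, y, z} : Finset Pt).erase a)) =
      {{p, y, z}, {p, x, z}, {p, x, y}} := by
  have e1 : insert p (({x, y, z} : Finset Pt).erase x) = {p, y, z} := by
    ext w
    simp only [Finset.mem_insert, Finset.mem_erase, Finset.mem_singleton]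
    constructor
    · rintro (h | ⟨h1, h | h | h⟩) <;> tauto
    · rintro (h | rfl | rfl)
      · exact Or.inl h
      · exact Or.inr ⟨hxy.symm, by tauto⟩
      · exact Or.inr ⟨hxz.symm, by tauto⟩
  have e2 : insert p (({x, y, z} : Finset Pt).erase y) = {p, x, z} := by
    ext w
    simp only [Finset.mem_insert, Finset.mem_erase, Finset.mem_singleton]
    constructor
    · rintro (h | ⟨h1, h | h | h⟩) <;> tauto
    · rintro (h | rfl | rfl)
      · exact Or.inl h
      · exact Or.inr ⟨hxy, by tauto⟩
      · exact Or.inr ⟨hyz.symm, by tauto⟩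
  have e3 : insert p (({x, y, z} : Finset Pt).erase z) = {p, x, y} := by
    ext w
    simp only [Finset.mem_insert, Finset.mem_erase, Finset.mem_singleton]
    constructor
    · rintro (h | ⟨h1, h | h | h⟩) <;> tauto
    · rintro (h | rfl | rfl)
      · exact Or.inl h
      · exact Or.inr ⟨hxz, by tauto⟩
      · exact Or.inr ⟨hyz, by tauto⟩
  rw [Finset.image_insert, Finset.image_insert, Finset.image_singleton, e1, e2, e3]

theorem Good.insert {T T' : Finset (Finset Pt)} (h : Good T) {p : Pt} (hi : InsertPoint T p T') :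
    Good T' := by
  obtain ⟨t, ht, hp, rfl⟩ := hi
  obtain ⟨c, n⟩ := h.1 t ht
  obtain ⟨x, y, z, hxy, hxz, hyz, rfl⟩ := Finset.card_eq_three.1 c
  rw [insert_erase hxy hxz hyz]
  rw [coe3, collinear_iff_cr] at n
  have hp' := hp
  rw [hull, coe3] at hp'
  obtain ⟨h1, h2, h3⟩ := interior_bary3 n hp'
  have k1 : cr p y z ≠ 0 := fun e => by rw [e, mul_zero] at h1; exact lt_irrefl _ h1
  have k2 : cr p x z ≠ 0 := fun e => by
    rw [show cr x p z = -cr p x z by unfold cr; ring, e, neg_zero, mul_zero] at h2
    exact lt_irrefl _ h2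
  have k3 : cr p x y ≠ 0 := fun e => by
    rw [show cr x y p = cr p x y by unfold cr; ring, e, mul_zero] at h3
    exact lt_irrefl _ h3
  -- small triangles lie in the big one
  have hv : ∀ a ∈ ({x, y, z} : Finset Pt), a ∈ hull ({x, y, z} : Finset Pt) :=
    fun a ha => vert_mem_hull ha
  have hsm : ∀ a b : Pt, a ∈ ({x, y, z} : Finset Pt) → b ∈ ({x, y, z} : Finset Pt) →
      hull ({p, a, b} : Finset Pt) ⊆ hull ({x, y, z} : Finset Pt) := by
    intro a b ha hb
    refine convexHull_min ?_ (convex_convexHull ℝ _)
    rw [coe3]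
    intro w hw
    simp only [mem_insert_iff, mem_singleton_iff] at hw
    rcases hw with rfl | rfl | rfl
    · exact interior_subset hp
    · exact hv _ ha
    · exact hv _ hb
  have hsub : ∀ u ∈ ({{p, y, z}, {p, x, z}, {p, x, y}} : Finset (Finset Pt)),
      hull u ⊆ hull ({x, y, z} : Finset Pt) := by
    intro u hu
    simp only [Finset.mem_insert, Finset.mem_singleton] at hu
    rcases hu with rfl | rfl | rfl
    · exact hsm _ _ (by simp) (by simp)
    · exact hsm _ _ (by simp) (by simp)
    · exact hsm _ _ (by simp) (by simp)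
  have d12 := small_disjoint n h1 h2
  -- the other pairs
  have d13 : Disjoint (interior (hull ({p, y, z} : Finset Pt)))
      (interior (hull ({p, x, y} : Finset Pt))) := by
    have := small_disjoint (x := x) (y := z) (z := y) (p := p) (by rw [cr_swap]; simpa using n)
      (by rw [cr_swap x y z, show cr p z y = -cr p y z from cr_swap _ _ _]; linarith)
      (by rw [cr_swap x y z, show cr x p y = -cr x y p from cr_swap _ _ _]; linarith)
    have e1 : ({p, z, y} : Finset Pt) = {p, y, z} := by
      ext w; simp only [Finset.mem_insert, Finset.mem_singleton]; tauto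
    rwa [e1] at this
  have d23 : Disjoint (interior (hull ({p, x, z} : Finset Pt)))
      (interior (hull ({p, x, y} : Finset Pt))) := by
    have := small_disjoint (x := y) (y := z) (z := x) (p := p) (by rw [cr_rot]; exact n)
      (by rw [cr_rot x y z, show cr p z x = cr x p z by unfold cr; ring]; exact h2)
      (by rw [cr_rot x y z, show cr y p x = cr x y p by unfold cr; ring]; exact h3)
    have e1 : ({p, z, x} : Finset Pt) = {p, x, z} := by
      ext w; simp only [Finset.mem_insert, Finset.mem_singleton]; tauto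
    have e2 : ({p, y, x} : Finset Pt) = {p, x, y} := by
      ext w; simp only [Finset.mem_insert, Finset.mem_singleton]; tauto
    rwa [e1, e2] at this
  constructor
  · intro u hu
    rcases Finset.mem_union.1 hu with hu | hu
    · exact h.1 u (Finset.mem_of_mem_erase hu)
    · simp only [Finset.mem_insert, Finset.mem_singleton] at hu
      rcases hu with rfl | rfl | rfl
      · exact ⟨card3_of_cr k1, by rw [coe3, collinear_iff_cr]; exact k1⟩
      · exact ⟨card3_of_cr k2, by rw [coe3, collinear_iff_cr]; exact k2⟩
      · exact ⟨card3_of_cr k3, by rw [coe3, collinear_iff_cr]; exact k3⟩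
  · intro u hu u' hu' hne
    rcases Finset.mem_union.1 hu with hu | hu <;> rcases Finset.mem_union.1 hu' with hu' | hu'
    · exact h.2 u (Finset.mem_of_mem_erase hu) u' (Finset.mem_of_mem_erase hu') hne
    · exact (h.2 u (Finset.mem_of_mem_erase hu) _ ht (Finset.mem_erase.1 hu).1).mono_right
        (interior_mono (hsub u' hu'))
    · exact (h.2 _ ht u' (Finset.mem_of_mem_erase hu') (Finset.mem_erase.1 hu').1.symm).mono_left
        (interior_mono (hsub u hu))
    · simp only [Finset.mem_insert, Finset.mem_singleton] at hu hu'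
      rcases hu with rfl | rfl | rfl <;> rcases hu' with rfl | rfl | rfl
      · exact absurd rfl hne
      · exact d12
      · exact d13
      · exact d12.symm
      · exact absurd rfl hne
      · exact d23
      · exact d13.symm
      · exact d23.symm
      · exact absurd rfl hne

/-- inserting points keeps the potential -/
theorem insertPoints_sum' {M N : ℕ} {P : Set Pt} {T T' : Finset (Finset Pt)} {ps : List Pt}
    (h : InsertPoints T ps T') : Good T → (∀ p ∈ ps, ∀ x, ww M N P p x = 0) →
    ∑ t ∈ T', om M N P t = ∑ t ∈ T, om M N P t := by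
  induction h with
  | nil T => intros; rfl
  | @cons T T' T'' p l h1 h2 ih =>
    intro hG hW
    have hG' := hG.insert h1
    have hpT : ∀ t ∈ T, p ∉ t := by
      obtain ⟨t, ht, hp, -⟩ := h1
      exact hG.vertex ht hp
    rw [← insert_sum h1 (fun t ht => (hG.1 t ht).1) hpT (hW p (by simp))]
    exact ih hG' (fun q hq => hW q (List.mem_cons_of_mem _ hq))

end Pool.Agent.K3h35.Flip
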