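import Pool.Agent.K3h35.FlipIns

set_option autoImplicit false

namespace Pool.Agent.K3h35.Flip

open Set

theorem lpathA (M : ℕ) : LPath M (fun k => min k M) (fun k => k - M) :=
  ⟨by omega, by omega, by omega, by omega, fun k hk => by omega, fun k hk => by omega⟩

theorem lpathB (M : ℕ) : LPath M (fun k => k - M) (fun k => min k M) :=
  ⟨by omega, by omega, by omega, by omega, fun k hk => by omega, fun k hk => by omega⟩

theorem sum_odd (m : ℕ) : ∑ k ∈ Finset.range m, (2 * (k : ℝ) + 1) = (m : ℝ) ^ 2 := by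
  induction m with
  | zero => simp
  | succ m ih => rw [Finset.sum_range_succ, ih]; push_cast; ring

theorem sum_odd' (X : ℝ) (m : ℕ) :
    ∑ k ∈ Finset.range m, (2 * X - 2 * (k : ℝ) - 1) = 2 * X * m - (m : ℝ) ^ 2 := by
  induction m with
  | zero => simp
  | succ m ih => rw [Finset.sum_range_succ, ih]; push_cast; ring

theorem sumA (M : ℕ) : ∑ k ∈ Finset.range (2 * M), ((((min k M : ℕ) : ℝ) - ((k - M : ℕ) : ℝ)) +
    (((min (k + 1) M : ℕ) : ℝ) - ((k + 1 - M : ℕ) : ℝ))) = 2 * (M : ℝ) ^ 2 := by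
  rw [two_mul, Finset.sum_range_add]
  have e1 : ∀ k ∈ Finset.range M, ((((min k M : ℕ) : ℝ) - ((k - M : ℕ) : ℝ)) +
      (((min (k + 1) M : ℕ) : ℝ) - ((k + 1 - M : ℕ) : ℝ))) = 2 * (k : ℝ) + 1 := by
    intro k hk
    rw [Finset.mem_range] at hk
    rw [show min k M = k by omega, show k - M = 0 by omega, show min (k + 1) M = k + 1 by omega,
      show k + 1 - M = 0 by omega]
    push_cast; ring
  have e2 : ∀ k ∈ Finset.range M, ((((min (M + k) M : ℕ) : ℝ) - ((M + k - M : ℕ) : ℝ)) +
      (((min (M + k + 1) M : ℕ) : ℝ) - ((M + k + 1 - M : ℕ) : ℝ))) = 2 * (M : ℝ) - 2 * (k : ℝ) - 1 := by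
    intro k hk
    rw [Finset.mem_range] at hk
    rw [show min (M + k) M = M by omega, show M + k - M = k by omega,
      show min (M + k + 1) M = M by omega, show M + k + 1 - M = k + 1 by omega]
    push_cast; ring
  rw [Finset.sum_congr rfl e1, Finset.sum_congr rfl e2, sum_odd, sum_odd']
  ring

/-- the number of unspoiled pieces -/
theorem card_unspoiled (M N : ℕ) (ps : List Pt) :
    (N : ℝ) - ps.length ≤
      ∑ i ∈ Finset.range N, (open Classical in if Unspoiled M N {p | p ∈ ps} i then (1 : ℝ) else 0) := by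
  classical
  rw [Finset.sum_ite, Finset.sum_const_zero, add_zero, Finset.sum_const, nsmul_eq_mul, mul_one]
  have h1 := Finset.card_filter_add_card_filter_not (s := Finset.range N)
    (fun i => Unspoiled M N {p | p ∈ ps} i)
  rw [Finset.card_range] at h1
  have h2 : ((Finset.range N).filter fun i => ¬ Unspoiled M N {p | p ∈ ps} i) ⊆
      ps.toFinset.image (fun p : Pt => ⌊(p.1 + 1) / ((M : ℝ) + 2)⌋₊) := by
    intro i hi
    rw [Finset.mem_filter, Finset.mem_range] at hi
    obtain ⟨hi1, hi2⟩ := hi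
    unfold Unspoiled at hi2
    push Not at hi2
    obtain ⟨p, hp, hp1, hp2⟩ := hi2 hi1
    rw [Finset.mem_image]
    refine ⟨p, by simpa using hp, ?_⟩
    have hM : (0 : ℝ) < (M : ℝ) + 2 := by positivity
    push_cast at hp1 hp2
    have hi0 : (0 : ℝ) ≤ (i : ℝ) * (M + 2) := by positivity
    rw [Nat.floor_eq_iff (div_nonneg (by linarith) hM.le), le_div_iff₀ hM, div_lt_iff₀ hM]
    constructor <;> linarith
  have h3 := Finset.card_le_card h2
  have h4 := (h3.trans Finset.card_image_le).trans ps.toFinset_card_le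
  have h5 : N ≤ ((Finset.range N).filter fun i => Unspoiled M N {p | p ∈ ps} i).card + ps.length := by
    omega
  have h6 : (N : ℝ) ≤ ((Finset.range N).filter fun i => Unspoiled M N {p | p ∈ ps} i).card +
      ps.length := by exact_mod_cast h5
  linarith

theorem W_steiner {M N : ℕ} {ps : List Pt} {p : Pt} (hp : p ∈ ps) (x : Pt) :
    ww M N {p | p ∈ ps} p x = 0 := by
  have key : ∀ i, Unspoiled M N {p | p ∈ ps} i → ∀ r ≤ M, p.1 ≠ ((i * (M + 2) + r : ℕ) : ℝ) := by
    intro i hi r hr h
    rcases hi.2 p hp with h1 | h1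
    · rw [h] at h1; push_cast at h1
      have : (0 : ℝ) ≤ r := Nat.cast_nonneg r
      linarith
    · rw [h] at h1; push_cast at h1
      have : (r : ℝ) ≤ M := by exact_mod_cast hr
      linarith
  unfold ww W
  rw [if_neg, if_neg, add_zero]
  · rintro ⟨i, hi, -, ⟨s, hs, h⟩⟩
    exact key i hi s hs (by rw [h]; rfl)
  · rintro ⟨i, hi, ⟨r, hr, h⟩, -⟩
    exact key i hi r hr (by rw [h]; rfl)

theorem second_diff_gs {M : ℕ} (hM : 0 < M) (j : ℕ) :
    gs M j - 2 * gs M (j + 1) + gs M (j + 2) ≠ 0 := by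
  have hm : j % (M + 2) < M + 2 := Nat.mod_lt _ (by omega)
  obtain ⟨i, r, hr, rfl⟩ : ∃ i r, r < M + 2 ∧ j = i * (M + 2) + r :=
    ⟨j / (M + 2), j % (M + 2), hm, by rw [mul_comm]; exact (Nat.div_add_mod j (M + 2)).symm⟩
  have hh0 := hh_pos M
  have hM' : (1 : ℝ) ≤ M := by exact_mod_cast hM
  have hle : ((M : ℝ) - 1) < hh M := by unfold hh; nlinarith
  rcases Nat.lt_or_ge M (r + 2) with h | h
  · rcases Nat.lt_or_ge M (r + 1) with h' | h'
    · rcases Nat.lt_or_ge M r with h'' | h''
      · obtain rfl : r = M + 1 := by omega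
        rw [gs_peak, show i * (M + 2) + (M + 1) + 1 = (i + 1) * (M + 2) + 0 by ring,
          show i * (M + 2) + (M + 1) + 2 = (i + 1) * (M + 2) + 1 by ring,
          gs_piece (Nat.zero_le _), gs_piece hM]
        simp only [prof]; push_cast
        intro hc; nlinarith
      · obtain rfl : r = M := by omega
        rw [gs_piece le_rfl, show i * (r + 2) + r + 1 = i * (r + 2) + (r + 1) by ring,
          gs_peak, show i * (r + 2) + r + 2 = (i + 1) * (r + 2) + 0 by ring,
          gs_piece (Nat.zero_le _)]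
        simp only [prof]; push_cast
        intro hc; nlinarith
    · obtain rfl : M = r + 1 := by omega
      rw [gs_piece (by omega), show i * (r + 1 + 2) + r + 1 = i * (r + 1 + 2) + (r + 1) by ring,
        gs_piece le_rfl, show i * (r + 1 + 2) + r + 2 = i * (r + 1 + 2) + (r + 1 + 1) by ring,
        gs_peak]
      simp only [prof]; push_cast at *
      intro hc; nlinarith
  · rw [gs_piece (by omega), show i * (M + 2) + r + 1 = i * (M + 2) + (r + 1) by ring,
      gs_piece (by omega), show i * (M + 2) + r + 2 = i * (M + 2) + (r + 2) by ring,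
      gs_piece (by omega)]
    simp only [prof]; push_cast
    intro hc; nlinarith

theorem second_diff_fs {M : ℕ} (hM : 0 < M) (j : ℕ) :
    fs M j - 2 * fs M (j + 1) + fs M (j + 2) ≠ 0 := by
  have hm : j % (M + 2) < M + 2 := Nat.mod_lt _ (by omega)
  obtain ⟨i, r, hr, rfl⟩ : ∃ i r, r < M + 2 ∧ j = i * (M + 2) + r :=
    ⟨j / (M + 2), j % (M + 2), hm, by rw [mul_comm]; exact (Nat.div_add_mod j (M + 2)).symm⟩
  have hh0 := hh_pos M
  have hM' : (1 : ℝ) ≤ M := by exact_mod_cast hM
  have hle : ((M : ℝ) - 1) < hh M := by unfold hh; nlinarith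
  rcases Nat.lt_or_ge M (r + 2) with h | h
  · rcases Nat.lt_or_ge M (r + 1) with h' | h'
    · rcases Nat.lt_or_ge M r with h'' | h''
      · obtain rfl : r = M + 1 := by omega
        rw [fs_peak, show i * (M + 2) + (M + 1) + 1 = (i + 1) * (M + 2) + 0 by ring,
          show i * (M + 2) + (M + 1) + 2 = (i + 1) * (M + 2) + 1 by ring,
          fs_piece (Nat.zero_le _), fs_piece hM]
        simp only [prof]; push_cast
        intro hc; nlinarith
      · obtain rfl : r = M := by omega
        rw [fs_piece le_rfl, show i * (r + 2) + r + 1 = i * (r + 2) + (r + 1) by ring,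
          fs_peak, show i * (r + 2) + r + 2 = (i + 1) * (r + 2) + 0 by ring,
          fs_piece (Nat.zero_le _)]
        simp only [prof]; push_cast
        intro hc; nlinarith
    · obtain rfl : M = r + 1 := by omega
      rw [fs_piece (by omega), show i * (r + 1 + 2) + r + 1 = i * (r + 1 + 2) + (r + 1) by ring,
        fs_piece le_rfl, show i * (r + 1 + 2) + r + 2 = i * (r + 1 + 2) + (r + 1 + 1) by ring,
        fs_peak]
      simp only [prof]; push_cast at *
      intro hc; nlinarith
  · rw [fs_piece (by omega), show i * (M + 2) + r + 1 = i * (M + 2) + (r + 1) by ring,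
      fs_piece (by omega), show i * (M + 2) + r + 2 = i * (M + 2) + (r + 2) by ring,
      fs_piece (by omega)]
    simp only [prof]; push_cast
    intro hc; nlinarith

/-- **Main lemma.** -/
theorem main_lower {M N : ℕ} (hM : 0 < M) (hN : 0 < N) :
    ∃ T₁ T₂ : Finset (Finset Pt),
      IsSimplePolygon (poly (gs M) (fs M) (N * (M + 2))) ∧
      IsTriangulation (region (poly (gs M) (fs M) (N * (M + 2))))
        (range (poly (gs M) (fs M) (N * (M + 2)))) T₁ ∧
      IsTriangulation (region (poly (gs M) (fs M) (N * (M + 2))))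
        (range (poly (gs M) (fs M) (N * (M + 2)))) T₂ ∧
      EdgeToEdge (range (poly (gs M) (fs M) (N * (M + 2)))) T₁ ∧
      EdgeToEdge (range (poly (gs M) (fs M) (N * (M + 2)))) T₂ ∧
      ∀ (ps : List Pt) (T₁' T₂' : Finset (Finset Pt)),
        InsertPoints T₁ ps T₁' → InsertPoints T₂ ps T₂' →
        ∀ L : ℕ, FlipPath (region (poly (gs M) (fs M) (N * (M + 2))))
          (range (poly (gs M) (fs M) (N * (M + 2))) ∪ {p | p ∈ ps}) L T₁' T₂' →
          (M : ℝ) ^ 2 * ((N : ℝ) - ps.length) ≤ L := by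
  have hJ : 0 < N * (M + 2) := by positivity
  have gap : ∀ j ≤ N * (M + 2), fs M j < gs M j := fun j _ => gap_all M j
  have full1 := fun ω => (lpathA M).full hM (J := N * (M + 2)) ω N hN le_rfl
  have full2 := fun ω => (lpathB M).full hM (J := N * (M + 2)) ω N hN le_rfl
  obtain ⟨tr1, ee1⟩ := (full1 (fun _ => 0)).1.isTriangulation hJ gap
  obtain ⟨tr2, ee2⟩ := (full2 (fun _ => 0)).1.isTriangulation hJ gap
  refine ⟨_, _, poly_simple hJ gap (fun j _ => second_diff_gs hM j)
    (fun j _ => second_diff_fs hM j), tr1, tr2, ee1, ee2, ?_⟩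
  intro ps T₁' T₂' i1 i2 L hL
  rw [region_poly hJ gap, range_poly] at hL
  have hfp := flip_path hL
  have e1 := insertPoints_sum' (M := M) (N := N) (P := {p | p ∈ ps}) i1
    ⟨fun t ht => ⟨(tr1.triangle t ht).1, (tr1.triangle t ht).2.1⟩, tr1.disjoint⟩
    (fun p hp x => W_steiner hp x)
  have e2 := insertPoints_sum' (M := M) (N := N) (P := {p | p ∈ ps}) i2
    ⟨fun t ht => ⟨(tr2.triangle t ht).1, (tr2.triangle t ht).2.1⟩, tr2.disjoint⟩
    (fun p hp x => W_steiner hp x)
  rw [e1, e2, (full1 _).2, (full2 _).2] at hfp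
  classical
  have s1 : ∀ i ∈ Finset.range N, superSum M (fun k => min k M) (fun k => k - M)
      (om M N {p | p ∈ ps}) i = 2 * (M : ℝ) ^ 2 *
        (if Unspoiled M N {p | p ∈ ps} i then (1 : ℝ) else 0) := by
    intro i _
    split_ifs with hi
    · rw [superSum_unspoiled (lpathA M) hi, sumA, mul_one]
    · rw [superSum_spoiled (lpathA M) hi, mul_zero]
  have s2 : ∀ i ∈ Finset.range N, superSum M (fun k => k - M) (fun k => min k M)
      (om M N {p | p ∈ ps}) i = -(2 * (M : ℝ) ^ 2 *
        (if Unspoiled M N {p | p ∈ ps} i then (1 : ℝ) else 0)) := by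
    intro i _
    split_ifs with hi
    · rw [superSum_unspoiled (lpathB M) hi, mul_one, ← sumA, ← Finset.sum_neg_distrib]
      refine Finset.sum_congr rfl (fun k _ => ?_)
      ring
    · rw [superSum_spoiled (lpathB M) hi, mul_zero, neg_zero]
  rw [Finset.sum_congr rfl s1, Finset.sum_congr rfl s2, Finset.sum_neg_distrib,
    ← Finset.mul_sum, abs_le] at hfp
  have hcard := card_unspoiled M N ps
  have hM2 : (0 : ℝ) ≤ (M : ℝ) ^ 2 := by positivity
  have := mul_le_mul_of_nonneg_left hcard hM2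
  linarith [hfp.1]

end Pool.Agent.K3h35.Flip
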