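import Pool.Agent.K3h35.FlipBlock2

set_option autoImplicit false

namespace Pool.Agent.K3h35.Flip

open Set

/-- the polygon between an upper and a lower chain -/
noncomputable def poly (G F : ℕ → ℝ) (J : ℕ) (i : Fin (2 * J + 2)) : Pt :=
  if i.val ≤ J then pt G i.val else pt F (2 * J + 1 - i.val)

section
variable {G F : ℕ → ℝ} {J : ℕ}

theorem mem_edge {s : ℕ → ℝ} {j : ℕ} (hj : j < J) {p : Pt} :
    p ∈ segment ℝ (pt s j) (pt s (j + 1)) ↔ (j : ℝ) ≤ p.1 ∧ p.1 ≤ j + 1 ∧ p.2 = pl s J p.1 := by
  rw [mem_seg]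
  constructor
  · rintro ⟨t, h0, h1, h2, h3⟩
    simp only [pt_fst, pt_snd] at h2 h3
    push_cast at h2
    have e : p.1 = j + t := by rw [h2]; ring
    refine ⟨by linarith, by linarith, ?_⟩
    rw [pl_eq hj (by linarith) (by linarith), h3, e]; ring
  · rintro ⟨h0, h1, h2⟩
    refine ⟨p.1 - j, by linarith, by linarith, ?_, ?_⟩
    · simp only [pt_fst]; push_cast; ring
    · simp only [pt_snd]; rw [h2, pl_eq hj h0 h1]; ring

theorem mem_vert {j : ℕ} {u w : ℝ} (huw : w ≤ u) {p : Pt} :
    p ∈ segment ℝ ((j : ℝ), u) ((j : ℝ), w) ↔ p.1 = j ∧ w ≤ p.2 ∧ p.2 ≤ u := by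
  rw [mem_seg]
  constructor
  · rintro ⟨t, h0, h1, h2, h3⟩
    simp only at h2 h3
    refine ⟨by rw [h2]; ring, ?_, ?_⟩
    · rw [h3]; nlinarith [mul_nonneg (sub_nonneg.2 h1) (sub_nonneg.2 huw)]
    · rw [h3]; nlinarith [mul_nonneg h0 (sub_nonneg.2 huw)]
  · rintro ⟨h0, h1, h2⟩
    rcases eq_or_lt_of_le huw with h | h
    · refine ⟨0, le_rfl, zero_le_one, ?_, ?_⟩
      · simp [h0]
      · simp only; rw [h] at h1; linarith
    · have hd : 0 < u - w := sub_pos.2 h
      refine ⟨(u - p.2) / (u - w), div_nonneg (by linarith) hd.le,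
        (div_le_one hd).2 (by linarith), ?_, ?_⟩
      · simp only; rw [h0]; ring
      · simp only; field_simp; ring

theorem nxt_val {n : ℕ} (i : Fin n) : (nxt i).val = if i.val + 1 < n then i.val + 1 else 0 := by
  unfold nxt
  simp only
  split_ifs with h
  · exact Nat.mod_eq_of_lt h
  · have : i.val + 1 = n := by omega
    rw [this, Nat.mod_self]

theorem poly_le {i : Fin (2 * J + 2)} (h : i.val ≤ J) : poly G F J i = pt G i.val := by
  unfold poly; rw [if_pos h]

theorem poly_gt {i : Fin (2 * J + 2)} (h : J < i.val) : poly G F J i = pt F (2 * J + 1 - i.val) := by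
  unfold poly; rw [if_neg (by omega)]

/-- the four kinds of edges -/
theorem edge_cases (gap : ∀ j ≤ J, F j < G j) (i : Fin (2 * J + 2)) :
    (i.val < J ∧ ∀ p, p ∈ segment ℝ (poly G F J i) (poly G F J (nxt i)) ↔
      (i.val : ℝ) ≤ p.1 ∧ p.1 ≤ i.val + 1 ∧ p.2 = pl G J p.1) ∨
    (i.val = J ∧ ∀ p, p ∈ segment ℝ (poly G F J i) (poly G F J (nxt i)) ↔
      p.1 = J ∧ F J ≤ p.2 ∧ p.2 ≤ G J) ∨
    (∃ j < J, i.val = 2 * J - j ∧ ∀ p, p ∈ segment ℝ (poly G F J i) (poly G F J (nxt i)) ↔
      (j : ℝ) ≤ p.1 ∧ p.1 ≤ j + 1 ∧ p.2 = pl F J p.1) ∨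
    (i.val = 2 * J + 1 ∧ ∀ p, p ∈ segment ℝ (poly G F J i) (poly G F J (nxt i)) ↔
      p.1 = 0 ∧ F 0 ≤ p.2 ∧ p.2 ≤ G 0) := by
  have hi := i.isLt
  rcases lt_trichotomy i.val J with h | h | h
  · refine Or.inl ⟨h, fun p => ?_⟩
    have e : (nxt i).val = i.val + 1 := by rw [nxt_val, if_pos (by omega)]
    rw [poly_le (by omega), poly_le (by omega), e, mem_edge h]
  · refine Or.inr (Or.inl ⟨h, fun p => ?_⟩)
    have e : (nxt i).val = i.val + 1 := by rw [nxt_val, if_pos (by omega)]
    rw [poly_le (by omega), poly_gt (by omega), e, h, show 2 * J + 1 - (J + 1) = J by omega]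
    exact mem_vert (gap J le_rfl).le
  · rcases Nat.lt_or_ge i.val (2 * J + 1) with h' | h'
    · refine Or.inr (Or.inr (Or.inl ⟨2 * J - i.val, by omega, by omega, fun p => ?_⟩))
      have e : (nxt i).val = i.val + 1 := by rw [nxt_val, if_pos (by omega)]
      rw [poly_gt (by omega), poly_gt (by omega), e,
        show 2 * J + 1 - (i.val + 1) = 2 * J - i.val by omega,
        show 2 * J + 1 - i.val = (2 * J - i.val) + 1 by omega, segment_symm, mem_edge (J := J) (by omega)]
    · refine Or.inr (Or.inr (Or.inr ⟨by omega, fun p => ?_⟩))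
      have e : (nxt i).val = 0 := by rw [nxt_val, if_neg (by omega)]
      rw [poly_gt (by omega), poly_le (by omega), e,
        show 2 * J + 1 - i.val = 0 by omega, segment_symm]
      have := mem_vert (j := 0) (gap 0 (Nat.zero_le _)).le (p := p)
      rw [Nat.cast_zero] at this
      simpa only [pt, Nat.cast_zero] using this

theorem pl_gap (hJ : 0 < J) (gap : ∀ j ≤ J, F j < G j) {x : ℝ} (h0 : 0 ≤ x) (h1 : x ≤ J) :
    pl F J x < pl G J x := by
  obtain ⟨j, hj1, hj2, hj3, hj4⟩ := exists_slab (c := 0) hJ (by simpa using h0) h1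
  rw [pl_eq hj2 hj3 hj4, pl_eq hj2 hj3 hj4]
  have g1 := gap j hj2.le
  have g2 := gap (j + 1) hj2
  rcases eq_or_lt_of_le hj4 with h | h
  · rw [h]; ring_nf; rw [add_comm 1 j]; exact g2
  · nlinarith [mul_pos (sub_pos.2 h) (sub_pos.2 g1), mul_nonneg (sub_nonneg.2 hj3) (sub_pos.2 g2).le]

theorem poly_corner (hJ : 0 < J) (gap : ∀ j ≤ J, F j < G j)
    (hG : ∀ j, j + 2 ≤ J → G j - 2 * G (j + 1) + G (j + 2) ≠ 0)
    (hF : ∀ j, j + 2 ≤ J → F j - 2 * F (j + 1) + F (j + 2) ≠ 0) (i : Fin (2 * J + 2)) :
    cr (poly G F J i) (poly G F J (nxt i)) (poly G F J (nxt (nxt i))) ≠ 0 := by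
  have hi := i.isLt
  have g1 := gap J le_rfl
  have g0 := gap 0 (Nat.zero_le _)
  rcases Nat.lt_or_ge (i.val + 1) (2 * J + 2) with h1 | h1
  · have e : (nxt i).val = i.val + 1 := by rw [nxt_val, if_pos h1]
    rcases Nat.lt_or_ge (i.val + 2) (2 * J + 2) with h2 | h2
    · have e' : (nxt (nxt i)).val = i.val + 2 := by rw [nxt_val, if_pos (by omega), e]
      rcases Nat.lt_or_ge J (i.val + 2) with h3 | h3
      · rcases Nat.lt_or_ge J (i.val + 1) with h4 | h4
        · rcases Nat.lt_or_ge J i.val with h5 | h5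
          · -- three lower
            rw [poly_gt h5, poly_gt (by omega), poly_gt (by omega), e, e']
            obtain ⟨j, hj⟩ : ∃ j, i.val + j = 2 * J - 1 := ⟨2 * J - 1 - i.val, by omega⟩
            rw [show 2 * J + 1 - i.val = j + 2 by omega, show 2 * J + 1 - (i.val + 1) = j + 1 by omega,
              show 2 * J + 1 - (i.val + 2) = j by omega]
            have := hF j (by omega)
            intro h
            apply this
            simp only [cr, pt_fst, pt_snd] at h
            push_cast at h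
            linarith
          · rw [poly_le h5, poly_gt (by omega), poly_gt (by omega), e, e']
            obtain ⟨j, hj⟩ : ∃ j, J = j + 1 := ⟨J - 1, by omega⟩
            rw [show 2 * J + 1 - (i.val + 1) = j + 1 by omega,
              show 2 * J + 1 - (i.val + 2) = j by omega, show i.val = j + 1 by omega]
            intro h
            simp only [cr, pt_fst, pt_snd] at h
            rw [hj] at g1
            push_cast at h
            linarith
        · rw [poly_le (by omega), poly_le (by omega), poly_gt (by omega), e, e']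
          obtain ⟨j, hj⟩ : ∃ j, J = j + 1 := ⟨J - 1, by omega⟩
          rw [show 2 * J + 1 - (i.val + 2) = j + 1 by omega, show i.val = j by omega]
          intro h
          simp only [cr, pt_fst, pt_snd] at h
          rw [hj] at g1
          push_cast at h
          linarith
      · rw [poly_le (by omega), poly_le (by omega), poly_le (by omega), e, e']
        have := hG i.val h3
        intro h
        apply this
        simp only [cr, pt_fst, pt_snd] at h
        push_cast at h
        linarith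
    · have e' : (nxt (nxt i)).val = 0 := by rw [nxt_val, if_neg (by omega)]
      rw [poly_gt (by omega), poly_gt (by omega), poly_le (by omega), e, e',
        show 2 * J + 1 - i.val = 1 by omega, show 2 * J + 1 - (i.val + 1) = 0 by omega]
      intro h
      simp only [cr, pt_fst, pt_snd] at h
      push_cast at h
      linarith
  · have e : (nxt i).val = 0 := by rw [nxt_val, if_neg (by omega)]
    have e' : (nxt (nxt i)).val = 1 := by rw [nxt_val, if_pos (by omega), e]
    rw [poly_gt (by omega), poly_le (by omega), poly_le (by omega), e, e',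
      show 2 * J + 1 - i.val = 0 by omega]
    intro h
    simp only [cr, pt_fst, pt_snd] at h
    push_cast at h
    linarith

theorem poly_simple (hJ : 0 < J) (gap : ∀ j ≤ J, F j < G j)
    (hG : ∀ j, j + 2 ≤ J → G j - 2 * G (j + 1) + G (j + 2) ≠ 0)
    (hF : ∀ j, j + 2 ≤ J → F j - 2 * F (j + 1) + F (j + 2) ≠ 0) :
    IsSimplePolygon (poly G F J) := by
  refine ⟨by omega, ?_, ?_, ?_⟩
  · intro i
    rw [collinear_iff_cr]
    exact poly_corner hJ gap hG hF i
  · intro i
    exact seg_inter_seg (poly_corner hJ gap hG hF i)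
  · intro i j hij hji hij'
    have n1 : i.val ≠ j.val := fun h => hij (Fin.ext h)
    have n2 : j.val ≠ (nxt i).val := fun h => hji (Fin.ext h)
    have n3 : i.val ≠ (nxt j).val := fun h => hij' (Fin.ext h)
    rw [nxt_val] at n2 n3
    have hJ' : (0 : ℝ) < J := by exact_mod_cast hJ
    rw [Set.disjoint_left]
    intro p hp hq
    rcases edge_cases gap i with ⟨a1, a2⟩ | ⟨a1, a2⟩ | ⟨k, a0, a1, a2⟩ | ⟨a1, a2⟩ <;>
    rcases edge_cases gap j with ⟨b1, b2⟩ | ⟨b1, b2⟩ | ⟨l, b0, b1, b2⟩ | ⟨b1, b2⟩ <;>
    have hp := (a2 p).1 hp <;> have hq := (b2 p).1 hq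
    · rw [if_pos (by omega)] at n2 n3
      rcases Nat.lt_or_ge i.val j.val with h | h
      · have : (i.val : ℝ) + 2 ≤ j.val := by
          have : i.val + 2 ≤ j.val := by omega
          exact_mod_cast this
        linarith [hp.2.1, hq.1]
      · have : (j.val : ℝ) + 2 ≤ i.val := by
          have : j.val + 2 ≤ i.val := by omega
          exact_mod_cast this
        linarith [hp.1, hq.2.1]
    · rw [if_pos (by omega)] at n2 n3
      have : (i.val : ℝ) + 2 ≤ J := by
        have : i.val + 2 ≤ J := by omega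
        exact_mod_cast this
      linarith [hp.2.1, hq.1]
    · have hx : (l : ℝ) + 1 ≤ J := by exact_mod_cast b0
      have := pl_gap hJ gap (x := p.1) (le_trans (Nat.cast_nonneg _) hp.1) (by linarith [hq.2.1])
      linarith [hp.2.2, hq.2.2]
    · rw [if_pos (by omega)] at n2
      rw [if_neg (by omega)] at n3
      have : (1 : ℝ) ≤ i.val := by
        have : 1 ≤ i.val := by omega
        exact_mod_cast this
      linarith [hp.1, hq.1]
    · rw [if_pos (by omega)] at n2 n3
      have : (j.val : ℝ) + 2 ≤ J := by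
        have : j.val + 2 ≤ J := by omega
        exact_mod_cast this
      linarith [hq.2.1, hp.1]
    · omega
    · rw [if_pos (by omega)] at n2 n3
      have : (l : ℝ) + 2 ≤ J := by
        have : l + 2 ≤ J := by omega
        exact_mod_cast this
      linarith [hq.2.1, hp.1]
    · linarith [hq.1, hp.1]
    · have hx : (k : ℝ) + 1 ≤ J := by exact_mod_cast a0
      have := pl_gap hJ gap (x := p.1) (le_trans (Nat.cast_nonneg _) hp.1) (by linarith [hp.2.1])
      linarith [hp.2.2, hq.2.2]
    · rw [if_pos (by omega)] at n2 n3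
      have : (k : ℝ) + 2 ≤ J := by
        have : k + 2 ≤ J := by omega
        exact_mod_cast this
      linarith [hp.2.1, hq.1]
    · rw [if_pos (by omega)] at n2 n3
      rcases Nat.lt_or_ge k l with h | h
      · have : (k : ℝ) + 2 ≤ l := by
          have : k + 2 ≤ l := by omega
          exact_mod_cast this
        linarith [hp.2.1, hq.1]
      · have : (l : ℝ) + 2 ≤ k := by
          have : l + 2 ≤ k := by omega
          exact_mod_cast this
        linarith [hp.1, hq.2.1]
    · rw [if_pos (by omega)] at n2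
      have : (1 : ℝ) ≤ k := by
        have : 1 ≤ k := by omega
        exact_mod_cast this
      linarith [hp.1, hq.1]
    · rw [if_neg (by omega)] at n2
      have : (1 : ℝ) ≤ j.val := by
        have : 1 ≤ j.val := by omega
        exact_mod_cast this
      linarith [hp.1, hq.1]
    · linarith [hq.1, hp.1]
    · rw [if_pos (by omega)] at n3
      have : (1 : ℝ) ≤ l := by
        have : 1 ≤ l := by omega
        exact_mod_cast this
      linarith [hp.1, hq.1]
    · omega

theorem range_poly : range (poly G F J) = cols G F 0 J := by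
  ext p
  constructor
  · rintro ⟨i, rfl⟩
    rcases Nat.lt_or_ge J i.val with h | h
    · exact ⟨2 * J + 1 - i.val, Nat.zero_le _, by omega, Or.inr (poly_gt h)⟩
    · exact ⟨i.val, Nat.zero_le _, h, Or.inl (poly_le h)⟩
  · rintro ⟨j, -, hj, rfl | rfl⟩
    · exact ⟨⟨j, by omega⟩, poly_le hj⟩
    · refine ⟨⟨2 * J + 1 - j, by omega⟩, ?_⟩
      rw [poly_gt (by simp only; omega)]
      simp only
      congr 1
      omega

/-- the boundary curve -/
theorem boundary_poly (hJ : 0 < J) (gap : ∀ j ≤ J, F j < G j) :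
    boundary (poly G F J) =
      {p | p ∈ reg G F J 0 J ∧ (p.1 = 0 ∨ p.1 = J ∨ p.2 = pl F J p.1 ∨ p.2 = pl G J p.1)} := by
  have hJ' : (0 : ℝ) < J := by exact_mod_cast hJ
  ext p
  simp only [boundary, mem_iUnion, mem_ofPred_eq, reg, Nat.cast_zero]
  constructor
  · rintro ⟨i, hi⟩
    rcases edge_cases gap i with ⟨a1, a2⟩ | ⟨a1, a2⟩ | ⟨k, a0, a1, a2⟩ | ⟨a1, a2⟩
    · obtain ⟨h1, h2, h3⟩ := (a2 p).1 hi
      have : (i.val : ℝ) + 1 ≤ J := by exact_mod_cast a1
      have g0 : 0 ≤ p.1 := le_trans (Nat.cast_nonneg _) h1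
      have := pl_gap hJ gap g0 (by linarith)
      exact ⟨⟨g0, by linarith, by linarith, by linarith⟩, by tauto⟩
    · obtain ⟨h1, h2, h3⟩ := (a2 p).1 hi
      refine ⟨⟨by linarith, by linarith, ?_, ?_⟩, by tauto⟩
      · rw [h1, pl_nat hJ le_rfl]; exact h2
      · rw [h1, pl_nat hJ le_rfl]; exact h3
    · obtain ⟨h1, h2, h3⟩ := (a2 p).1 hi
      have : (k : ℝ) + 1 ≤ J := by exact_mod_cast a0
      have g0 : 0 ≤ p.1 := le_trans (Nat.cast_nonneg _) h1
      have := pl_gap hJ gap g0 (by linarith)
      exact ⟨⟨g0, by linarith, by linarith, by linarith⟩, by tauto⟩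
    · obtain ⟨h1, h2, h3⟩ := (a2 p).1 hi
      have e : ∀ s : ℕ → ℝ, pl s J 0 = s 0 := fun s => by
        have := pl_nat (s := s) hJ (Nat.zero_le J)
        simpa using this
      refine ⟨⟨by linarith, by linarith, ?_, ?_⟩, by tauto⟩
      · rw [h1, e]; exact h2
      · rw [h1, e]; exact h3
  · rintro ⟨⟨h1, h2, h3, h4⟩, h5⟩
    have e : ∀ s : ℕ → ℝ, pl s J 0 = s 0 := fun s => by
      have := pl_nat (s := s) hJ (Nat.zero_le J)
      simpa using this
    rcases h5 with h | h | h | h
    · let i : Fin (2 * J + 2) := ⟨2 * J + 1, by omega⟩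
      refine ⟨i, ?_⟩
      rcases edge_cases gap i with ⟨a1, a2⟩ | ⟨a1, a2⟩ | ⟨k, a0, a1, a2⟩ | ⟨a1, a2⟩
      · simp only [i] at a1; omega
      · simp only [i] at a1; omega
      · simp only [i] at a1; omega
      · rw [a2]
        rw [h, e] at h3 h4
        exact ⟨h, h3, h4⟩
    · let i : Fin (2 * J + 2) := ⟨J, by omega⟩
      refine ⟨i, ?_⟩
      rcases edge_cases gap i with ⟨a1, a2⟩ | ⟨a1, a2⟩ | ⟨k, a0, a1, a2⟩ | ⟨a1, a2⟩
      · simp only [i] at a1; omega
      · rw [a2]
        rw [h, pl_nat hJ le_rfl] at h3 h4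
        exact ⟨h, h3, h4⟩
      · simp only [i] at a1; omega
      · simp only [i] at a1; omega
    · obtain ⟨j, hj1, hj2, hj3, hj4⟩ := exists_slab (c := 0) hJ (by simpa using h1) h2
      let i : Fin (2 * J + 2) := ⟨2 * J - j, by omega⟩
      refine ⟨i, ?_⟩
      rcases edge_cases gap i with ⟨a1, a2⟩ | ⟨a1, a2⟩ | ⟨k, a0, a1, a2⟩ | ⟨a1, a2⟩
      · simp only [i] at a1; omega
      · simp only [i] at a1; omega
      · simp only [i] at a1
        obtain rfl : j = k := by omega
        rw [a2]
        exact ⟨hj3, hj4, h⟩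
      · simp only [i] at a1; omega
    · obtain ⟨j, hj1, hj2, hj3, hj4⟩ := exists_slab (c := 0) hJ (by simpa using h1) h2
      let i : Fin (2 * J + 2) := ⟨j, by omega⟩
      refine ⟨i, ?_⟩
      rcases edge_cases gap i with ⟨a1, a2⟩ | ⟨a1, a2⟩ | ⟨k, a0, a1, a2⟩ | ⟨a1, a2⟩
      · rw [a2]
        exact ⟨hj3, hj4, h⟩
      · simp only [i] at a1; omega
      · simp only [i] at a1; omega
      · simp only [i] at a1; omega

theorem reg_bounded : Bornology.IsBounded (reg G F J 0 J) := by
  obtain ⟨C1, h1⟩ := (isCompact_Icc (a := (0 : ℝ)) (b := J)).exists_bound_of_continuousOn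
    (pl_continuous G J).continuousOn
  obtain ⟨C2, h2⟩ := (isCompact_Icc (a := (0 : ℝ)) (b := J)).exists_bound_of_continuousOn
    (pl_continuous F J).continuousOn
  rw [isBounded_iff_forall_norm_le]
  refine ⟨max J (|C1| + |C2|), ?_⟩
  rintro p ⟨a1, a2, a3, a4⟩
  rw [Nat.cast_zero] at a1
  have e1 := h1 p.1 ⟨a1, a2⟩
  have e2 := h2 p.1 ⟨a1, a2⟩
  rw [Real.norm_eq_abs] at e1 e2
  rw [Prod.norm_def]
  refine max_le ?_ ?_
  · rw [Real.norm_eq_abs, abs_of_nonneg a1]
    exact le_trans a2 (le_max_left _ _)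
  · refine le_trans ?_ (le_max_right _ _)
    rw [Real.norm_eq_abs, abs_le]
    have := le_abs_self C1
    have := le_abs_self C2
    have := (abs_le.1 e1)
    have := (abs_le.1 e2)
    have := abs_nonneg C1
    have := abs_nonneg C2
    constructor <;> linarith

theorem region_poly (hJ : 0 < J) (gap : ∀ j ≤ J, F j < G j) :
    region (poly G F J) = reg G F J 0 J := by
  have hG := pl_continuous G J
  have hF := pl_continuous F J
  have hB := boundary_poly hJ gap
  let W : Set Pt := {p | 0 < p.1 ∧ p.1 < J ∧ pl F J p.1 < p.2 ∧ p.2 < pl G J p.1}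
  have hW : IsOpen W := by
    refine (isOpen_lt continuous_const continuous_fst).inter
      ((isOpen_lt continuous_fst continuous_const).inter
        ((isOpen_lt (hF.comp continuous_fst) continuous_snd).inter
          (isOpen_lt continuous_snd (hG.comp continuous_fst))))
  have hR : IsClosed (reg G F J 0 J) := by
    refine (isClosed_le continuous_const continuous_fst).inter
      ((isClosed_le continuous_fst continuous_const).inter
        ((isClosed_le (hF.comp continuous_fst) continuous_snd).inter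
          (isClosed_le continuous_snd (hG.comp continuous_fst))))
  have hWR : W ⊆ reg G F J 0 J := by
    rintro p ⟨h1, h2, h3, h4⟩
    exact ⟨by rw [Nat.cast_zero]; exact h1.le, h2.le, h3.le, h4.le⟩
  have hcompl : ∀ p, p ∉ boundary (poly G F J) → p ∈ reg G F J 0 J → p ∈ W := by
    intro p hp hp'
    rw [hB] at hp
    have hp'' := hp'
    obtain ⟨h1, h2, h3, h4⟩ := hp'
    rw [Nat.cast_zero] at h1
    refine ⟨lt_of_le_of_ne h1 ?_, lt_of_le_of_ne h2 ?_, lt_of_le_of_ne h3 ?_, lt_of_le_of_ne h4 ?_⟩
    · intro h; exact hp ⟨hp'', Or.inl h.symm⟩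
    · intro h; exact hp ⟨hp'', Or.inr (Or.inl h)⟩
    · intro h; exact hp ⟨hp'', Or.inr (Or.inr (Or.inl h.symm))⟩
    · intro h; exact hp ⟨hp'', Or.inr (Or.inr (Or.inr h))⟩
  ext x
  simp only [region, mem_union, mem_ofPred_eq]
  constructor
  · rintro (hx | ⟨hx, hb⟩)
    · rw [hB] at hx; exact hx.1
    · by_contra hxR
      -- a vertical ray through `x` avoiding the boundary
      have key : (∀ y ≤ x.2, ((x.1, y) : Pt) ∉ reg G F J 0 J) ∨
          (∀ y ≥ x.2, ((x.1, y) : Pt) ∉ reg G F J 0 J) := by
        by_cases h1 : pl F J x.1 ≤ x.2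
        · by_cases h2 : x.2 ≤ pl G J x.1
          · left
            intro y _ hy
            exact hxR ⟨hy.1, hy.2.1, h1, h2⟩
          · right
            intro y hy hy'
            have : y ≤ pl G J x.1 := hy'.2.2.2
            linarith
        · left
          intro y hy hy'
          have : pl F J x.1 ≤ y := hy'.2.2.1
          linarith
      have hmap : Continuous fun y : ℝ => ((x.1, y) : Pt) := by fun_prop
      obtain ⟨C, hC⟩ := isBounded_iff_forall_norm_le.1 hb
      rcases key with h | h
      · have hsub : (fun y : ℝ => ((x.1, y) : Pt)) '' Iic x.2 ⊆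
            connectedComponentIn (boundary (poly G F J))ᶜ x := by
          refine IsPreconnected.subset_connectedComponentIn
            (isPreconnected_Iic.image _ hmap.continuousOn) ⟨x.2, self_mem_Iic, rfl⟩ ?_
          rintro _ ⟨y, hy, rfl⟩ hyB
          rw [hB] at hyB
          exact h y hy hyB.1
        have := hC (x.1, min x.2 (-(|C| + 1))) (hsub ⟨_, mem_Iic.2 (min_le_left _ _), rfl⟩)
        have h3 := (norm_snd_le ((x.1, min x.2 (-(|C| + 1))) : Pt)).trans this
        simp only [Real.norm_eq_abs] at h3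
        have h4 := (abs_le.1 h3).1
        have h5 := min_le_right x.2 (-(|C| + 1))
        have := le_abs_self C
        linarith
      · have hsub : (fun y : ℝ => ((x.1, y) : Pt)) '' Ici x.2 ⊆
            connectedComponentIn (boundary (poly G F J))ᶜ x := by
          refine IsPreconnected.subset_connectedComponentIn
            (isPreconnected_Ici.image _ hmap.continuousOn) ⟨x.2, self_mem_Ici, rfl⟩ ?_
          rintro _ ⟨y, hy, rfl⟩ hyB
          rw [hB] at hyB
          exact h y hy hyB.1
        have := hC (x.1, max x.2 (|C| + 1)) (hsub ⟨_, mem_Ici.2 (le_max_left _ _), rfl⟩)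
        have h3 := (norm_snd_le ((x.1, max x.2 (|C| + 1)) : Pt)).trans this
        simp only [Real.norm_eq_abs] at h3
        have h4 := (abs_le.1 h3).2
        have h5 := le_max_right x.2 (|C| + 1)
        have := le_abs_self C
        linarith
  · intro hx
    by_cases hxB : x ∈ boundary (poly G F J)
    · exact Or.inl hxB
    · refine Or.inr ⟨hxB, (reg_bounded (G := G) (F := F) (J := J)).subset ?_⟩
      refine subset_trans ?_ hWR
      refine IsPreconnected.subset_left_of_subset_union hW hR.isOpen_compl ?_ ?_ ?_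
        isPreconnected_connectedComponentIn
      · rw [Set.disjoint_left]
        intro p hp hp'
        exact hp' (hWR hp)
      · intro p hp
        have hp' := connectedComponentIn_subset _ _ hp
        by_cases h : p ∈ reg G F J 0 J
        · exact Or.inl (hcompl p hp' h)
        · exact Or.inr h
      · exact ⟨x, mem_connectedComponentIn hxB, hcompl x hxB hx⟩

/-- no vertex is in the interior of the region -/
theorem cols_not_interior {c d : ℕ} (hJ : 0 < J) (hd : d ≤ J) {s : Pt} (hs : s ∈ cols G F c d) :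
    s ∉ interior (reg G F J 0 J) := by
  intro hint
  obtain ⟨j, -, hj, h⟩ := hs
  have hs1 : s.1 = j := by rcases h with rfl | rfl <;> rfl
  have hcont : Continuous fun t : ℝ => ((s.1, s.2 + t) : Pt) := by fun_prop
  have h0 : (fun t : ℝ => ((s.1, s.2 + t) : Pt)) 0 ∈ interior (reg G F J 0 J) := by simpa using hint
  have hev := (isOpen_interior.preimage hcont).mem_nhds h0
  rw [Metric.mem_nhds_iff] at hev
  obtain ⟨ε, hε, hball⟩ := hev
  have h1 : (ε / 2) ∈ Metric.ball (0 : ℝ) ε := by
    rw [Metric.mem_ball, Real.dist_eq, sub_zero, abs_of_pos (by linarith)]; linarith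
  have h2 : -(ε / 2) ∈ Metric.ball (0 : ℝ) ε := by
    rw [Metric.mem_ball, Real.dist_eq, sub_zero, abs_neg, abs_of_pos (by linarith)]; linarith
  have h3 : s.2 + ε / 2 ≤ pl G J s.1 := (interior_subset (hball h1)).2.2.2
  have h4 : pl F J s.1 ≤ s.2 + -(ε / 2) := (interior_subset (hball h2)).2.2.1
  rw [hs1, pl_nat hJ (by omega)] at h3 h4
  rcases h with rfl | rfl
  · simp only [pt_snd] at h3; linarith
  · simp only [pt_snd] at h4; linarith

theorem Tri.isTriangulation (hJ : 0 < J) (gap : ∀ j ≤ J, F j < G j) {T : Finset (Finset Pt)}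
    (h : Tri G F J 0 J T) :
    IsTriangulation (region (poly G F J)) (range (poly G F J)) T ∧
      EdgeToEdge (range (poly G F J)) T := by
  rw [region_poly hJ gap, range_poly]
  refine ⟨⟨h.nondeg, h.disj, h.cover, ?_⟩, h.e2e⟩
  intro t ht s hs hst
  exact cols_not_interior hJ le_rfl hs (interior_mono (h.sub ht) hst)

end

end Pool.Agent.K3h35.Flip
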