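import Pool.Agent.K3h35.FlipVis

set_option autoImplicit false

namespace Pool.Agent.K3h35.Flip

open Set

open Classical in
/-- the weight of an ordered pair of points -/
noncomputable def W (M N : ℕ) (P : Set Pt) (a b : Pt) : ℝ :=
  if ∃ i, Unspoiled M N P i ∧ (∃ r ≤ M, a = pt (gs M) (i * (M + 2) + r)) ∧
    (∃ s ≤ M, b = pt (fs M) (i * (M + 2) + s)) then a.1 - b.1 else 0

/-- the weight of a segment -/
noncomputable def ww (M N : ℕ) (P : Set Pt) (a b : Pt) : ℝ := W M N P a b + W M N P b a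

/-- the weight of a triangle -/
noncomputable def om (M N : ℕ) (P : Set Pt) (t : Finset Pt) : ℝ := ∑ a ∈ t, ∑ b ∈ t, W M N P a b

section
variable {M N : ℕ} {P : Set Pt}

theorem W_self (a : Pt) : W M N P a a = 0 := by
  unfold W; split_ifs <;> simp

theorem ww_comm (a b : Pt) : ww M N P a b = ww M N P b a := add_comm _ _

theorem pt_ne (j j' : ℕ) : pt (gs M) j ≠ pt (fs M) j' := by
  intro h
  have h1 := congrArg Prod.fst h
  have h2 := congrArg Prod.snd h
  simp only [pt_fst, pt_snd, Nat.cast_inj] at h1 h2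
  subst h1
  have := gap_all M j
  linarith

theorem pt_inj {s : ℕ → ℝ} {j j' : ℕ} (h : pt s j = pt s j') : j = j' := by
  have h1 := congrArg Prod.fst h
  simpa only [pt_fst, Nat.cast_inj] using h1

theorem W_lower (j : ℕ) (b : Pt) : W M N P (pt (fs M) j) b = 0 := by
  unfold W
  rw [if_neg]
  rintro ⟨i, -, ⟨r, -, h⟩, -⟩
  exact pt_ne _ _ h.symm

theorem W_upper (j : ℕ) (a : Pt) : W M N P a (pt (gs M) j) = 0 := by
  unfold W
  rw [if_neg]
  rintro ⟨i, -, -, ⟨r, -, h⟩⟩
  exact pt_ne _ _ h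

theorem W_eval {i r s : ℕ} (hi : Unspoiled M N P i) (hr : r ≤ M) (hs : s ≤ M) :
    W M N P (pt (gs M) (i * (M + 2) + r)) (pt (fs M) (i * (M + 2) + s)) = (r : ℝ) - s := by
  unfold W
  rw [if_pos ⟨i, hi, ⟨r, hr, rfl⟩, ⟨s, hs, rfl⟩⟩]
  simp only [pt_fst]; push_cast; ring

theorem piece_unique {i i' r r' : ℕ} (hr : r ≤ M + 1) (hr' : r' ≤ M + 1)
    (h : i * (M + 2) + r = i' * (M + 2) + r') : i = i' ∧ r = r' := by
  have h1 : (i * (M + 2) + r) / (M + 2) = i := by
    rw [Nat.add_comm, Nat.add_mul_div_right _ _ (by omega), Nat.div_eq_of_lt (by omega)]; omega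
  have h2 : (i' * (M + 2) + r') / (M + 2) = i' := by
    rw [Nat.add_comm, Nat.add_mul_div_right _ _ (by omega), Nat.div_eq_of_lt (by omega)]; omega
  have h3 : i = i' := by rw [← h1, ← h2, h]
  subst h3
  exact ⟨rfl, by omega⟩

theorem W_ne_zero {j j' : ℕ} (h : W M N P (pt (gs M) j) (pt (fs M) j') ≠ 0) :
    ∃ i, Unspoiled M N P i ∧ ∃ r ≤ M, ∃ s ≤ M, j = i * (M + 2) + r ∧ j' = i * (M + 2) + s ∧ r ≠ s := by
  unfold W at h
  split_ifs at h with hc
  · obtain ⟨i, hi, ⟨r, hr, h1⟩, ⟨s, hs, h2⟩⟩ := hc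
    have h1' := pt_inj h1
    have h2' := pt_inj h2
    refine ⟨i, hi, r, hr, s, hs, h1', h2', ?_⟩
    rintro rfl
    apply h
    simp only [pt_fst]
    rw [h1', h2', sub_self]
  · exact absurd rfl h

theorem W_spoiled {i r s : ℕ} (hi : ¬ Unspoiled M N P i) (hr : r ≤ M) (_hs : s ≤ M) :
    W M N P (pt (gs M) (i * (M + 2) + r)) (pt (fs M) (i * (M + 2) + s)) = 0 := by
  by_contra hne
  obtain ⟨i', hi', r', hr', s', hs', h1, h2, -⟩ := W_ne_zero hne
  obtain ⟨rfl, -⟩ := piece_unique (by omega) (by omega) h1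
  exact hi hi'

/-- the weight of a segment joining an upper and a lower vertex -/
theorem ww_UL {j j' : ℕ} : ww M N P (pt (gs M) j) (pt (fs M) j') =
    W M N P (pt (gs M) j) (pt (fs M) j') := by
  unfold ww; rw [W_lower, add_zero]

theorem om_three {x y z : Pt} (hxy : x ≠ y) (hxz : x ≠ z) (hyz : y ≠ z) :
    om M N P {x, y, z} = ww M N P x y + ww M N P x z + ww M N P y z := by
  have hx : x ∉ ({y, z} : Finset Pt) := by simp [hxy, hxz]
  have hy : y ∉ ({z} : Finset Pt) := by simp [hyz]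
  unfold om ww
  simp only [Finset.sum_insert hx, Finset.sum_insert hy, Finset.sum_singleton, W_self]
  ring

/-- the weight of a triangle of a block -/
theorem om_tri {c w : ℕ} {a b : ℕ → ℕ} (B : Block (gs M) (fs M) c w a b) {k : ℕ} (hk : k < 2 * w) :
    om M N P (tri (gs M) (fs M) a b k) =
      W M N P (pt (gs M) (a k)) (pt (fs M) (b k)) +
      W M N P (pt (gs M) (a (k + 1))) (pt (fs M) (b (k + 1))) := by
  rcases B.tri_cases hk with ⟨h1, h2, h3⟩ | ⟨h1, h2, h3⟩
  · rw [h3, om_three (pt_ne _ _).symm (pt_ne _ _).symm (fun h => by have := pt_inj h; omega)]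
    unfold ww
    rw [W_lower, W_lower, W_upper, W_upper, h1, h2]
    ring
  · rw [h3, om_three (pt_ne _ _) (pt_ne _ _) (fun h => by have := pt_inj h; omega)]
    unfold ww
    rw [W_lower, W_lower, W_lower, W_lower, h1, h2]
    ring

theorem om_corA (i k : ℕ) (hk : k < 2 * 1) :
    om M N P (tri (gs M) (fs M) (fun k => i * (M + 2) + M + min k 1)
    (fun k => i * (M + 2) + M + (k - 1)) k) = 0 := by
  rw [om_tri (corA_block M i) hk]
  have key : ∀ r s : ℕ, r ≤ 1 → s ≤ 1 →
      W M N P (pt (gs M) (i * (M + 2) + M + r)) (pt (fs M) (i * (M + 2) + M + s)) = 0 := by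
    intro r s hr hs
    by_contra hne
    obtain ⟨i', hi', r', hr', s', hs', h1, h2, h3⟩ := W_ne_zero hne
    have h4 := (piece_unique (M := M) (i := i) (r := M + r) (i' := i') (r' := r') (by omega) (by omega)
      (by rw [← h1]; ring)).2
    have h5 := (piece_unique (M := M) (i := i) (r := M + s) (i' := i') (r' := s') (by omega) (by omega)
      (by rw [← h2]; ring)).2
    omega
  rw [key _ _ (by omega) (by omega), key _ _ (by omega) (by omega), add_zero]

theorem om_corB (i k : ℕ) (hk : k < 2 * 1) :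
    om M N P (tri (gs M) (fs M) (fun k => i * (M + 2) + M + 1 + (k - 1))
    (fun k => i * (M + 2) + M + 1 + min k 1) k) = 0 := by
  rw [om_tri (corB_block M i) hk]
  have key : ∀ r s : ℕ, r ≤ 1 → s ≤ 1 →
      W M N P (pt (gs M) (i * (M + 2) + M + 1 + r)) (pt (fs M) (i * (M + 2) + M + 1 + s)) = 0 := by
    intro r s hr hs
    by_contra hne
    obtain ⟨i', hi', r', hr', s', hs', h1, h2, h3⟩ := W_ne_zero hne
    interval_cases r
    · have h5 := (piece_unique (M := M) (i := i) (r := M + 1) (i' := i') (r' := r') (by omega) (by omega)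
        (by rw [← h1]; ring)).2
      omega
    · interval_cases s
      · have h5 := (piece_unique (M := M) (i := i) (r := M + 1) (i' := i') (r' := s') (by omega) (by omega)
          (by rw [← h2]; ring)).2
        omega
      · omega
  rw [key _ _ (by omega) (by omega), key _ _ (by omega) (by omega), add_zero]

theorem superSum_eq {α β : ℕ → ℕ} (h : LPath M α β) (i : ℕ) :
    superSum M α β (om M N P) i =
      ∑ k ∈ Finset.range (2 * M), (W M N P (pt (gs M) (i * (M + 2) + α k)) (pt (fs M) (i * (M + 2) + β k)) +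
      W M N P (pt (gs M) (i * (M + 2) + α (k + 1))) (pt (fs M) (i * (M + 2) + β (k + 1)))) := by
  unfold superSum
  rw [Finset.sum_eq_zero (fun k hk => om_corA i k (Finset.mem_range.1 hk)),
    Finset.sum_eq_zero (fun k hk => om_corB i k (Finset.mem_range.1 hk)), add_zero, add_zero]
  exact Finset.sum_congr rfl (fun k hk => om_tri (h.block i) (Finset.mem_range.1 hk))

theorem superSum_spoiled {α β : ℕ → ℕ} (h : LPath M α β) {i : ℕ} (hi : ¬ Unspoiled M N P i) :
    superSum M α β (om M N P) i = 0 := by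
  rw [superSum_eq h]
  refine Finset.sum_eq_zero (fun k hk => ?_)
  rw [Finset.mem_range] at hk
  obtain ⟨r1, r2⟩ := h.hr k hk.le
  obtain ⟨r3, r4⟩ := h.hr (k + 1) hk
  rw [W_spoiled hi r1 r2, W_spoiled hi r3 r4, add_zero]

theorem superSum_unspoiled {α β : ℕ → ℕ} (h : LPath M α β) {i : ℕ} (hi : Unspoiled M N P i) :
    superSum M α β (om M N P) i =
      ∑ k ∈ Finset.range (2 * M), (((α k : ℝ) - β k) + ((α (k + 1) : ℝ) - β (k + 1))) := by
  rw [superSum_eq h]
  refine Finset.sum_congr rfl (fun k hk => ?_)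
  rw [Finset.mem_range] at hk
  obtain ⟨r1, r2⟩ := h.hr k hk.le
  obtain ⟨r3, r4⟩ := h.hr (k + 1) hk
  rw [W_eval hi r1 r2, W_eval hi r3 r4]

/-- the weights of the diagonals of a convex quadrilateral differ by at most two -/
theorem flip_bound_aux {p q r s : Pt}
    (hr : r ∈ cols (gs M) (fs M) 0 (N * (M + 2)) ∪ P) (hs : s ∈ cols (gs M) (fs M) 0 (N * (M + 2)) ∪ P)
    (hpr : p ≠ r) (hps : p ≠ s) (hqr : q ≠ r) (hqs : q ≠ s) (hrs : r ≠ s)
    (h1 : segment ℝ p r ⊆ reg (gs M) (fs M) (N * (M + 2)) 0 (N * (M + 2)))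
    (h2 : segment ℝ p s ⊆ reg (gs M) (fs M) (N * (M + 2)) 0 (N * (M + 2)))
    (h3 : segment ℝ q r ⊆ reg (gs M) (fs M) (N * (M + 2)) 0 (N * (M + 2)))
    (h4 : segment ℝ q s ⊆ reg (gs M) (fs M) (N * (M + 2)) 0 (N * (M + 2)))
    (h5 : segment ℝ r s ⊆ reg (gs M) (fs M) (N * (M + 2)) 0 (N * (M + 2)))
    (hne : W M N P p q ≠ 0) : |ww M N P r s - ww M N P p q| ≤ 2 := by
  have hex : ∃ i, Unspoiled M N P i ∧ (∃ r ≤ M, p = pt (gs M) (i * (M + 2) + r)) ∧
    (∃ s ≤ M, q = pt (fs M) (i * (M + 2) + s)) := by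
    by_contra hcon
    apply hne
    unfold W
    rw [if_neg hcon]
  obtain ⟨i, hi, ⟨α, hα, rfl⟩, ⟨β, hβ, rfl⟩⟩ := hex
  rw [ww_UL, W_eval hi hα hβ]
  rw [W_eval hi hα hβ] at hne
  have hαβ : α ≠ β := by rintro rfl; exact hne (sub_self _)
  have hJ : (i + 1) * (M + 2) ≤ N * (M + 2) := Nat.mul_le_mul_right _ hi.1
  obtain ⟨ρ, hρ, hr'⟩ := hi.seen hα hβ hαβ hr hpr.symm hqr.symm h1 h3
  obtain ⟨σ, hσ, hs'⟩ := hi.seen hα hβ hαβ hs hps.symm hqs.symm h2 h4
  rcases hr' with ⟨rfl, hr'⟩ | ⟨rfl, hr'⟩ <;> rcases hs' with ⟨rfl, hs'⟩ | ⟨rfl, hs'⟩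
  · exfalso
    have hne' : ρ ≠ σ := by rintro rfl; exact hrs rfl
    rcases Nat.lt_or_ge ρ σ with h | h
    · exact not_vis_U hJ hσ (by omega) h5
    · exact not_vis_U hJ hρ (r := σ) (by omega) (by rw [segment_symm]; exact h5)
  · rw [ww_UL, W_eval hi hρ hσ]
    have c1 : |(ρ : ℝ) - α| ≤ 1 := by
      rcases hr' with h | h
      · rw [h]; push_cast; simp
      · rw [← h]; push_cast; simp
    have c2 : |(σ : ℝ) - β| ≤ 1 := by
      rcases hs' with h | h
      · rw [h]; push_cast; simp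
      · rw [← h]; push_cast; simp
    rw [abs_le] at c1 c2 ⊢
    constructor <;> linarith
  · rw [ww_comm, ww_UL, W_eval hi hσ hρ]
    have c1 : |(σ : ℝ) - α| ≤ 1 := by
      rcases hs' with h | h
      · rw [h]; push_cast; simp
      · rw [← h]; push_cast; simp
    have c2 : |(ρ : ℝ) - β| ≤ 1 := by
      rcases hr' with h | h
      · rw [h]; push_cast; simp
      · rw [← h]; push_cast; simp
    rw [abs_le] at c1 c2 ⊢
    constructor <;> linarith
  · exfalso
    have hne' : ρ ≠ σ := by rintro rfl; exact hrs rfl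
    rcases Nat.lt_or_ge ρ σ with h | h
    · exact not_vis_L hJ hσ (by omega) h5
    · exact not_vis_L hJ hρ (r := σ) (by omega) (by rw [segment_symm]; exact h5)

theorem flip_bound {p q r s : Pt}
    (hp : p ∈ cols (gs M) (fs M) 0 (N * (M + 2)) ∪ P) (hq : q ∈ cols (gs M) (fs M) 0 (N * (M + 2)) ∪ P)
    (hr : r ∈ cols (gs M) (fs M) 0 (N * (M + 2)) ∪ P) (hs : s ∈ cols (gs M) (fs M) 0 (N * (M + 2)) ∪ P)
    (hpq : p ≠ q) (hpr : p ≠ r) (hps : p ≠ s) (hqr : q ≠ r) (hqs : q ≠ s) (hrs : r ≠ s)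
    (h0 : segment ℝ p q ⊆ reg (gs M) (fs M) (N * (M + 2)) 0 (N * (M + 2)))
    (h1 : segment ℝ p r ⊆ reg (gs M) (fs M) (N * (M + 2)) 0 (N * (M + 2)))
    (h2 : segment ℝ p s ⊆ reg (gs M) (fs M) (N * (M + 2)) 0 (N * (M + 2)))
    (h3 : segment ℝ q r ⊆ reg (gs M) (fs M) (N * (M + 2)) 0 (N * (M + 2)))
    (h4 : segment ℝ q s ⊆ reg (gs M) (fs M) (N * (M + 2)) 0 (N * (M + 2)))
    (h5 : segment ℝ r s ⊆ reg (gs M) (fs M) (N * (M + 2)) 0 (N * (M + 2))) :
    |ww M N P r s - ww M N P p q| ≤ 2 := by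
  by_cases c1 : W M N P p q = 0
  · by_cases c2 : W M N P q p = 0
    · by_cases c3 : W M N P r s = 0
      · by_cases c4 : W M N P s r = 0
        · unfold ww; rw [c1, c2, c3, c4]; norm_num
        · have := flip_bound_aux (M := M) (N := N) (P := P) (p := s) (q := r) (r := p) (s := q) hp hq
            hps.symm hqs.symm hpr.symm hqr.symm hpq (by rw [segment_symm]; exact h2)
            (by rw [segment_symm]; exact h4) (by rw [segment_symm]; exact h1)
            (by rw [segment_symm]; exact h3) h0 c4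
          rw [abs_sub_comm, ww_comm r s]
          exact this
      · have := flip_bound_aux (M := M) (N := N) (P := P) (p := r) (q := s) (r := p) (s := q) hp hq
          hpr.symm hqr.symm hps.symm hqs.symm hpq (by rw [segment_symm]; exact h1)
          (by rw [segment_symm]; exact h3) (by rw [segment_symm]; exact h2)
          (by rw [segment_symm]; exact h4) h0 c3
        rw [abs_sub_comm]
        exact this
    · have := flip_bound_aux (M := M) (N := N) (P := P) (p := q) (q := p) (r := r) (s := s) hr hs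
        hqr hqs hpr hps hrs h3 h4 h1 h2 h5 c2
      rw [ww_comm p q]
      exact this
  · exact flip_bound_aux hr hs hpr hps hqr hqs hrs h1 h2 h3 h4 h5 c1

end

end Pool.Agent.K3h35.Flip
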