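import Pool.Agent.K3h35.FlipPot

set_option autoImplicit false

namespace Pool.Agent.K3h35.Flip

open Set

section
variable {M N : ℕ} {P : Set Pt}

theorem ne_of_card3 {x y z : Pt} (h : ({x, y, z} : Finset Pt).card = 3) : x ≠ y ∧ x ≠ z ∧ y ≠ z := by
  refine ⟨?_, ?_, ?_⟩
  · rintro rfl
    have : ({x, x, z} : Finset Pt) = {x, z} := by simp
    rw [this] at h
    have := Finset.card_le_two (a := x) (b := z)
    omega
  · rintro rfl
    have : ({x, y, x} : Finset Pt) = {x, y} := by
      ext w; simp only [Finset.mem_insert, Finset.mem_singleton]; tauto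
    rw [this] at h
    have := Finset.card_le_two (a := x) (b := y)
    omega
  · rintro rfl
    have : ({x, y, y} : Finset Pt) = {x, y} := by simp
    rw [this] at h
    have := Finset.card_le_two (a := x) (b := y)
    omega

theorem hull3_sub {R : Set Pt} {x y z : Pt} (h : hull ({x, y, z} : Finset Pt) ⊆ R) :
    segment ℝ x y ⊆ R ∧ segment ℝ x z ⊆ R ∧ segment ℝ y z ⊆ R := by
  rw [hull, coe3] at h
  have hx : x ∈ convexHull ℝ ({x, y, z} : Set Pt) := subset_convexHull ℝ _ (by simp)
  have hy : y ∈ convexHull ℝ ({x, y, z} : Set Pt) := subset_convexHull ℝ _ (by simp)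
  have hz : z ∈ convexHull ℝ ({x, y, z} : Set Pt) := subset_convexHull ℝ _ (by simp)
  have hc := convex_convexHull ℝ ({x, y, z} : Set Pt)
  exact ⟨(hc.segment_subset hx hy).trans h, (hc.segment_subset hx hz).trans h,
    (hc.segment_subset hy hz).trans h⟩

/-- overlapping triangles -/
theorem overlap {p r x : Pt} {A B : Finset Pt} (hcr : cr p r x ≠ 0) (h1 : p ∈ hull A)
    (h2 : r ∈ hull A) (h3 : x ∈ hull A) (h4 : p ∈ hull B) (h5 : r ∈ hull B) (h6 : x ∈ hull B) :
    ¬ Disjoint (interior (hull A)) (interior (hull B)) := by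
  intro hd
  obtain ⟨y, hy⟩ := interior_nonempty hcr
  have hA : convexHull ℝ ({p, r, x} : Set Pt) ⊆ hull A := by
    refine convexHull_min ?_ (convex_convexHull ℝ _)
    intro w hw
    simp only [mem_insert_iff, mem_singleton_iff] at hw
    rcases hw with rfl | rfl | rfl <;> assumption
  have hB : convexHull ℝ ({p, r, x} : Set Pt) ⊆ hull B := by
    refine convexHull_min ?_ (convex_convexHull ℝ _)
    intro w hw
    simp only [mem_insert_iff, mem_singleton_iff] at hw
    rcases hw with rfl | rfl | rfl <;> assumption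
  exact Set.disjoint_left.1 hd (interior_mono hA hy) (interior_mono hB hy)

theorem vert_mem_hull {t : Finset Pt} {x : Pt} (h : x ∈ t) : x ∈ hull t :=
  subset_convexHull ℝ _ (by exact_mod_cast h)

theorem seg_mem_hull {t : Finset Pt} {x y z : Pt} (hx : x ∈ t) (hy : y ∈ t)
    (h : z ∈ openSegment ℝ x y) : z ∈ hull t :=
  (convex_convexHull ℝ _).segment_subset (vert_mem_hull hx) (vert_mem_hull hy)
    (openSegment_subset_segment ℝ x y h)

/-- a flip changes the potential by at most four -/
theorem flip_step {T T' : Finset (Finset Pt)}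
    (h : FlipStep (reg (gs M) (fs M) (N * (M + 2)) 0 (N * (M + 2)))
      (cols (gs M) (fs M) 0 (N * (M + 2)) ∪ P) T T') :
    |∑ t ∈ T', om M N P t - ∑ t ∈ T, om M N P t| ≤ 4 := by
  obtain ⟨hT, hT', p, q, r, s, h1, h2, ⟨x, hx1, hx2⟩, rfl⟩ := h
  obtain ⟨c1, n1, s1⟩ := hT.triangle _ h1
  obtain ⟨c2, n2, s2⟩ := hT.triangle _ h2
  obtain ⟨hpq, hpr, hqr⟩ := ne_of_card3 c1
  obtain ⟨-, hps, hqs⟩ := ne_of_card3 c2
  rw [coe3, collinear_iff_cr] at n1 n2
  rw [coe3] at s1 s2
  obtain ⟨t, ht0, ht1, ht2, ht3⟩ := mem_oseg.1 hx1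
  have hrs : r ≠ s := by
    rintro rfl
    rw [openSegment_same, mem_singleton_iff] at hx2
    apply n1
    rw [← hx2]
    simp only [cr, ht2, ht3]
    ring
  have hcrp : cr p r x ≠ 0 := by
    have : cr p r x = -t * cr p q r := by simp only [cr, ht2, ht3]; ring
    rw [this]
    exact mul_ne_zero (by linarith) n1
  have hcrq : cr q r x ≠ 0 := by
    have : cr q r x = (1 - t) * cr p q r := by simp only [cr, ht2, ht3]; ring
    rw [this]
    exact mul_ne_zero (by linarith) n1
  have hsub : ∀ {U : Finset (Finset Pt)} {u : Finset Pt},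
      IsTriangulation (reg (gs M) (fs M) (N * (M + 2)) 0 (N * (M + 2)))
        (cols (gs M) (fs M) 0 (N * (M + 2)) ∪ P) U → u ∈ U →
      hull u ⊆ reg (gs M) (fs M) (N * (M + 2)) 0 (N * (M + 2)) := by
    intro U u hU hu
    rw [← hU.cover]
    exact subset_biUnion_of_mem (u := fun t => hull t) hu
  obtain ⟨v1, v2, v3⟩ := hull3_sub (hsub hT h1)
  obtain ⟨-, v4, v5⟩ := hull3_sub (hsub hT h2)
  have h3 : ({p, r, s} : Finset Pt) ∈ (T \ {{p, q, r}, {p, q, s}}) ∪ {{p, r, s}, {q, r, s}} := by
    simp
  obtain ⟨-, -, v6⟩ := hull3_sub (hsub hT' h3)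
  have hb := flip_bound (M := M) (N := N) (P := P) (s1 (by simp)) (s1 (by simp)) (s1 (by simp))
    (s2 (by simp)) hpq hpr hps hqr hqs hrs v1 v2 v4 v3 v5 v6
  -- the sums
  have e12 : ({p, q, r} : Finset Pt) ≠ {p, q, s} := by
    intro he
    have : r ∈ ({p, q, s} : Finset Pt) := by rw [← he]; simp
    simp only [Finset.mem_insert, Finset.mem_singleton] at this
    rcases this with h | h | h
    · exact hpr h.symm
    · exact hqr h.symm
    · exact hrs h
  have e34 : ({p, r, s} : Finset Pt) ≠ {q, r, s} := by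
    intro he
    have : p ∈ ({q, r, s} : Finset Pt) := by rw [← he]; simp
    simp only [Finset.mem_insert, Finset.mem_singleton] at this
    rcases this with h | h | h
    · exact hpq h
    · exact hpr h
    · exact hps h
  have e31 : ({p, q, r} : Finset Pt) ≠ {p, r, s} := by
    intro he
    have : q ∈ ({p, r, s} : Finset Pt) := by rw [← he]; simp
    simp only [Finset.mem_insert, Finset.mem_singleton] at this
    rcases this with h | h | h
    · exact hpq h.symm
    · exact hqr h
    · exact hqs h
  have e41 : ({p, q, r} : Finset Pt) ≠ {q, r, s} := by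
    intro he
    have : p ∈ ({q, r, s} : Finset Pt) := by rw [← he]; simp
    simp only [Finset.mem_insert, Finset.mem_singleton] at this
    rcases this with h | h | h
    · exact hpq h
    · exact hpr h
    · exact hps h
  have n3 : ({p, r, s} : Finset Pt) ∉ T := by
    intro hmem
    refine overlap hcrp (A := {p, q, r}) (B := {p, r, s}) (vert_mem_hull (by simp))
      (vert_mem_hull (by simp)) (seg_mem_hull (by simp) (by simp) hx1) (vert_mem_hull (by simp))
      (vert_mem_hull (by simp)) (seg_mem_hull (by simp) (by simp) hx2) (hT.disjoint _ h1 _ hmem e31)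
  have n4 : ({q, r, s} : Finset Pt) ∉ T := by
    intro hmem
    refine overlap hcrq (A := {p, q, r}) (B := {q, r, s}) (vert_mem_hull (by simp))
      (vert_mem_hull (by simp)) (seg_mem_hull (by simp) (by simp) hx1) (vert_mem_hull (by simp))
      (vert_mem_hull (by simp)) (seg_mem_hull (by simp) (by simp) hx2) (hT.disjoint _ h1 _ hmem e41)
  have hd : Disjoint (T \ {{p, q, r}, {p, q, s}}) ({{p, r, s}, {q, r, s}} : Finset (Finset Pt)) := by
    rw [Finset.disjoint_left]
    intro u hu hu'
    simp only [Finset.mem_insert, Finset.mem_singleton] at hu'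
    have hu'' := (Finset.mem_sdiff.1 hu).1
    rcases hu' with rfl | rfl
    · exact n3 hu''
    · exact n4 hu''
  have hs12 : ({{p, q, r}, {p, q, s}} : Finset (Finset Pt)) ⊆ T := by
    intro u hu
    simp only [Finset.mem_insert, Finset.mem_singleton] at hu
    rcases hu with rfl | rfl
    · exact h1
    · exact h2
  rw [Finset.sum_union hd, ← Finset.sum_sdiff hs12, Finset.sum_pair e12, Finset.sum_pair e34,
    om_three hpq hpr hqr, om_three hpq hps hqs, om_three hpr hps hrs, om_three hqr hqs hrs]
  rw [abs_le] at hb ⊢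
  constructor <;> linarith

theorem flip_path {L : ℕ} {T T' : Finset (Finset Pt)}
    (h : FlipPath (reg (gs M) (fs M) (N * (M + 2)) 0 (N * (M + 2)))
      (cols (gs M) (fs M) 0 (N * (M + 2)) ∪ P) L T T') :
    |∑ t ∈ T', om M N P t - ∑ t ∈ T, om M N P t| ≤ 4 * L := by
  induction h with
  | refl T => simp
  | @step L T T' T'' h1 _ ih =>
    have h2 := flip_step h1
    rw [abs_le] at h2 ih ⊢
    push_cast
    constructor <;> linarith

/-- inserting a point keeps the potential -/
theorem insert_sum {T T' : Finset (Finset Pt)} {p : Pt} (h : InsertPoint T p T')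
    (hc : ∀ t ∈ T, t.card = 3) (hp : ∀ t ∈ T, p ∉ t) (hW : ∀ x, ww M N P p x = 0) :
    ∑ t ∈ T', om M N P t = ∑ t ∈ T, om M N P t := by
  obtain ⟨t, ht, -, rfl⟩ := h
  have hpt := hp t ht
  have hd : Disjoint (T.erase t) (t.image fun a => insert p (t.erase a)) := by
    rw [Finset.disjoint_left]
    intro u hu hu'
    rw [Finset.mem_image] at hu'
    obtain ⟨a, -, rfl⟩ := hu'
    exact hp _ (Finset.mem_of_mem_erase hu) (Finset.mem_insert_self _ _)
  have hinj : Set.InjOn (fun a => insert p (t.erase a)) (t : Set Pt) := by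
    intro a ha b hb hab
    by_contra hne
    simp only at hab
    have h1 : a ∈ insert p (t.erase b) :=
      Finset.mem_insert_of_mem (Finset.mem_erase.2 ⟨hne, ha⟩)
    rw [← hab, Finset.mem_insert] at h1
    rcases h1 with h1 | h1
    · exact hpt (h1 ▸ ha)
    · exact (Finset.mem_erase.1 h1).1 rfl
  rw [Finset.sum_union hd, Finset.sum_image hinj, ← Finset.add_sum_erase T _ ht, add_comm]
  congr 1
  obtain ⟨x, y, z, hxy, hxz, hyz, rfl⟩ := Finset.card_eq_three.1 (hc t ht)
  simp only [Finset.mem_insert, Finset.mem_singleton, not_or] at hpt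
  obtain ⟨hpx, hpy, hpz⟩ := hpt
  have hx : x ∉ ({y, z} : Finset Pt) := by simp [hxy, hxz]
  have hy : y ∉ ({z} : Finset Pt) := by simp [hyz]
  rw [Finset.sum_insert hx, Finset.sum_insert hy, Finset.sum_singleton]
  have e1 : insert p (({x, y, z} : Finset Pt).erase x) = {p, y, z} := by
    ext w
    simp only [Finset.mem_insert, Finset.mem_erase, Finset.mem_singleton]
    constructor
    · rintro (h | ⟨h1, h | h | h⟩) <;> tauto
    · rintro (h | rfl | rfl)
      · exact Or.inl h
      · exact Or.inr ⟨hxy.symm, by tauto⟩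
      · exact Or.inr ⟨hxz.symm, by tauto⟩
  have e2 : insert p (({x, y, z} : Finset Pt).erase y) = {p, x, z} := by
    ext w
    simp only [Finset.mem_insert, Finset.mem_erase, Finset.mem_singleton]
    constructor
    · rintro (h | ⟨h1, h | h | h⟩) <;> tauto
    · rintro (h | rfl | rfl)
      · exact Or.inl h
      · exact Or.inr ⟨hxy, by tauto⟩
      · exact Or.inr ⟨hyz.symm, by tauto⟩
  have e3 : insert p (({x, y, z} : Finset Pt).erase z) = {p, x, y} := by
    ext w
    simp only [Finset.mem_insert, Finset.mem_erase, Finset.mem_singleton]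
    constructor
    · rintro (h | ⟨h1, h | h | h⟩) <;> tauto
    · rintro (h | rfl | rfl)
      · exact Or.inl h
      · exact Or.inr ⟨hxz, by tauto⟩
      · exact Or.inr ⟨hyz, by tauto⟩
  rw [e1, e2, e3, om_three hpy hpz hyz, om_three hpx hpz hxz, om_three hpx hpy hxy,
    om_three hxy hxz hyz, hW, hW, hW]
  ring

end

end Pool.Agent.K3h35.Flip
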