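import Pool.Agent.K3h35.FlipPoly

set_option autoImplicit false

namespace Pool.Agent.K3h35.Flip

open Set

/-- the height scale -/
noncomputable def hh (M : ℕ) : ℝ := ((M : ℝ) + 1) ^ 2

theorem hh_pos (M : ℕ) : 0 < hh M := by unfold hh; positivity

/-- the profile of a piece -/
noncomputable def prof (M : ℕ) (r : ℝ) : ℝ := hh M - r * (M - r)

/-- the heights of the upper chain -/
noncomputable def gs (M : ℕ) (j : ℕ) : ℝ :=
  if j % (M + 2) = M + 1 then 5 * hh M else prof M ((j % (M + 2) : ℕ) : ℝ)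

/-- the heights of the lower chain -/
noncomputable def fs (M : ℕ) (j : ℕ) : ℝ :=
  if j % (M + 2) = M + 1 then 4 * hh M else -prof M ((j % (M + 2) : ℕ) : ℝ)

theorem mod_piece {M i r : ℕ} (hr : r ≤ M + 1) : (i * (M + 2) + r) % (M + 2) = r :=
  Nat.mul_add_mod_of_lt (by omega)

theorem gs_piece {M i r : ℕ} (hr : r ≤ M) : gs M (i * (M + 2) + r) = prof M r := by
  unfold gs
  rw [mod_piece (by omega), if_neg (by omega)]

theorem fs_piece {M i r : ℕ} (hr : r ≤ M) : fs M (i * (M + 2) + r) = -prof M r := by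
  unfold fs
  rw [mod_piece (by omega), if_neg (by omega)]

theorem gs_peak {M i : ℕ} : gs M (i * (M + 2) + (M + 1)) = 5 * hh M := by
  unfold gs
  rw [mod_piece (by omega), if_pos rfl]

theorem fs_peak {M i : ℕ} : fs M (i * (M + 2) + (M + 1)) = 4 * hh M := by
  unfold fs
  rw [mod_piece (by omega), if_pos rfl]

theorem prof_pos {M : ℕ} {r : ℝ} (_h0 : 0 ≤ r) (_h1 : r ≤ M) : 0 < prof M r := by
  unfold prof hh
  nlinarith [sq_nonneg (2 * r - M), mul_nonneg _h0 (sub_nonneg.2 _h1)]

theorem prof_le {M : ℕ} {r : ℝ} (h0 : 0 ≤ r) (h1 : r ≤ M) : prof M r ≤ hh M := by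
  unfold prof
  nlinarith [mul_nonneg h0 (sub_nonneg.2 h1)]

theorem prof_zero (M : ℕ) : prof M 0 = hh M := by unfold prof; ring
theorem prof_self (M : ℕ) : prof M M = hh M := by unfold prof; ring

theorem gap_all (M j : ℕ) : fs M j < gs M j := by
  unfold fs gs
  split_ifs with h
  · have := hh_pos M; linarith
  · have h1 : j % (M + 2) < M + 2 := Nat.mod_lt _ (by omega)
    have h2 : ((j % (M + 2) : ℕ) : ℝ) ≤ M := by
      have : j % (M + 2) ≤ M := by omega
      exact_mod_cast this
    have := prof_pos (Nat.cast_nonneg (j % (M + 2))) h2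
    linarith

/-- the bracket -/
theorem bracket {M : ℕ} {α β ρ : ℝ} (h1 : 0 ≤ α) (h2 : α ≤ M) (h3 : 0 ≤ β) (h4 : β ≤ M)
    (h5 : 0 ≤ ρ) (h6 : ρ ≤ M) : |(α - β) * (ρ + α - M)| < prof M α + prof M β ∧
      |(α - β) * (ρ + β - M)| < prof M α + prof M β := by
  unfold prof hh
  have a1 : |α - β| ≤ M := by rw [abs_le]; constructor <;> linarith
  have a2 : |ρ + α - M| ≤ M := by rw [abs_le]; constructor <;> linarith
  have a3 : |ρ + β - M| ≤ M := by rw [abs_le]; constructor <;> linarith
  have hM : (0 : ℝ) ≤ M := Nat.cast_nonneg M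
  have b1 : |(α - β) * (ρ + α - M)| ≤ M * M := by
    rw [abs_mul]; exact mul_le_mul a1 a2 (abs_nonneg _) hM
  have b2 : |(α - β) * (ρ + β - M)| ≤ M * M := by
    rw [abs_mul]; exact mul_le_mul a1 a3 (abs_nonneg _) hM
  constructor <;> nlinarith [sq_nonneg (2 * α - M), sq_nonneg (2 * β - M)]

theorem sd_piece_U {M i : ℕ} {α β ρ : ℕ} (hα : α ≤ M) (hβ : β ≤ M) (hρ : ρ ≤ M) :
    sd (gs M) (fs M) (i * (M + 2) + α) (i * (M + 2) + β) (pt (gs M) (i * (M + 2) + ρ)) =
      ((ρ : ℝ) - α) * ((prof M α + prof M β) - ((α : ℝ) - β) * (ρ + α - M)) := by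
  simp only [sd, pt_fst, pt_snd]
  rw [gs_piece hα, gs_piece hρ, fs_piece hβ]
  unfold prof
  push_cast
  ring

theorem sd_piece_L {M i : ℕ} {α β ρ : ℕ} (hα : α ≤ M) (hβ : β ≤ M) (hρ : ρ ≤ M) :
    sd (gs M) (fs M) (i * (M + 2) + α) (i * (M + 2) + β) (pt (fs M) (i * (M + 2) + ρ)) =
      ((ρ : ℝ) - β) * ((prof M α + prof M β) + ((α : ℝ) - β) * (ρ + β - M)) := by
  simp only [sd, pt_fst, pt_snd]
  rw [gs_piece hα, fs_piece hρ, fs_piece hβ]
  unfold prof
  push_cast
  ring

/-- A lattice path inside a piece gives a block. -/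
theorem piece_block {M : ℕ} (i : ℕ) (α β : ℕ → ℕ) (h0 : α 0 = 0) (h0' : β 0 = 0)
    (h1 : α (2 * M) = M) (h1' : β (2 * M) = M)
    (hs : ∀ k < 2 * M, (α (k + 1) = α k + 1 ∧ β (k + 1) = β k) ∨
      (α (k + 1) = α k ∧ β (k + 1) = β k + 1))
    (hr : ∀ k ≤ 2 * M, α k ≤ M ∧ β k ≤ M) :
    Block (gs M) (fs M) (i * (M + 2)) M (fun k => i * (M + 2) + α k)
      (fun k => i * (M + 2) + β k) := by
  have key : ∀ k ≤ 2 * M, ∀ ρ ≤ M, 0 < (prof M (α k) + prof M (β k)) -
      ((α k : ℝ) - β k) * (ρ + α k - M) ∧ 0 < (prof M (α k) + prof M (β k)) +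
      ((α k : ℝ) - β k) * (ρ + β k - M) := by
    intro k hk ρ hρ
    obtain ⟨r1, r2⟩ := hr k hk
    have := bracket (M := M) (α := α k) (β := β k) (ρ := ρ) (Nat.cast_nonneg _)
      (by exact_mod_cast r1) (Nat.cast_nonneg _) (by exact_mod_cast r2) (Nat.cast_nonneg _)
      (by exact_mod_cast hρ)
    have t1 := (abs_lt.1 this.1).2
    have t2 := (abs_lt.1 this.2).1
    constructor <;> linarith
  refine ⟨by simp [h0], by simp [h0'], by simp [h1], by simp [h1'], ?_, ?_, ?_, ?_, ?_, ?_, ?_⟩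
  · intro k hk
    rcases hs k hk with h | h <;> omega
  · intro k hk
    obtain ⟨r1, r2⟩ := hr k hk
    omega
  · intro k hk
    obtain ⟨r1, r2⟩ := hr k hk
    rw [gs_piece r1, fs_piece r2]
    have := prof_pos (M := M) (r := α k) (Nat.cast_nonneg _) (by exact_mod_cast r1)
    have := prof_pos (M := M) (r := β k) (Nat.cast_nonneg _) (by exact_mod_cast r2)
    linarith
  · intro k hk j hj1 hj2
    obtain ⟨r1, r2⟩ := hr k hk
    obtain ⟨ρ, rfl⟩ : ∃ ρ, j = i * (M + 2) + ρ := ⟨j - i * (M + 2), by omega⟩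
    rw [sd_piece_U r1 r2 (by omega)]
    have : (α k : ℝ) < ρ := by
      have : α k < ρ := by omega
      exact_mod_cast this
    exact mul_pos (by linarith) (key k hk ρ (by omega)).1
  · intro k hk j hj1 hj2
    obtain ⟨r1, r2⟩ := hr k hk
    obtain ⟨ρ, rfl⟩ : ∃ ρ, j = i * (M + 2) + ρ := ⟨j - i * (M + 2), by omega⟩
    rw [sd_piece_U r1 r2 (by omega)]
    have : (ρ : ℝ) < α k := by
      have : ρ < α k := by omega
      exact_mod_cast this
    exact mul_neg_of_neg_of_pos (by linarith) (key k hk ρ (by omega)).1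
  · intro k hk j hj1 hj2
    obtain ⟨r1, r2⟩ := hr k hk
    obtain ⟨ρ, rfl⟩ : ∃ ρ, j = i * (M + 2) + ρ := ⟨j - i * (M + 2), by omega⟩
    rw [sd_piece_L r1 r2 (by omega)]
    have : (β k : ℝ) < ρ := by
      have : β k < ρ := by omega
      exact_mod_cast this
    exact mul_pos (by linarith) (key k hk ρ (by omega)).2
  · intro k hk j hj1 hj2
    obtain ⟨r1, r2⟩ := hr k hk
    obtain ⟨ρ, rfl⟩ : ∃ ρ, j = i * (M + 2) + ρ := ⟨j - i * (M + 2), by omega⟩
    rw [sd_piece_L r1 r2 (by omega)]
    have : (ρ : ℝ) < β k := by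
      have : ρ < β k := by omega
      exact_mod_cast this
    exact mul_neg_of_neg_of_pos (by linarith) (key k hk ρ (by omega)).2

/-- a slab of width one, split by the diagonal from the upper right to the lower left vertex -/
theorem slab_block_A {G F : ℕ → ℝ} (c : ℕ) (h0 : F c < G c) (h1 : F (c + 1) < G (c + 1))
    (h2 : F c < G (c + 1)) :
    Block G F c 1 (fun k => c + min k 1) (fun k => c + (k - 1)) := by
  refine ⟨by simp, by simp, by simp, by simp, ?_, ?_, ?_, ?_, ?_, ?_, ?_⟩
  · intro k hk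
    interval_cases k <;> simp
  · intro k hk
    omega
  · intro k hk
    interval_cases k
    · simpa using h0
    · simpa using h2
    · simpa using h1
  · intro k hk j hj1 hj2
    interval_cases k
    · simp only [Nat.zero_min, Nat.zero_sub, add_zero] at hj1 ⊢
      obtain rfl : j = c + 1 := by omega
      simp only [sd, pt_fst, pt_snd]; push_cast; linarith
    · simp only [min_self, Nat.sub_self, add_zero] at hj1 ⊢; omega
    · simp only [show min 2 1 = 1 by rfl] at hj1; omega
  · intro k hk j hj1 hj2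
    interval_cases k
    · simp only [Nat.zero_min, Nat.zero_sub, add_zero] at hj2 ⊢; omega
    · simp only [min_self, Nat.sub_self, add_zero] at hj2 ⊢
      obtain rfl : j = c := by omega
      simp only [sd, pt_fst, pt_snd]; push_cast; linarith
    · simp only [show min 2 1 = 1 by rfl, show 2 - 1 = 1 by rfl] at hj2 ⊢
      obtain rfl : j = c := by omega
      simp only [sd, pt_fst, pt_snd]; push_cast; linarith
  · intro k hk j hj1 hj2
    interval_cases k
    · simp only [Nat.zero_min, Nat.zero_sub, add_zero] at hj1 ⊢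
      obtain rfl : j = c + 1 := by omega
      simp only [sd, pt_fst, pt_snd]; push_cast; linarith
    · simp only [min_self, Nat.sub_self, add_zero] at hj1 ⊢
      obtain rfl : j = c + 1 := by omega
      simp only [sd, pt_fst, pt_snd]; push_cast; linarith
    · simp only [show 2 - 1 = 1 by rfl] at hj1; omega
  · intro k hk j hj1 hj2
    interval_cases k
    · simp only [Nat.zero_sub, add_zero] at hj2; omega
    · simp only [Nat.sub_self, add_zero] at hj2; omega
    · simp only [show min 2 1 = 1 by rfl, show 2 - 1 = 1 by rfl] at hj2 ⊢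
      obtain rfl : j = c := by omega
      simp only [sd, pt_fst, pt_snd]; push_cast; linarith

/-- a slab of width one, split by the diagonal from the upper left to the lower right vertex -/
theorem slab_block_B {G F : ℕ → ℝ} (c : ℕ) (h0 : F c < G c) (h1 : F (c + 1) < G (c + 1))
    (h2 : F (c + 1) < G c) :
    Block G F c 1 (fun k => c + (k - 1)) (fun k => c + min k 1) := by
  refine ⟨by simp, by simp, by simp, by simp, ?_, ?_, ?_, ?_, ?_, ?_, ?_⟩
  · intro k hk
    interval_cases k <;> simp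
  · intro k hk
    omega
  · intro k hk
    interval_cases k
    · simpa using h0
    · simpa using h2
    · simpa using h1
  · intro k hk j hj1 hj2
    interval_cases k
    · simp only [Nat.zero_min, Nat.zero_sub, add_zero] at hj1 ⊢
      obtain rfl : j = c + 1 := by omega
      simp only [sd, pt_fst, pt_snd]; push_cast; linarith
    · simp only [min_self, Nat.sub_self, add_zero] at hj1 ⊢
      obtain rfl : j = c + 1 := by omega
      simp only [sd, pt_fst, pt_snd]; push_cast; linarith
    · simp only [show 2 - 1 = 1 by rfl] at hj1; omega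
  · intro k hk j hj1 hj2
    interval_cases k
    · simp only [Nat.zero_sub, add_zero] at hj2; omega
    · simp only [Nat.sub_self, add_zero] at hj2; omega
    · simp only [show min 2 1 = 1 by rfl, show 2 - 1 = 1 by rfl] at hj2 ⊢
      obtain rfl : j = c := by omega
      simp only [sd, pt_fst, pt_snd]; push_cast; linarith
  · intro k hk j hj1 hj2
    interval_cases k
    · simp only [Nat.zero_min, Nat.zero_sub, add_zero] at hj1 ⊢
      obtain rfl : j = c + 1 := by omega
      simp only [sd, pt_fst, pt_snd]; push_cast; linarith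
    · simp only [min_self, Nat.sub_self, add_zero] at hj1 ⊢; omega
    · simp only [show min 2 1 = 1 by rfl] at hj1; omega
  · intro k hk j hj1 hj2
    interval_cases k
    · simp only [Nat.zero_min, add_zero] at hj2; omega
    · simp only [min_self, Nat.sub_self, add_zero] at hj2 ⊢
      obtain rfl : j = c := by omega
      simp only [sd, pt_fst, pt_snd]; push_cast; linarith
    · simp only [show min 2 1 = 1 by rfl, show 2 - 1 = 1 by rfl] at hj2 ⊢
      obtain rfl : j = c := by omega
      simp only [sd, pt_fst, pt_snd]; push_cast; linarith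

/-- the corridor between two pieces -/
noncomputable def corA (M i : ℕ) : Finset (Finset Pt) :=
  (Finset.range (2 * 1)).image (tri (gs M) (fs M) (fun k => i * (M + 2) + M + min k 1)
    (fun k => i * (M + 2) + M + (k - 1)))

noncomputable def corB (M i : ℕ) : Finset (Finset Pt) :=
  (Finset.range (2 * 1)).image (tri (gs M) (fs M) (fun k => i * (M + 2) + M + 1 + (k - 1))
    (fun k => i * (M + 2) + M + 1 + min k 1))

/-- the triangles of a piece -/
noncomputable def pieceT (M : ℕ) (α β : ℕ → ℕ) (i : ℕ) : Finset (Finset Pt) :=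
  (Finset.range (2 * M)).image (tri (gs M) (fs M) (fun k => i * (M + 2) + α k)
    (fun k => i * (M + 2) + β k))

/-- the full triangulation -/
noncomputable def fullT (M : ℕ) (α β : ℕ → ℕ) : ℕ → Finset (Finset Pt)
  | 0 => ∅
  | (N + 1) => fullT M α β N ∪ (pieceT M α β N ∪ corA M N ∪ corB M N)

theorem corA_block (M i : ℕ) : Block (gs M) (fs M) (i * (M + 2) + M) 1
    (fun k => i * (M + 2) + M + min k 1) (fun k => i * (M + 2) + M + (k - 1)) := by
  refine slab_block_A _ (gap_all M _) (gap_all M _) ?_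
  rw [fs_piece le_rfl, show i * (M + 2) + M + 1 = i * (M + 2) + (M + 1) by omega, gs_peak, prof_self]
  have := hh_pos M
  linarith

theorem corB_block (M i : ℕ) : Block (gs M) (fs M) (i * (M + 2) + M + 1) 1
    (fun k => i * (M + 2) + M + 1 + (k - 1)) (fun k => i * (M + 2) + M + 1 + min k 1) := by
  refine slab_block_B _ (gap_all M _) (gap_all M _) ?_
  rw [show i * (M + 2) + M + 1 + 1 = (i + 1) * (M + 2) + 0 by ring, fs_piece (Nat.zero_le _),
    show i * (M + 2) + M + 1 = i * (M + 2) + (M + 1) by omega, gs_peak, Nat.cast_zero, prof_zero]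
  have := hh_pos M
  linarith

/-- a monotone lattice path in a piece -/
structure LPath (M : ℕ) (α β : ℕ → ℕ) : Prop where
  h0 : α 0 = 0
  h0' : β 0 = 0
  h1 : α (2 * M) = M
  h1' : β (2 * M) = M
  hs : ∀ k < 2 * M, (α (k + 1) = α k + 1 ∧ β (k + 1) = β k) ∨
      (α (k + 1) = α k ∧ β (k + 1) = β k + 1)
  hr : ∀ k ≤ 2 * M, α k ≤ M ∧ β k ≤ M

theorem LPath.block {M : ℕ} {α β : ℕ → ℕ} (h : LPath M α β) (i : ℕ) :
    Block (gs M) (fs M) (i * (M + 2)) M (fun k => i * (M + 2) + α k)
      (fun k => i * (M + 2) + β k) :=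
  piece_block i α β h.h0 h.h0' h.h1 h.h1' h.hs h.hr

/-- the sum of a weight over a superblock -/
noncomputable def superSum (M : ℕ) (α β : ℕ → ℕ) (ω : Finset Pt → ℝ) (i : ℕ) : ℝ :=
  ∑ k ∈ Finset.range (2 * M), ω (tri (gs M) (fs M) (fun k => i * (M + 2) + α k)
    (fun k => i * (M + 2) + β k) k) +
  ∑ k ∈ Finset.range (2 * 1), ω (tri (gs M) (fs M) (fun k => i * (M + 2) + M + min k 1)
    (fun k => i * (M + 2) + M + (k - 1)) k) +
  ∑ k ∈ Finset.range (2 * 1), ω (tri (gs M) (fs M) (fun k => i * (M + 2) + M + 1 + (k - 1))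
    (fun k => i * (M + 2) + M + 1 + min k 1) k)

theorem LPath.super {M : ℕ} {α β : ℕ → ℕ} (h : LPath M α β) (hM : 0 < M) {i J : ℕ}
    (hJ : (i + 1) * (M + 2) ≤ J) (ω : Finset Pt → ℝ) :
    Tri (gs M) (fs M) J (i * (M + 2)) ((i + 1) * (M + 2))
      (pieceT M α β i ∪ corA M i ∪ corB M i) ∧
    ∑ t ∈ pieceT M α β i ∪ corA M i ∪ corB M i, ω t = superSum M α β ω i := by
  have e : (i + 1) * (M + 2) = i * (M + 2) + M + 1 + 1 := by ring
  have t1 := (h.block i).tri_of (J := J) (by omega) hM
  have t2 := (corA_block M i).tri_of (J := J) (by omega) one_pos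
  have t3 := (corB_block M i).tri_of (J := J) (by omega) one_pos
  obtain ⟨g1, d1⟩ := Tri.glue (by omega) (by omega) t1 t2
  obtain ⟨g2, d2⟩ := Tri.glue (by omega) (by omega) g1 t3
  refine ⟨by rw [e]; exact g2, ?_⟩
  unfold superSum
  have s1 : ∑ t ∈ pieceT M α β i ∪ corA M i ∪ corB M i, ω t =
      ∑ t ∈ pieceT M α β i ∪ corA M i, ω t + ∑ t ∈ corB M i, ω t := Finset.sum_union d2
  have s2 : ∑ t ∈ pieceT M α β i ∪ corA M i, ω t =
      ∑ t ∈ pieceT M α β i, ω t + ∑ t ∈ corA M i, ω t := Finset.sum_union d1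
  rw [s1, s2]
  congr 1
  · congr 1
    · exact Finset.sum_image (h.block i).injOn
    · exact Finset.sum_image (corA_block M i).injOn
  · exact Finset.sum_image (corB_block M i).injOn

theorem LPath.full {M : ℕ} {α β : ℕ → ℕ} (h : LPath M α β) (hM : 0 < M) {J : ℕ}
    (ω : Finset Pt → ℝ) (N : ℕ) (hN : 1 ≤ N) : N * (M + 2) ≤ J →
    Tri (gs M) (fs M) J 0 (N * (M + 2)) (fullT M α β N) ∧
    ∑ t ∈ fullT M α β N, ω t = ∑ i ∈ Finset.range N, superSum M α β ω i := by
  induction N, hN using Nat.le_induction with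
  | base =>
    intro hJ
    have := h.super hM (i := 0) (J := J) (by omega) ω
    have e : fullT M α β 1 = pieceT M α β 0 ∪ corA M 0 ∪ corB M 0 := by
      simp [fullT]
    rw [e, Finset.sum_range_one]
    simpa using this
  | succ N hN ih =>
    intro hJ
    have e : (N + 1) * (M + 2) = N * (M + 2) + (M + 2) := by ring
    obtain ⟨g1, s1⟩ := ih (by omega)
    obtain ⟨g2, s2⟩ := h.super hM (i := N) (J := J) hJ ω
    obtain ⟨g3, d3⟩ := Tri.glue (Nat.zero_le _) (by omega) g1 g2
    refine ⟨g3, ?_⟩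
    rw [Finset.sum_range_succ, ← s1, ← s2]
    exact Finset.sum_union d3

end Pool.Agent.K3h35.Flip
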