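import Pool.Agent.K3h35.FlipTri

set_option autoImplicit false

namespace Pool.Agent.K3h35.Flip

open Set

theorem prof_succ_lt {M : ℕ} {r t : ℝ} (ht : 2 ≤ t - r) :
    prof M (r + 1) < (1 - 1 / (t - r)) * prof M r + 1 / (t - r) * prof M t := by
  have hD : 0 < t - r := by linarith
  have e : (1 - 1 / (t - r)) * prof M r + 1 / (t - r) * prof M t = prof M r + (r + t - M) := by
    unfold prof
    field_simp
    ring
  rw [e]
  unfold prof
  linarith

/-- (G2) two upper vertices of a piece at distance at least two do not see each other -/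
theorem not_vis_U {M J i r t : ℕ} (hJ : (i + 1) * (M + 2) ≤ J) (ht : t ≤ M) (hrt : r + 2 ≤ t) :
    ¬ segment ℝ (pt (gs M) (i * (M + 2) + r)) (pt (gs M) (i * (M + 2) + t)) ⊆
      reg (gs M) (fs M) J 0 J := by
  intro hsub
  have e0 : (i + 1) * (M + 2) = i * (M + 2) + M + 2 := by ring
  have hrt' : (2 : ℝ) ≤ (t : ℝ) - r := by
    have : (r : ℝ) + 2 ≤ t := by exact_mod_cast hrt
    linarith
  have hD : (0 : ℝ) < (t : ℝ) - r := by linarith
  have hx := hsub (a := (((i * (M + 2) + r + 1 : ℕ) : ℝ),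
    (1 - 1 / ((t : ℝ) - r)) * prof M r + 1 / ((t : ℝ) - r) * prof M t)) (by
      rw [mem_seg]
      refine ⟨1 / ((t : ℝ) - r), by positivity, by rw [div_le_one hD]; linarith, ?_, ?_⟩
      · simp only [pt_fst]
        push_cast
        field_simp
        ring
      · simp only [pt_snd]
        rw [gs_piece (by omega), gs_piece ht])
  have h4 : _ ≤ pl (gs M) J ((i * (M + 2) + r + 1 : ℕ) : ℝ) := hx.2.2.2
  rw [pl_nat (by omega) (by omega), show i * (M + 2) + r + 1 = i * (M + 2) + (r + 1) by ring,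
    gs_piece (by omega)] at h4
  have := prof_succ_lt (M := M) hrt'
  push_cast at h4
  linarith

/-- (G2) the same for two lower vertices -/
theorem not_vis_L {M J i r t : ℕ} (hJ : (i + 1) * (M + 2) ≤ J) (ht : t ≤ M) (hrt : r + 2 ≤ t) :
    ¬ segment ℝ (pt (fs M) (i * (M + 2) + r)) (pt (fs M) (i * (M + 2) + t)) ⊆
      reg (gs M) (fs M) J 0 J := by
  intro hsub
  have e0 : (i + 1) * (M + 2) = i * (M + 2) + M + 2 := by ring
  have hrt' : (2 : ℝ) ≤ (t : ℝ) - r := by
    have : (r : ℝ) + 2 ≤ t := by exact_mod_cast hrt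
    linarith
  have hD : (0 : ℝ) < (t : ℝ) - r := by linarith
  have hx := hsub (a := (((i * (M + 2) + r + 1 : ℕ) : ℝ),
    -((1 - 1 / ((t : ℝ) - r)) * prof M r + 1 / ((t : ℝ) - r) * prof M t))) (by
      rw [mem_seg]
      refine ⟨1 / ((t : ℝ) - r), by positivity, by rw [div_le_one hD]; linarith, ?_, ?_⟩
      · simp only [pt_fst]
        push_cast
        field_simp
        ring
      · simp only [pt_snd]
        rw [fs_piece (by omega), fs_piece ht]
        ring)
  have h4 : pl (fs M) J ((i * (M + 2) + r + 1 : ℕ) : ℝ) ≤ _ := hx.2.2.1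
  rw [pl_nat (by omega) (by omega), show i * (M + 2) + r + 1 = i * (M + 2) + (r + 1) by ring,
    fs_piece (by omega)] at h4
  have := prof_succ_lt (M := M) hrt'
  push_cast at h4
  linarith

/-- (G1) a point of a piece, not in its last column, does not see beyond the next peak -/
theorem not_vis_right {M J i r : ℕ} (hJ : (i + 1) * (M + 2) ≤ J) (hr : r < M) {p q : Pt}
    (hp : p.1 = ((i * (M + 2) + r : ℕ) : ℝ)) (hp2 : -hh M ≤ p.2)
    (hq : ((i * (M + 2) + (M + 1) : ℕ) : ℝ) ≤ q.1) :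
    ¬ segment ℝ p q ⊆ reg (gs M) (fs M) J 0 J := by
  intro hsub
  have hh0 := hh_pos M
  have e0 : (i + 1) * (M + 2) = i * (M + 2) + M + 2 := by ring
  set X : ℝ := ((i * (M + 2) + M : ℕ) : ℝ) with hX
  have hX1 : ((i * (M + 2) + (M + 1) : ℕ) : ℝ) = X + 1 := by rw [hX]; push_cast; ring
  rw [hX1] at hq
  have hpX : p.1 + 1 ≤ X := by
    rw [hp, hX]
    have : i * (M + 2) + r + 1 ≤ i * (M + 2) + M := by omega
    exact_mod_cast this
  have hD : 0 < q.1 - p.1 := by linarith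
  -- the slope
  set σ : ℝ := (q.2 - p.2) / (q.1 - p.1) with hσ
  have hσ' : σ * (q.1 - p.1) = q.2 - p.2 := by rw [hσ]; field_simp
  have hmem : ∀ x, p.1 ≤ x → x ≤ q.1 → ((x, p.2 + (x - p.1) * σ) : Pt) ∈ reg (gs M) (fs M) J 0 J := by
    intro x h1 h2
    apply hsub
    rw [mem_seg]
    refine ⟨(x - p.1) / (q.1 - p.1), div_nonneg (by linarith) hD.le,
      (div_le_one hD).2 (by linarith), ?_, ?_⟩
    · simp only; field_simp; ring
    · simp only
      rw [hσ]
      field_simp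
      ring
  have m1 := (hmem X (by linarith) (by linarith)).2.2.2
  have m2 := (hmem (X + 1) (by linarith) hq).2.2.1
  simp only at m1 m2
  rw [← hX1, pl_nat (by omega) (by omega), fs_peak, hX1] at m2
  rw [hX, pl_nat (by omega) (by omega), gs_piece le_rfl, prof_self, ← hX] at m1
  have hs : 3 * hh M ≤ σ := by linarith
  have : 1 * σ ≤ (X - p.1) * σ := mul_le_mul_of_nonneg_right (by linarith) (by linarith)
  linarith

/-- (G1) a point of a piece, not in its first column, does not see beyond the previous peak -/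
theorem not_vis_left {M J i r : ℕ} (hJ : (i + 1) * (M + 2) ≤ J) (hr0 : 0 < r) {p q : Pt}
    (hp : p.1 = ((i * (M + 2) + r : ℕ) : ℝ)) (hp2 : -hh M ≤ p.2)
    (hq : q.1 ≤ ((i * (M + 2) : ℕ) : ℝ) - 1) :
    ¬ segment ℝ p q ⊆ reg (gs M) (fs M) J 0 J := by
  intro hsub
  have hh0 := hh_pos M
  have e0 : (i + 1) * (M + 2) = i * (M + 2) + M + 2 := by ring
  rcases Nat.eq_zero_or_pos i with hi | hi
  · have := (hsub (right_mem_segment ℝ p q)).1
    rw [hi] at hq
    simp only [Nat.cast_zero, zero_mul] at this hq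
    linarith
  · obtain ⟨i', rfl⟩ : ∃ i', i = i' + 1 := ⟨i - 1, by omega⟩
    have e1 : (i' + 1) * (M + 2) = i' * (M + 2) + (M + 1) + 1 := by ring
    set X : ℝ := (((i' + 1) * (M + 2) : ℕ) : ℝ) with hX
    have hX1 : ((i' * (M + 2) + (M + 1) : ℕ) : ℝ) = X - 1 := by rw [hX, e1]; push_cast; ring
    have hpX : X + 1 ≤ p.1 := by
      rw [hp, hX]
      have : (i' + 1) * (M + 2) + 1 ≤ (i' + 1) * (M + 2) + r := by omega
      exact_mod_cast this
    have hD : 0 < p.1 - q.1 := by linarith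
    set σ : ℝ := (q.2 - p.2) / (p.1 - q.1) with hσ
    have hmem : ∀ x, x ≤ p.1 → q.1 ≤ x → ((x, p.2 + (p.1 - x) * σ) : Pt) ∈ reg (gs M) (fs M) J 0 J := by
      intro x h1 h2
      apply hsub
      rw [mem_seg]
      refine ⟨(p.1 - x) / (p.1 - q.1), div_nonneg (by linarith) hD.le,
        (div_le_one hD).2 (by linarith), ?_, ?_⟩
      · simp only; field_simp; ring
      · simp only
        rw [hσ]
        field_simp
        ring
    have m1 := (hmem X (by linarith) (by linarith)).2.2.2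
    have m2 := (hmem (X - 1) (by linarith) hq).2.2.1
    simp only at m1 m2
    rw [← hX1, pl_nat (by omega) (by omega), fs_peak, hX1] at m2
    have e3 : gs M ((i' + 1) * (M + 2)) = hh M := by
      have := gs_piece (M := M) (i := i' + 1) (r := 0) (Nat.zero_le _)
      rwa [add_zero, Nat.cast_zero, prof_zero] at this
    rw [hX, pl_nat (by omega) (by omega), e3, ← hX] at m1
    have hs : 3 * hh M ≤ σ := by linarith
    have : 1 * σ ≤ (p.1 - X) * σ := mul_le_mul_of_nonneg_right (by linarith) (by linarith)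
    linarith

/-- the pieces without a Steiner point in their window -/
def Unspoiled (M N : ℕ) (P : Set Pt) (i : ℕ) : Prop :=
  i < N ∧ ∀ p ∈ P, p.1 ≤ ((i * (M + 2) : ℕ) : ℝ) - 1 ∨ ((i * (M + 2) + (M + 1) : ℕ) : ℝ) ≤ p.1

theorem Unspoiled.cases {M N i : ℕ} {P : Set Pt} (h : Unspoiled M N P i) {s : Pt}
    (hs : s ∈ cols (gs M) (fs M) 0 (N * (M + 2)) ∪ P) :
    s.1 ≤ ((i * (M + 2) : ℕ) : ℝ) - 1 ∨ ((i * (M + 2) + (M + 1) : ℕ) : ℝ) ≤ s.1 ∨
    ∃ ρ ≤ M, s = pt (gs M) (i * (M + 2) + ρ) ∨ s = pt (fs M) (i * (M + 2) + ρ) := by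
  rcases hs with ⟨j, -, -, hj⟩ | hs
  · have hs1 : s.1 = j := by rcases hj with rfl | rfl <;> rfl
    rcases Nat.lt_or_ge j (i * (M + 2)) with h1 | h1
    · left
      rw [hs1]
      have : (j : ℝ) + 1 ≤ ((i * (M + 2) : ℕ) : ℝ) := by exact_mod_cast h1
      linarith
    · rcases Nat.lt_or_ge (i * (M + 2) + M) j with h2 | h2
      · right; left
        rw [hs1]
        exact_mod_cast h2
      · right; right
        refine ⟨j - i * (M + 2), by omega, ?_⟩
        rw [show i * (M + 2) + (j - i * (M + 2)) = j by omega]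
        exact hj
  · rcases h.2 s hs with h1 | h1
    · exact Or.inl h1
    · exact Or.inr (Or.inl h1)

theorem pt_gs_ge {M i r : ℕ} (hr : r ≤ M) : -hh M ≤ (pt (gs M) (i * (M + 2) + r)).2 := by
  rw [pt_snd, gs_piece hr]
  have := prof_pos (M := M) (r := r) (Nat.cast_nonneg _) (by exact_mod_cast hr)
  have := hh_pos M
  linarith

theorem pt_fs_ge {M i r : ℕ} (hr : r ≤ M) : -hh M ≤ (pt (fs M) (i * (M + 2) + r)).2 := by
  rw [pt_snd, fs_piece hr]
  have := prof_le (M := M) (r := r) (Nat.cast_nonneg _) (by exact_mod_cast hr)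
  linarith

/-- the points seen from two vertices of an unspoiled piece -/
theorem Unspoiled.seen {M N i : ℕ} {P : Set Pt} (h : Unspoiled M N P i) {α β : ℕ} (hα : α ≤ M)
    (hβ : β ≤ M) (hne : α ≠ β) {s : Pt} (hs : s ∈ cols (gs M) (fs M) 0 (N * (M + 2)) ∪ P)
    (hs1 : s ≠ pt (gs M) (i * (M + 2) + α)) (hs2 : s ≠ pt (fs M) (i * (M + 2) + β))
    (h1 : segment ℝ (pt (gs M) (i * (M + 2) + α)) s ⊆
      reg (gs M) (fs M) (N * (M + 2)) 0 (N * (M + 2)))
    (h2 : segment ℝ (pt (fs M) (i * (M + 2) + β)) s ⊆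
      reg (gs M) (fs M) (N * (M + 2)) 0 (N * (M + 2))) :
    ∃ ρ ≤ M, (s = pt (gs M) (i * (M + 2) + ρ) ∧ (ρ = α + 1 ∨ ρ + 1 = α)) ∨
      (s = pt (fs M) (i * (M + 2) + ρ) ∧ (ρ = β + 1 ∨ ρ + 1 = β)) := by
  have hJ : (i + 1) * (M + 2) ≤ N * (M + 2) := Nat.mul_le_mul_right _ h.1
  rcases h.cases hs with h3 | h3 | ⟨ρ, hρ, rfl | rfl⟩
  · exfalso
    have a1 : α = 0 := by
      by_contra hc
      exact not_vis_left hJ (Nat.pos_of_ne_zero hc) rfl (pt_gs_ge hα) h3 h1
    have a2 : β = 0 := by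
      by_contra hc
      exact not_vis_left hJ (Nat.pos_of_ne_zero hc) rfl (pt_fs_ge hβ) h3 h2
    omega
  · exfalso
    have a1 : α = M := by
      by_contra hc
      exact not_vis_right hJ (lt_of_le_of_ne hα hc) rfl (pt_gs_ge hα) h3 h1
    have a2 : β = M := by
      by_contra hc
      exact not_vis_right hJ (lt_of_le_of_ne hβ hc) rfl (pt_fs_ge hβ) h3 h2
    omega
  · refine ⟨ρ, hρ, Or.inl ⟨rfl, ?_⟩⟩
    have b1 : ¬ (α + 2 ≤ ρ) := fun hc => not_vis_U hJ hρ hc h1
    have b2 : ¬ (ρ + 2 ≤ α) := fun hc => not_vis_U hJ hα hc (by rw [segment_symm]; exact h1)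
    have b3 : ρ ≠ α := by rintro rfl; exact hs1 rfl
    omega
  · refine ⟨ρ, hρ, Or.inr ⟨rfl, ?_⟩⟩
    have b1 : ¬ (β + 2 ≤ ρ) := fun hc => not_vis_L hJ hρ hc h2
    have b2 : ¬ (ρ + 2 ≤ β) := fun hc => not_vis_L hJ hβ hc (by rw [segment_symm]; exact h2)
    have b3 : ρ ≠ β := by rintro rfl; exact hs2 rfl
    omega

end Pool.Agent.K3h35.Flip
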